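import Mathlib

set_option autoImplicit false

open Complex Metric Set Filter MeasureTheory
open scoped Real Topology ComplexConjugate NNReal ENNReal

namespace Pool.Agent.Helper156.Ess

theorem A6_inj {ψ : ℂ → ℂ} {U : Set ℂ} (hU : IsOpen U) (hd : DifferentiableOn ℂ ψ U)
    (h0 : ∀ z ∈ U, deriv ψ z ≠ 0) :
    ∃ V : ℕ → Set ℂ, (∀ n, IsOpen (V n)) ∧ (∀ n, InjOn ψ (V n)) ∧ (∀ n, V n ⊆ U) ∧
      U ⊆ ⋃ n, V n := by
  have hloc : ∀ z ∈ U, ∃ W : Set ℂ, IsOpen W ∧ z ∈ W ∧ W ⊆ U ∧ InjOn ψ W := by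
    intro z hz
    have ha : AnalyticAt ℂ ψ z := hd.analyticAt (hU.mem_nhds hz)
    have hs : HasStrictDerivAt ψ (deriv ψ z) z := ha.hasStrictDerivAt
    have he := hs.hasStrictFDerivAt_equiv (h0 z hz)
    refine ⟨(he.toOpenPartialHomeomorph ψ).source ∩ U,
      (he.toOpenPartialHomeomorph ψ).open_source.inter hU,
      ⟨he.mem_toOpenPartialHomeomorph_source, hz⟩, inter_subset_right, ?_⟩
    exact (he.toOpenPartialHomeomorph ψ).injOn.mono inter_subset_left
  choose! W hW1 hW2 hW3 hW4 using hloc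
  obtain ⟨t, htU, htc, htcov⟩ := TopologicalSpace.countable_cover_nhdsWithin (s := U) (f := W)
    (fun x hx => mem_nhdsWithin_of_mem_nhds ((hW1 x hx).mem_nhds (hW2 x hx)))
  by_cases hne : t.Nonempty
  · obtain ⟨g, hg⟩ := htc.exists_eq_range hne
    have hgU : ∀ n, g n ∈ U := fun n => htU (by rw [hg]; exact mem_range_self n)
    refine ⟨fun n => W (g n), fun n => hW1 _ (hgU n), fun n => hW4 _ (hgU n),
      fun n => hW3 _ (hgU n), ?_⟩
    refine htcov.trans ?_
    intro x hx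
    rw [mem_iUnion₂] at hx
    obtain ⟨i, hi, hxi⟩ := hx
    rw [hg] at hi
    obtain ⟨n, rfl⟩ := hi
    exact mem_iUnion.2 ⟨n, hxi⟩
  · rw [not_nonempty_iff_eq_empty] at hne
    refine ⟨fun _ => ∅, fun _ => isOpen_empty, fun _ => injOn_empty _,
      fun _ => empty_subset _, ?_⟩
    rw [hne] at htcov
    refine htcov.trans ?_
    simp

theorem A6_det (c : ℂ) :
    ((ContinuousLinearMap.smulRight (1 : ℂ →L[ℂ] ℂ) c).restrictScalars ℝ).det = ‖c‖ ^ 2 := by
  rw [ContinuousLinearMap.det, ← Complex.normSq_eq_norm_sq, ← Algebra.norm_complex_apply,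
    Algebra.norm_apply]
  congr 1
  ext z
  simp [mul_comm]

theorem A6_tsum_le {f : ℕ → ℂ → ℝ≥0∞} :
    ∑' n, ∫⁻ w, f n w ≤ ∫⁻ w, ∑' n, f n w := by
  rw [ENNReal.tsum_eq_iSup_sum]
  apply iSup_le
  intro s
  have h1 : ∑ n ∈ s, ∫⁻ w, f n w ≤ ∫⁻ w, ∑ n ∈ s, f n w := by
    classical
    induction s using Finset.induction_on with
    | empty => simp
    | insert a s ha ih =>
      rw [Finset.sum_insert ha]
      have e : (fun w => ∑ n ∈ insert a s, f n w) = fun w => f a w + ∑ n ∈ s, f n w := by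
        funext w
        rw [Finset.sum_insert ha]
      rw [e]
      exact (add_le_add le_rfl ih).trans (le_lintegral_add _ _)
  refine h1.trans ?_
  apply lintegral_mono
  intro w
  exact ENNReal.sum_le_tsum s

/-- Area formula (inequality form) for a holomorphic, possibly non-injective map of the disc. -/
theorem area_le {ψ : ℂ → ℂ} (hψ : DifferentiableOn ℂ ψ (ball 0 1)) {G ω : ℂ → ℝ≥0∞}
    (hG : Measurable G) (hω : Measurable ω) :
    ∫⁻ z in ball (0 : ℂ) 1, G (ψ z) * ENNReal.ofReal (‖deriv ψ z‖ ^ 2) * ω z ≤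
      ∫⁻ w, G w * ∑' z : {z : ℂ // z ∈ ball (0 : ℂ) 1 ∧ ψ z = w}, ω z := by
  classical
  obtain ⟨U, hUdef⟩ : ∃ U : Set ℂ, U = {z | z ∈ ball (0 : ℂ) 1 ∧ deriv ψ z ≠ 0} := ⟨_, rfl⟩
  have hUball : U ⊆ ball 0 1 := by rw [hUdef]; exact fun z hz => hz.1
  have hUopen : IsOpen U := by
    have hc : ContinuousOn (deriv ψ) (ball 0 1) := (hψ.deriv isOpen_ball).continuousOn
    have := hc.isOpen_inter_preimage isOpen_ball (isOpen_compl_singleton (x := (0 : ℂ)))
    rw [hUdef]
    exact this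
  have hU0 : ∀ z ∈ U, deriv ψ z ≠ 0 := by rw [hUdef]; exact fun z hz => hz.2
  obtain ⟨V, hVo, hVi, hVU, hUV⟩ := A6_inj hUopen (hψ.mono hUball) hU0
  obtain ⟨A, hA⟩ : ∃ A : ℕ → Set ℂ, A = disjointed V := ⟨_, rfl⟩
  have hAm : ∀ n, MeasurableSet (A n) := by
    rw [hA]
    exact fun n => MeasurableSet.disjointed (fun i => (hVo i).measurableSet) n
  have hAd : Pairwise (Function.onFun Disjoint A) := by
    rw [hA]
    exact disjoint_disjointed V
  have hAV : ∀ n, A n ⊆ V n := by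
    rw [hA]
    exact fun n => disjointed_subset V n
  have hAU : U = ⋃ n, A n := by
    rw [hA, iUnion_disjointed]
    exact hUV.antisymm (iUnion_subset hVU)
  have hAi : ∀ n, InjOn ψ (A n) := fun n => (hVi n).mono (hAV n)
  have hAU' : ∀ n, A n ⊆ U := fun n => (hAV n).trans (hVU n)
  have hd : ∀ z ∈ U, HasFDerivAt ψ
      ((ContinuousLinearMap.smulRight (1 : ℂ →L[ℂ] ℂ) (deriv ψ z)).restrictScalars ℝ) z := by
    intro z hz
    have h1 : DifferentiableAt ℂ ψ z := hψ.differentiableAt (isOpen_ball.mem_nhds (hUball hz))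
    exact h1.hasDerivAt.hasFDerivAt.restrictScalars ℝ
  -- reduce to U
  have h1 : ∫⁻ z in ball (0 : ℂ) 1, G (ψ z) * ENNReal.ofReal (‖deriv ψ z‖ ^ 2) * ω z =
      ∫⁻ z in U, G (ψ z) * ENNReal.ofReal (‖deriv ψ z‖ ^ 2) * ω z := by
    rw [← lintegral_indicator measurableSet_ball, ← lintegral_indicator hUopen.measurableSet]
    congr 1
    funext z
    by_cases hz : z ∈ U
    · rw [indicator_of_mem hz, indicator_of_mem (hUball hz)]
    · rw [indicator_of_notMem hz]
      by_cases hzb : z ∈ ball (0 : ℂ) 1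
      · rw [indicator_of_mem hzb]
        have : deriv ψ z = 0 := by
          by_contra h
          exact hz (by rw [hUdef]; exact ⟨hzb, h⟩)
        rw [this]
        simp
      · rw [indicator_of_notMem hzb]
  rw [h1, hAU, lintegral_iUnion hAm hAd]
  -- each piece
  have h2 : ∀ n, ∫⁻ z in A n, G (ψ z) * ENNReal.ofReal (‖deriv ψ z‖ ^ 2) * ω z =
      ∫⁻ w, (ψ '' A n).indicator (fun w => G w * ω (Function.invFunOn ψ (A n) w)) w := by
    intro n
    have him : MeasurableSet (ψ '' A n) := by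
      apply (hAm n).image_of_continuousOn_injOn _ (hAi n)
      exact hψ.continuousOn.mono ((hAU' n).trans hUball)
    rw [lintegral_indicator him]
    rw [lintegral_image_eq_lintegral_abs_det_fderiv_mul volume (hAm n)
      (fun z hz => (hd z (hAU' n hz)).hasFDerivWithinAt) (hAi n)]
    apply setLIntegral_congr_fun (hAm n)
    intro z hz
    have h3 : Function.invFunOn ψ (A n) (ψ z) = z :=
      (hAi n).leftInvOn_invFunOn hz
    simp only []
    rw [h3, A6_det, abs_of_nonneg (by positivity)]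
    ring
  simp_rw [h2]
  refine A6_tsum_le.trans ?_
  apply lintegral_mono
  intro w
  -- pointwise
  have h3 : ∑' n, (ψ '' A n).indicator (fun w => G w * ω (Function.invFunOn ψ (A n) w)) w =
      G w * ∑' n, (if w ∈ ψ '' A n then ω (Function.invFunOn ψ (A n) w) else 0) := by
    rw [← ENNReal.tsum_mul_left]
    congr 1
    funext n
    by_cases hw : w ∈ ψ '' A n
    · rw [indicator_of_mem hw, if_pos hw]
    · rw [indicator_of_notMem hw, if_neg hw, mul_zero]
  simp only []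
  rw [h3]
  gcongr
  have h4 : ∑' n, (if w ∈ ψ '' A n then ω (Function.invFunOn ψ (A n) w) else 0) =
      ∑' n : {n : ℕ // w ∈ ψ '' A n}, ω (Function.invFunOn ψ (A n) w) := by
    have := tsum_subtype {n : ℕ | w ∈ ψ '' A n} (fun n => ω (Function.invFunOn ψ (A n) w))
    rw [show (∑' n : {n : ℕ // w ∈ ψ '' A n}, ω (Function.invFunOn ψ (A n) w)) =
      ∑' n : ({n : ℕ | w ∈ ψ '' A n} : Set ℕ), ω (Function.invFunOn ψ (A n) w) from rfl, this]
    rfl
  rw [h4]
  have h5 : ∀ n : {n : ℕ // w ∈ ψ '' A n},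
      Function.invFunOn ψ (A n) w ∈ A n ∧ ψ (Function.invFunOn ψ (A n) w) = w := by
    intro n
    obtain ⟨z, hz, hzw⟩ := n.2
    exact ⟨Function.invFunOn_mem ⟨z, hz, hzw⟩, Function.invFunOn_eq ⟨z, hz, hzw⟩⟩
  have h6 : ∀ n : {n : ℕ // w ∈ ψ '' A n},
      Function.invFunOn ψ (A n) w ∈ ball (0 : ℂ) 1 ∧ ψ (Function.invFunOn ψ (A n) w) = w :=
    fun n => ⟨hUball (hAU' n (h5 n).1), (h5 n).2⟩
  have h7 : Function.Injective (fun n : {n : ℕ // w ∈ ψ '' A n} =>
      (⟨Function.invFunOn ψ (A n) w, h6 n⟩ : {z : ℂ // z ∈ ball (0 : ℂ) 1 ∧ ψ z = w})) := by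
    intro n n' h
    have h8 : Function.invFunOn ψ (A n) w = Function.invFunOn ψ (A n') w := congrArg Subtype.val h
    by_contra hne
    have hne' : (n : ℕ) ≠ n' := fun h => hne (Subtype.ext h)
    have h9 := hAd hne'
    exact (Set.disjoint_left.1 h9) (h5 n).1 (h8 ▸ (h5 n').1)
  exact ENNReal.tsum_comp_le_tsum_of_injective h7
    (fun z : {z : ℂ // z ∈ ball (0 : ℂ) 1 ∧ ψ z = w} => ω z)

end Pool.Agent.Helper156.Ess
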