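import Mathlib

set_option autoImplicit false

open Complex Metric Set Filter MeasureTheory
open scoped Real Topology ComplexConjugate NNReal ENNReal

namespace Pool.Agent.Helper156.Ess

/-- normalised arc length on the circle, in the angle coordinate -/
noncomputable def mT : Measure ℝ := (ENNReal.ofReal (2 * π))⁻¹ • volume.restrict (Ioc 0 (2 * π))

/-- The Hardy space `H²` as the Hilbert space of square summable Taylor coefficient sequences. -/
noncomputable abbrev H2 := lp (fun _ : ℕ => ℂ) 2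

/-- The analytic function with Taylor coefficients `f`. -/
noncomputable def ev (f : H2) (z : ℂ) : ℂ := ∑' n, f n * z ^ n

theorem sq_summable (f : H2) : Summable (fun n => ‖f n‖ ^ 2) := by
  have := (lp.memℓp f).summable (by norm_num)
  simpa using this

theorem norm_sq (f : H2) : ‖f‖ ^ 2 = ∑' n, ‖f n‖ ^ 2 := by
  have := lp.norm_rpow_eq_tsum (p := 2) (by norm_num) f
  simpa using this

/-- right shift of a sequence -/
def shiftFun (a : ℕ → ℂ) : ℕ → ℂ
  | 0 => 0
  | (n + 1) => a n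

theorem shift_summable (f : H2) : Summable (fun n => ‖shiftFun f n‖ ^ 2) := by
  rw [← summable_nat_add_iff 1]
  exact (sq_summable f).congr fun n => rfl

theorem shift_memlp (f : H2) : Memℓp (shiftFun f) 2 := by
  apply memℓp_gen
  simpa using shift_summable f

theorem shift_norm (f : H2) : ‖(⟨shiftFun f, shift_memlp f⟩ : H2)‖ = ‖f‖ := by
  have h : ‖(⟨shiftFun f, shift_memlp f⟩ : H2)‖ ^ 2 = ‖f‖ ^ 2 := by
    rw [norm_sq, norm_sq]
    have h1 := (shift_summable f).tsum_eq_zero_add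
    have e : ∀ n, ‖(⟨shiftFun f, shift_memlp f⟩ : H2) n‖ ^ 2 = ‖shiftFun f n‖ ^ 2 := fun n => rfl
    simp only [e]
    rw [h1]
    simp [shiftFun]
  exact (pow_left_inj₀ (norm_nonneg _) (norm_nonneg _) two_ne_zero).1 h

theorem ofReal_two_pi_ne_zero : ENNReal.ofReal (2 * π) ≠ 0 := by
  rw [Ne, ENNReal.ofReal_eq_zero, not_le]; positivity

instance : IsProbabilityMeasure mT := by
  constructor
  rw [mT, Measure.smul_apply, Measure.restrict_apply_univ, Real.volume_Ioc, sub_zero, smul_eq_mul,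
    ENNReal.inv_mul_cancel ofReal_two_pi_ne_zero ENNReal.ofReal_ne_top]

theorem integral_mT {E : Type*} [NormedAddCommGroup E] [NormedSpace ℝ E] (f : ℝ → E) :
    ∫ θ, f θ ∂mT = (2 * π)⁻¹ • ∫ θ in (0 : ℝ)..2 * π, f θ := by
  rw [mT, integral_smul_measure, intervalIntegral.integral_of_le (by positivity),
    ENNReal.toReal_inv, ENNReal.toReal_ofReal (by positivity)]

theorem integral_mT_circle {E : Type*} [NormedAddCommGroup E] [NormedSpace ℝ E] (f : ℂ → E)
    (r : ℝ) : ∫ θ, f (circleMap 0 r θ) ∂mT = Real.circleAverage f 0 r := by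
  rw [integral_mT, Real.circleAverage_def]

theorem ae_mT_of_ae {p : ℝ → Prop} (h : ∀ᵐ θ : ℝ, p θ) : ∀ᵐ θ ∂mT, p θ := by
  rw [mT]
  exact Measure.ae_smul_measure (ae_restrict_of_ae h) _

theorem coef_le (f : H2) (n : ℕ) : ‖f n‖ ≤ ‖f‖ := lp.norm_apply_le_norm (by norm_num) f n

theorem ev_summable_norm (f : H2) {r : ℝ} (h0 : 0 ≤ r) (h1 : r < 1) :
    Summable (fun n => ‖f n‖ * r ^ n) := by
  refine Summable.of_nonneg_of_le (fun n => by positivity) (fun n => ?_)
    ((summable_geometric_of_lt_one h0 h1).mul_left ‖f‖)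
  gcongr
  exact coef_le f n

theorem ev_summable (f : H2) {z : ℂ} (hz : ‖z‖ < 1) : Summable (fun n => f n * z ^ n) := by
  apply Summable.of_norm
  simpa using ev_summable_norm f (norm_nonneg z) hz

theorem ev_norm_le (f : H2) {z : ℂ} {r : ℝ} (hz : ‖z‖ ≤ r) (hr : r < 1) :
    ‖ev f z‖ ≤ ‖f‖ * (1 - r)⁻¹ := by
  have h0 : 0 ≤ r := (norm_nonneg z).trans hz
  have h1 : HasSum (fun n : ℕ => ‖f‖ * r ^ n) (‖f‖ * (1 - r)⁻¹) :=
    (hasSum_geometric_of_lt_one h0 hr).mul_left _
  refine tsum_of_norm_bounded h1 (fun n => ?_)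
  rw [norm_mul, norm_pow]
  gcongr
  exact coef_le f n

theorem ev_add (f g : H2) {z : ℂ} (hz : ‖z‖ < 1) : ev (f + g) z = ev f z + ev g z := by
  rw [ev, ev, ev, ← (ev_summable f hz).tsum_add (ev_summable g hz)]
  congr 1
  funext n
  rw [lp.coeFn_add, Pi.add_apply, add_mul]

theorem ev_smul (c : ℂ) (f : H2) (z : ℂ) : ev (c • f) z = c * ev f z := by
  rw [ev, ev, ← tsum_mul_left]
  congr 1
  funext n
  rw [lp.coeFn_smul, Pi.smul_apply, smul_eq_mul, mul_assoc]

theorem ev_sub (f g : H2) {z : ℂ} (hz : ‖z‖ < 1) : ev (f - g) z = ev f z - ev g z := by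
  have : f - g = f + (-1 : ℂ) • g := by simp [sub_eq_add_neg]
  rw [this, ev_add _ _ hz, ev_smul]
  ring

theorem ev_diff (f : H2) : DifferentiableOn ℂ (ev f) (ball 0 1) := by
  intro z hz
  rw [mem_ball_zero_iff] at hz
  obtain ⟨r, hr1, hr2⟩ := exists_between hz
  have h0 : 0 ≤ r := (norm_nonneg z).trans hr1.le
  have hd : DifferentiableOn ℂ (ev f) (ball 0 r) := by
    apply differentiableOn_tsum_of_summable_norm (u := fun n => ‖f n‖ * r ^ n)
    · exact ev_summable_norm f h0 hr2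
    · intro n; fun_prop
    · exact isOpen_ball
    · intro n w hw
      rw [mem_ball_zero_iff] at hw
      rw [norm_mul, norm_pow]
      gcongr
  exact ((hd z (mem_ball_zero_iff.2 hr1)).differentiableAt
    (isOpen_ball.mem_nhds (mem_ball_zero_iff.2 hr1))).differentiableWithinAt

theorem int_exp (q : ℤ) : ∫ θ, cexp (q * θ * I) ∂mT = (if q = 0 then 1 else (0 : ℂ)) := by
  rw [integral_mT]
  split_ifs with h
  · subst h
    have : (π : ℂ) ≠ 0 := by exact_mod_cast Real.pi_ne_zero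
    simp
    field_simp
  · have hc : (q : ℂ) * I ≠ 0 := mul_ne_zero (by exact_mod_cast h) I_ne_zero
    have e : ∀ θ : ℝ, cexp (q * θ * I) = cexp ((q : ℂ) * I * θ) := by
      intro θ; congr 1; ring
    simp only [e]
    rw [integral_exp_mul_complex hc]
    have h1 : cexp ((q : ℂ) * I * ((2 * π : ℝ) : ℂ)) = 1 := by
      have : (q : ℂ) * I * ((2 * π : ℝ) : ℂ) = q * (2 * π * I) := by push_cast; ring
      rw [this, Complex.exp_int_mul_two_pi_mul_I]
    rw [h1]
    simp

theorem norm_exp_q (q : ℤ) (θ : ℝ) : ‖cexp (q * θ * I)‖ = 1 := by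
  have : (q : ℂ) * θ * I = ((q * θ : ℝ) : ℂ) * I := by push_cast; ring
  rw [this, Complex.norm_exp_ofReal_mul_I]

/-- Parseval for absolutely convergent series -/
theorem parseval (c : ℕ → ℂ) (hc : Summable fun k => ‖c k‖) :
    ∫ θ : ℝ, ‖∑' k : ℕ, c k * cexp (k * θ * I)‖ ^ 2 ∂mT = ∑' k, ‖c k‖ ^ 2 := by
  set F : ℝ → ℂ := fun θ => ∑' k : ℕ, c k * cexp (k * θ * I) with hF
  have hterm : ∀ k : ℕ, ∀ θ : ℝ, ‖c k * cexp (k * θ * I)‖ = ‖c k‖ := by
    intro k θ
    have := norm_exp_q k θ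
    rw [norm_mul]
    push_cast at this
    rw [this, mul_one]
  have hFc : Continuous F := by
    apply continuous_tsum (u := fun k => ‖c k‖)
    · intro k; fun_prop
    · exact hc
    · intro k θ; exact (hterm k θ).le
  have hsum : ∀ θ : ℝ, HasSum (fun k : ℕ => c k * cexp (k * θ * I)) (F θ) := by
    intro θ
    apply Summable.hasSum
    apply Summable.of_norm
    simpa only [hterm] using hc
  have hFb : ∀ θ, ‖F θ‖ ≤ ∑' k, ‖c k‖ := by
    intro θ
    refine tsum_of_norm_bounded hc.hasSum (fun k => (hterm k θ).le)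
  -- coefficients
  have hcoef : ∀ j : ℕ, ∫ θ : ℝ, cexp (-(j : ℤ) * θ * I) * F θ ∂mT = c j := by
    intro j
    have h1 : HasSum (fun k : ℕ => ∫ θ : ℝ, cexp (-(j : ℤ) * θ * I) * (c k * cexp (k * θ * I)) ∂mT)
        (∫ θ : ℝ, cexp (-(j : ℤ) * θ * I) * F θ ∂mT) := by
      apply hasSum_integral_of_dominated_convergence (fun k _ => ‖c k‖)
      · intro k
        apply Continuous.aestronglyMeasurable
        fun_prop
      · intro k
        filter_upwards with θ
        have := norm_exp_q (-(j : ℤ)) θ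
        rw [norm_mul, hterm]
        push_cast at this ⊢
        rw [this, one_mul]
      · filter_upwards with θ
        exact hc
      · exact integrable_const _
      · filter_upwards with θ
        exact (hsum θ).mul_left _
    have h2 : ∀ k : ℕ, ∫ θ : ℝ, cexp (-(j : ℤ) * θ * I) * (c k * cexp (k * θ * I)) ∂mT =
        if k = j then c j else 0 := by
      intro k
      have e : ∀ θ : ℝ, cexp (-(j : ℤ) * θ * I) * (c k * cexp (k * θ * I)) =
          c k * cexp (((k : ℤ) - j : ℤ) * θ * I) := by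
        intro θ
        rw [mul_left_comm, ← Complex.exp_add]
        congr 2
        push_cast; ring
      simp only [e]
      rw [integral_const_mul, int_exp]
      by_cases hkj : k = j
      · subst hkj; simp
      · have : ¬ ((k : ℤ) - j = 0) := by omega
        simp [hkj, this]
    simp only [h2] at h1
    have h3 : HasSum (fun k : ℕ => if k = j then c j else 0) (c j) := by
      have := hasSum_ite_eq j (c j)
      simpa using this
    exact h1.unique h3
  -- main
  have h1 : HasSum (fun k : ℕ => ∫ θ : ℝ, conj (c k) * (cexp (-(k : ℤ) * θ * I) * F θ) ∂mT)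
      (∫ θ : ℝ, conj (F θ) * F θ ∂mT) := by
    apply hasSum_integral_of_dominated_convergence (fun k _ => ‖c k‖ * ∑' k, ‖c k‖)
    · intro k
      apply Continuous.aestronglyMeasurable
      fun_prop
    · intro k
      filter_upwards with θ
      have := norm_exp_q (-(k : ℤ)) θ
      rw [norm_mul, norm_mul, RCLike.norm_conj]
      push_cast at this ⊢
      rw [this, one_mul]
      gcongr
      exact hFb θ
    · filter_upwards with θ
      exact hc.mul_right _
    · exact integrable_const _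
    · filter_upwards with θ
      have h2 := (Complex.hasSum_conj'.2 (hsum θ)).mul_right (F θ)
      have e2 : (fun k : ℕ => conj (c k) * (cexp (-(k : ℤ) * θ * I) * F θ)) =
          fun k : ℕ => conj (c k * cexp (k * θ * I)) * F θ := by
        funext k
        have e : conj (cexp (k * θ * I)) = cexp (-(k : ℤ) * θ * I) := by
          rw [← Complex.exp_conj]
          congr 1
          simp
        rw [map_mul, e]
        ring
      rw [e2]
      exact h2
  have h2 : ∀ k : ℕ, ∫ θ : ℝ, conj (c k) * (cexp (-(k : ℤ) * θ * I) * F θ) ∂mT =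
      ((‖c k‖ ^ 2 : ℝ) : ℂ) := by
    intro k
    rw [integral_const_mul, hcoef, mul_comm, Complex.mul_conj, Complex.normSq_eq_norm_sq]
  simp only [h2] at h1
  have h3 : ∀ θ, conj (F θ) * F θ = ((‖F θ‖ ^ 2 : ℝ) : ℂ) := by
    intro θ
    rw [mul_comm, Complex.mul_conj, Complex.normSq_eq_norm_sq]
  simp only [h3] at h1
  rw [integral_complex_ofReal] at h1
  exact (Complex.hasSum_ofReal.1 h1).tsum_eq.symm

theorem circleMap_pow (r θ : ℝ) (k : ℕ) :
    (circleMap 0 r θ) ^ k = (r : ℂ) ^ k * cexp (k * θ * I) := by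
  rw [circleMap_zero, mul_pow, ← Complex.exp_nat_mul]
  congr 2
  ring

theorem parseval_power (a : ℕ → ℂ) {r : ℝ} (h0 : 0 ≤ r) (ha : Summable fun k => ‖a k‖ * r ^ k) :
    ∫ θ : ℝ, ‖∑' k : ℕ, a k * (circleMap 0 r θ) ^ k‖ ^ 2 ∂mT = ∑' k, ‖a k‖ ^ 2 * r ^ (2 * k) := by
  have h1 := parseval (fun k => a k * (r : ℂ) ^ k) (by
    refine ha.congr fun k => ?_
    rw [norm_mul, norm_pow, Complex.norm_real, Real.norm_of_nonneg h0])
  have e1 : ∀ k : ℕ, ∀ θ : ℝ, a k * (circleMap 0 r θ) ^ k =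
      a k * (r : ℂ) ^ k * cexp (k * θ * I) := by
    intro k θ; rw [circleMap_pow]; ring
  simp only [e1]
  rw [h1]
  congr 1
  funext k
  rw [norm_mul, norm_pow, Complex.norm_real, Real.norm_of_nonneg h0, mul_pow, ← pow_mul,
    mul_comm k 2]

theorem ev_circle (f : H2) {r : ℝ} (h0 : 0 ≤ r) (h1 : r < 1) :
    ∫ θ : ℝ, ‖ev f (circleMap 0 r θ)‖ ^ 2 ∂mT = ∑' k, ‖f k‖ ^ 2 * r ^ (2 * k) :=
  parseval_power f h0 (ev_summable_norm f h0 h1)

theorem ev_circle_le (f : H2) {r : ℝ} (h0 : 0 ≤ r) (h1 : r < 1) :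
    ∫ θ : ℝ, ‖ev f (circleMap 0 r θ)‖ ^ 2 ∂mT ≤ ‖f‖ ^ 2 := by
  rw [ev_circle f h0 h1, norm_sq]
  have hle : ∀ k, ‖f k‖ ^ 2 * r ^ (2 * k) ≤ ‖f k‖ ^ 2 := fun k =>
    mul_le_of_le_one_right (by positivity) (pow_le_one₀ h0 h1.le)
  exact Summable.tsum_le_tsum hle
    (Summable.of_nonneg_of_le (fun k => by positivity) hle (sq_summable f)) (sq_summable f)

theorem ev_circle_tendsto (f : H2) {r : ℕ → ℝ} (h0 : ∀ n, 0 ≤ r n) (h1 : ∀ n, r n < 1)
    (hr : Tendsto r atTop (𝓝 1)) :
    Tendsto (fun n => ∫ θ : ℝ, ‖ev f (circleMap 0 (r n) θ)‖ ^ 2 ∂mT) atTop (𝓝 (‖f‖ ^ 2)) := by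
  simp only [fun n => ev_circle f (h0 n) (h1 n)]
  rw [norm_sq]
  apply tendsto_tsum_of_dominated_convergence (sq_summable f)
  · intro k
    have : Tendsto (fun n => ‖f k‖ ^ 2 * r n ^ (2 * k)) atTop (𝓝 (‖f k‖ ^ 2 * 1 ^ (2 * k))) :=
      (hr.pow _).const_mul _
    simpa using this
  · filter_upwards with n k
    rw [Real.norm_of_nonneg (by have := h0 n; positivity)]
    exact mul_le_of_le_one_right (by positivity) (pow_le_one₀ (h0 n) (h1 n).le)

/-- a sequence of radii tending to one -/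
noncomputable def rad (n : ℕ) : ℝ := 1 - 1 / ((n : ℝ) + 2)

theorem rad_nonneg (n : ℕ) : 0 ≤ rad n := by
  have : 1 / ((n : ℝ) + 2) ≤ 1 := by
    rw [div_le_one (by positivity)]; linarith [(Nat.cast_nonneg n : (0 : ℝ) ≤ n)]
  simp only [rad]; linarith

theorem rad_lt (n : ℕ) : rad n < 1 := by
  have : 0 < 1 / ((n : ℝ) + 2) := by positivity
  simp only [rad]; linarith

theorem rad_tendsto : Tendsto rad atTop (𝓝 1) := by
  have h : Tendsto (fun n : ℕ => 1 / ((n : ℝ) + 2)) atTop (𝓝 0) := by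
    have h1 : Tendsto (fun n : ℕ => (n : ℝ) + 2) atTop atTop :=
      tendsto_atTop_add_const_right _ _ tendsto_natCast_atTop_atTop
    exact (tendsto_inv_atTop_zero.comp h1).congr fun n => by simp
  have h2 := h.const_sub 1
  rw [sub_zero] at h2
  exact h2

theorem rad_tendsto' : Tendsto rad atTop (𝓝[<] 1) :=
  tendsto_nhdsWithin_iff.2 ⟨rad_tendsto, Eventually.of_forall rad_lt⟩

theorem ev_injective {f g : H2} (h : ∀ z ∈ ball (0 : ℂ) 1, ev f z = ev g z) : f = g := by
  have h1 : ∀ n, ∫ θ : ℝ, ‖ev (f - g) (circleMap 0 (rad n) θ)‖ ^ 2 ∂mT = 0 := by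
    intro n
    have : ∀ θ, ev (f - g) (circleMap 0 (rad n) θ) = 0 := by
      intro θ
      have hn : ‖circleMap 0 (rad n) θ‖ < 1 := by
        rw [norm_circleMap_zero, abs_of_nonneg (rad_nonneg n)]; exact rad_lt n
      rw [ev_sub f g hn, h _ (mem_ball_zero_iff.2 hn), sub_self]
    simp [this]
  have h2 := ev_circle_tendsto (f - g) rad_nonneg rad_lt rad_tendsto
  simp only [h1] at h2
  have h3 : ‖f - g‖ ^ 2 = 0 := tendsto_nhds_unique h2 tendsto_const_nhds
  have h4 : ‖f - g‖ = 0 := by simpa using h3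
  exact sub_eq_zero.1 (norm_eq_zero.1 h4)

/-- an analytic function with bounded square means is given by an element of `H²` -/
theorem exists_ev {h : ℂ → ℂ} (hh : DifferentiableOn ℂ h (ball 0 1)) {B : ℝ} (hB : 0 ≤ B)
    (hb : ∀ r : ℝ, 0 ≤ r → r < 1 → ∫ θ : ℝ, ‖h (circleMap 0 r θ)‖ ^ 2 ∂mT ≤ B) :
    ∃ F : H2, (∀ z ∈ ball (0 : ℂ) 1, ev F z = h z) ∧ ‖F‖ ^ 2 ≤ B := by
  set a : ℕ → ℂ := fun k => iteratedDeriv k h 0 / (k.factorial : ℂ) with ha
  have hsum : ∀ z ∈ ball (0 : ℂ) 1, HasSum (fun k => a k * z ^ k) (h z) := by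
    intro z hz
    have h1 := Complex.hasSum_taylorSeries_on_ball (f := h) (c := 0) (r := 1) hh hz
    have e2 : (fun k => a k * z ^ k) =
        fun n : ℕ => ((n.factorial : ℂ)⁻¹ • (z - 0) ^ n • iteratedDeriv n h 0) := by
      funext k
      simp only [ha, smul_eq_mul, sub_zero]
      ring
    rw [e2]
    exact h1
  have hnorm : ∀ r : ℝ, 0 ≤ r → r < 1 → Summable fun k => ‖a k‖ * r ^ k := by
    intro r h0 h1
    have h2 := (hsum (r : ℂ) (by
      rw [mem_ball_zero_iff, Complex.norm_real, Real.norm_of_nonneg h0]; exact h1)).summable.norm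
    refine h2.congr fun k => ?_
    rw [norm_mul, norm_pow, Complex.norm_real, Real.norm_of_nonneg h0]
  have hP : ∀ r : ℝ, 0 ≤ r → r < 1 → ∑' k, ‖a k‖ ^ 2 * r ^ (2 * k) ≤ B := by
    intro r h0 h1
    rw [← parseval_power a h0 (hnorm r h0 h1)]
    refine le_trans (le_of_eq ?_) (hb r h0 h1)
    congr 1
    funext θ
    rw [(hsum (circleMap 0 r θ) (by
      rw [mem_ball_zero_iff, norm_circleMap_zero, abs_of_nonneg h0]; exact h1)).tsum_eq]
  have hSr : ∀ r : ℝ, 0 ≤ r → r < 1 → Summable fun k => ‖a k‖ ^ 2 * r ^ (2 * k) := by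
    intro r h0 h1
    have h2 := hnorm r h0 h1
    have h3 := (h2.mul_of_nonneg h2 (fun k => by positivity) (fun k => by positivity))
    have h4 := h3.comp_injective (i := fun k : ℕ => (k, k)) (fun x y hxy => by simpa using hxy)
    refine h4.congr fun k => ?_
    simp only [Function.comp]
    ring
  have hpart : ∀ N : ℕ, ∑ k ∈ Finset.range N, ‖a k‖ ^ 2 ≤ B := by
    intro N
    have h1 : Tendsto (fun n => ∑ k ∈ Finset.range N, ‖a k‖ ^ 2 * rad n ^ (2 * k)) atTop
        (𝓝 (∑ k ∈ Finset.range N, ‖a k‖ ^ 2 * 1 ^ (2 * k))) := by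
      apply tendsto_finsetSum
      intro k _
      exact (rad_tendsto.pow _).const_mul _
    simp only [one_pow, mul_one] at h1
    refine le_of_tendsto h1 (Eventually.of_forall fun n => ?_)
    refine le_trans ?_ (hP (rad n) (rad_nonneg n) (rad_lt n))
    exact (hSr (rad n) (rad_nonneg n) (rad_lt n)).sum_le_tsum _ (fun k _ => by
      have := rad_nonneg n; positivity)
  have hsumm : Summable fun k => ‖a k‖ ^ 2 :=
    summable_of_sum_range_le (fun k => by positivity) hpart
  have hmem : Memℓp a 2 := by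
    apply memℓp_gen
    simpa using hsumm
  refine ⟨⟨a, hmem⟩, fun z hz => ?_, ?_⟩
  · exact (hsum z hz).tsum_eq
  · rw [norm_sq]
    exact hsumm.tsum_le_of_sum_range_le hpart

/-! ### shift -/

/-- `M_z`, the unilateral shift on `H²`. -/
noncomputable def Mz : H2 →L[ℂ] H2 :=
  LinearMap.mkContinuous
    { toFun := fun f => ⟨shiftFun f, shift_memlp f⟩
      map_add' := fun f g => by
        ext n
        cases n
        · show (0 : ℂ) = 0 + 0
          simp
        · rfl
      map_smul' := fun c f => by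
        ext n
        cases n
        · show (0 : ℂ) = c * 0
          simp
        · rfl } 1 (fun f => by
      rw [one_mul]
      exact (shift_norm f).le)

theorem Mz_apply (f : H2) (n : ℕ) : Mz f n = shiftFun f n := rfl

theorem Mz_norm (f : H2) : ‖Mz f‖ = ‖f‖ := shift_norm f

theorem Mz_pow_norm (n : ℕ) (f : H2) : ‖(Mz ^ n) f‖ = ‖f‖ := by
  induction n generalizing f with
  | zero => simp
  | succ n ih => rw [pow_succ, mul_apply_eq_comp, ih, Mz_norm]

/-- `M_z` is multiplication by the coordinate. -/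
theorem ev_Mz (f : H2) {z : ℂ} (hz : ‖z‖ < 1) : ev (Mz f) z = z * ev f z := by
  rw [ev, (ev_summable (Mz f) hz).tsum_eq_zero_add, ev, ← tsum_mul_left]
  simp only [Mz_apply, shiftFun, zero_mul, zero_add]
  congr 1
  funext n
  ring

theorem ev_Mz_pow (f : H2) (n : ℕ) {z : ℂ} (hz : ‖z‖ < 1) : ev ((Mz ^ n) f) z = z ^ n * ev f z := by
  induction n generalizing f with
  | zero => simp
  | succ n ih => rw [pow_succ, mul_apply_eq_comp, ih, ev_Mz f hz]; ring

/-! ### Poisson kernel -/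

/-- Poisson kernel -/
noncomputable def PK (z : ℂ) (θ : ℝ) : ℝ := (1 - ‖z‖ ^ 2) / ‖circleMap 0 1 θ - z‖ ^ 2

theorem norm_cm1 (θ : ℝ) : ‖circleMap 0 1 θ‖ = 1 := by simp

theorem PK_eq (z : ℂ) (θ : ℝ) : PK z θ = poissonKernel 0 z (circleMap 0 1 θ) := by
  rw [PK, poissonKernel_def, sub_zero, sub_zero, norm_cm1, one_pow]

theorem PK_re (z : ℂ) (θ : ℝ) :
    PK z θ = ((circleMap 0 1 θ + z) / (circleMap 0 1 θ - z)).re := by
  rw [PK_eq, poissonKernel_eq_re_herglotzRieszKernel]
  simp [herglotzRieszKernel_def]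

theorem cm_sub_ne {z : ℂ} (hz : ‖z‖ < 1) (θ : ℝ) : circleMap 0 1 θ - z ≠ 0 := by
  intro h
  have : circleMap 0 1 θ = z := sub_eq_zero.1 h
  rw [← this, norm_cm1] at hz
  exact lt_irrefl _ hz

theorem PK_pos {z : ℂ} (hz : ‖z‖ < 1) (θ : ℝ) : 0 < PK z θ := by
  rw [PK]
  apply div_pos
  · nlinarith [norm_nonneg z]
  · have := norm_pos_iff.2 (cm_sub_ne hz θ)
    positivity

theorem PK_le {z : ℂ} (hz : ‖z‖ < 1) (θ : ℝ) : PK z θ ≤ (1 + ‖z‖) / (1 - ‖z‖) := by
  have h1 : 1 - ‖z‖ ≤ ‖circleMap 0 1 θ - z‖ := by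
    have := norm_sub_norm_le (circleMap 0 1 θ) z
    rwa [norm_cm1] at this
  have h0 : 0 < 1 - ‖z‖ := by linarith
  have h00 : 0 < ‖circleMap 0 1 θ - z‖ := h0.trans_le h1
  rw [PK, div_le_div_iff₀ (by positivity) h0]
  have : (1 - ‖z‖) ^ 2 ≤ ‖circleMap 0 1 θ - z‖ ^ 2 := by gcongr
  have h2 : 0 ≤ 1 + ‖z‖ := by positivity
  calc (1 - ‖z‖ ^ 2) * (1 - ‖z‖) = (1 + ‖z‖) * (1 - ‖z‖) ^ 2 := by ring
    _ ≤ _ := by gcongr

theorem cont_integrable {f : ℝ → ℝ} (hf : Continuous f) : Integrable f mT := by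
  rw [mT]
  apply Integrable.smul_measure
  · exact hf.integrableOn_Ioc
  · exact ENNReal.inv_ne_top.2 ofReal_two_pi_ne_zero

theorem PK_cont {z : ℂ} (hz : ‖z‖ < 1) : Continuous (PK z) := by
  unfold PK
  apply Continuous.div (by fun_prop) (by fun_prop)
  intro θ
  have := norm_pos_iff.2 (cm_sub_ne hz θ)
  positivity

/-- Poisson bound for analytic functions -/
theorem poisson_le {f : ℂ → ℂ} (hf : DiffContOnCl ℂ f (ball 0 1)) {z : ℂ} (hz : ‖z‖ < 1) :
    ‖f z‖ ≤ ∫ θ, PK z θ * ‖f (circleMap 0 1 θ)‖ ∂mT := by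
  have h1 := hf.circleAverage_poissonKernel_smul (mem_ball_zero_iff.2 hz)
  rw [← integral_mT_circle] at h1
  rw [← h1]
  refine (norm_integral_le_integral_norm _).trans (le_of_eq ?_)
  congr 1
  funext θ
  rw [Pi.smul_apply', norm_smul, ← PK_eq, Real.norm_of_nonneg (PK_pos hz θ).le]

/-- mean value property of the Poisson kernel along an analytic self-map -/
theorem PK_mean {ψ : ℂ → ℂ} (hψ : DifferentiableOn ℂ ψ (ball 0 1))
    (hm : MapsTo ψ (ball (0 : ℂ) 1) (ball 0 1)) {r : ℝ} (h0 : 0 ≤ r) (h1 : r < 1) (t : ℝ) :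
    ∫ θ, PK (ψ (circleMap 0 r θ)) t ∂mT = PK (ψ 0) t := by
  set F : ℂ → ℂ := fun z => (circleMap 0 1 t + ψ z) / (circleMap 0 1 t - ψ z) with hF
  have hFd : DifferentiableOn ℂ F (ball 0 1) := by
    simp only [hF]
    refine DifferentiableOn.div (by fun_prop) (by fun_prop) ?_
    intro z hz
    exact cm_sub_ne (mem_ball_zero_iff.1 (hm hz)) t
  have hsub : closedBall (0 : ℂ) |r| ⊆ ball 0 1 := by
    rw [abs_of_nonneg h0]
    exact closedBall_subset_ball h1
  have hcl : DiffContOnCl ℂ F (ball 0 |r|) := by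
    apply DifferentiableOn.diffContOnCl
    exact hFd.mono (closure_ball_subset_closedBall.trans hsub)
  have h2 := hcl.circleAverage
  rw [← integral_mT_circle] at h2
  have hcb : ∀ θ, circleMap 0 r θ ∈ ball (0 : ℂ) 1 := by
    intro θ
    rw [mem_ball_zero_iff, norm_circleMap_zero, abs_of_nonneg h0]; exact h1
  have hcont : Continuous fun θ => F (circleMap 0 r θ) :=
    hFd.continuousOn.comp_continuous (continuous_circleMap 0 _) hcb
  have hint : Integrable (fun θ => F (circleMap 0 r θ)) mT := by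
    rw [mT]
    apply Integrable.smul_measure
    · exact hcont.integrableOn_Ioc
    · exact ENNReal.inv_ne_top.2 ofReal_two_pi_ne_zero
  have h3 : ∫ θ, (F (circleMap 0 r θ)).re ∂mT = (∫ θ, F (circleMap 0 r θ) ∂mT).re :=
    integral_re (𝕜 := ℂ) hint
  rw [h2] at h3
  simp only [hF, ← PK_re] at h3
  exact h3

theorem lint_eq {f : ℝ → ℝ} (hf : Continuous f) (h0 : ∀ θ, 0 ≤ f θ) :
    ∫⁻ θ, ENNReal.ofReal (f θ) ∂mT = ENNReal.ofReal (∫ θ, f θ ∂mT) :=
  (ofReal_integral_eq_lintegral_ofReal (cont_integrable hf) (Eventually.of_forall h0)).symm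

/-- Littlewood's inequality for functions continuous on the closed disc -/
theorem littlewood_cont {ψ : ℂ → ℂ} (hψ : DifferentiableOn ℂ ψ (ball 0 1))
    (hm : MapsTo ψ (ball (0 : ℂ) 1) (ball 0 1)) {f : ℂ → ℂ} (hf : DiffContOnCl ℂ f (ball 0 1))
    {r : ℝ} (h0 : 0 ≤ r) (h1 : r < 1) :
    ∫ θ, ‖f (ψ (circleMap 0 r θ))‖ ^ 2 ∂mT ≤
      (1 + ‖ψ 0‖) / (1 - ‖ψ 0‖) * ∫ t, ‖f (circleMap 0 1 t)‖ ^ 2 ∂mT := by
  have hcl : closure (ball (0 : ℂ) 1) = closedBall 0 1 := closure_ball 0 one_ne_zero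
  have hcb : ∀ θ, circleMap 0 r θ ∈ ball (0 : ℂ) 1 := by
    intro θ
    rw [mem_ball_zero_iff, norm_circleMap_zero, abs_of_nonneg h0]; exact h1
  have hψc : Continuous fun θ => ψ (circleMap 0 r θ) :=
    hψ.continuousOn.comp_continuous (continuous_circleMap 0 _) hcb
  have hψb : ∀ θ, ‖ψ (circleMap 0 r θ)‖ < 1 := fun θ => mem_ball_zero_iff.1 (hm (hcb θ))
  have hfc : Continuous fun θ => f (ψ (circleMap 0 r θ)) :=
    hf.1.continuousOn.comp_continuous hψc (fun θ => hm (hcb θ))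
  have hfc1 : Continuous fun θ => f (circleMap 0 1 θ) := by
    apply hf.2.comp_continuous (continuous_circleMap 0 _)
    intro θ
    rw [hcl]; simp
  have hP0 : ‖ψ 0‖ < 1 := mem_ball_zero_iff.1 (hm (by simp))
  have hc0 : 0 ≤ (1 + ‖ψ 0‖) / (1 - ‖ψ 0‖) := by
    apply div_nonneg (by positivity); linarith
  have key : ∫⁻ θ, ENNReal.ofReal (‖f (ψ (circleMap 0 r θ))‖ ^ 2) ∂mT ≤
      ∫⁻ t, ENNReal.ofReal ((1 + ‖ψ 0‖) / (1 - ‖ψ 0‖) * ‖f (circleMap 0 1 t)‖ ^ 2) ∂mT := by
    calc ∫⁻ θ, ENNReal.ofReal (‖f (ψ (circleMap 0 r θ))‖ ^ 2) ∂mT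
        ≤ ∫⁻ θ, ∫⁻ t, ENNReal.ofReal (PK (ψ (circleMap 0 r θ)) t * ‖f (circleMap 0 1 t)‖ ^ 2)
            ∂mT ∂mT := by
          apply lintegral_mono
          intro θ
          dsimp only
          have hz := hψb θ
          have h2 := poisson_le (f := fun z => f z ^ 2) (by
            constructor
            · exact hf.1.pow 2
            · exact hf.2.pow 2) hz
          simp only [norm_pow] at h2
          rw [lint_eq (f := fun t => PK (ψ (circleMap 0 r θ)) t * ‖f (circleMap 0 1 t)‖ ^ 2)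
            ((PK_cont hz).mul (hfc1.norm.pow 2))
            (fun t => mul_nonneg (PK_pos hz t).le (by positivity))]
          exact ENNReal.ofReal_le_ofReal h2
      _ = ∫⁻ t, ∫⁻ θ, ENNReal.ofReal (PK (ψ (circleMap 0 r θ)) t * ‖f (circleMap 0 1 t)‖ ^ 2)
            ∂mT ∂mT := by
          apply lintegral_lintegral_swap
          apply Measurable.aemeasurable
          apply ENNReal.measurable_ofReal.comp
          apply Continuous.measurable
          have e : (Function.uncurry fun θ t => PK (ψ (circleMap 0 r θ)) t *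
              ‖f (circleMap 0 1 t)‖ ^ 2) = fun p : ℝ × ℝ => PK (ψ (circleMap 0 r p.1)) p.2 *
              ‖f (circleMap 0 1 p.2)‖ ^ 2 := rfl
          show Continuous fun p : ℝ × ℝ => PK (ψ (circleMap 0 r p.1)) p.2 *
              ‖f (circleMap 0 1 p.2)‖ ^ 2
          apply Continuous.mul
          · unfold PK
            have h3 : Continuous fun p : ℝ × ℝ => ψ (circleMap 0 r p.1) :=
                hψc.comp continuous_fst
            apply Continuous.div
            · exact continuous_const.sub (h3.norm.pow 2)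
            · exact (((continuous_circleMap 0 1).comp continuous_snd).sub h3).norm.pow 2
            · intro p
              have := norm_pos_iff.2 (cm_sub_ne (hψb p.1) p.2)
              positivity
          · exact (hfc1.comp continuous_snd).norm.pow 2
      _ ≤ _ := by
          apply lintegral_mono
          intro t
          dsimp only
          have hPc : Continuous fun θ => PK (ψ (circleMap 0 r θ)) t := by
            unfold PK
            apply Continuous.div (continuous_const.sub (hψc.norm.pow 2))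
              ((continuous_const.sub hψc).norm.pow 2)
            intro θ
            exact (pow_pos (norm_pos_iff.2 (cm_sub_ne (hψb θ) t)) 2).ne'
          rw [lint_eq (f := fun θ => PK (ψ (circleMap 0 r θ)) t * ‖f (circleMap 0 1 t)‖ ^ 2)
            (hPc.mul continuous_const)
            (fun θ => mul_nonneg (PK_pos (hψb θ) t).le (by positivity))]
          apply ENNReal.ofReal_le_ofReal
          rw [integral_mul_const, PK_mean hψ hm h0 h1 t]
          gcongr
          exact PK_le hP0 t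
  rw [lint_eq (f := fun θ => ‖f (ψ (circleMap 0 r θ))‖ ^ 2) (hfc.norm.pow 2)
      (fun θ => by positivity),
    lint_eq (f := fun t => (1 + ‖ψ 0‖) / (1 - ‖ψ 0‖) * ‖f (circleMap 0 1 t)‖ ^ 2)
      (continuous_const.mul (hfc1.norm.pow 2)) (fun t => by positivity),
    integral_const_mul] at key
  rwa [ENNReal.ofReal_le_ofReal_iff] at key
  apply mul_nonneg hc0
  exact integral_nonneg fun t => by positivity

theorem dil_diff (f : H2) {s : ℝ} (h0 : 0 ≤ s) (h1 : s < 1) :
    DiffContOnCl ℂ (fun z => ev f (s * z)) (ball 0 1) := by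
  have hd : DifferentiableOn ℂ (fun z => ev f (s * z)) (closedBall 0 1) := by
    have h2 : DifferentiableOn ℂ (fun z : ℂ => (s : ℂ) * z) (closedBall 0 1) := by fun_prop
    refine (ev_diff f).comp h2 ?_
    intro z hz
    rw [mem_closedBall_zero_iff] at hz
    rw [mem_ball_zero_iff, norm_mul, Complex.norm_real, Real.norm_of_nonneg h0]
    calc s * ‖z‖ ≤ s * 1 := by gcongr
      _ < 1 := by linarith
  apply DifferentiableOn.diffContOnCl
  rw [closure_ball (0 : ℂ) one_ne_zero]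
  exact hd

theorem littlewood {ψ : ℂ → ℂ} (hψ : DifferentiableOn ℂ ψ (ball 0 1))
    (hm : MapsTo ψ (ball (0 : ℂ) 1) (ball 0 1)) (f : H2) {r : ℝ} (h0 : 0 ≤ r) (h1 : r < 1) :
    ∫ θ, ‖ev f (ψ (circleMap 0 r θ))‖ ^ 2 ∂mT ≤ (1 + ‖ψ 0‖) / (1 - ‖ψ 0‖) * ‖f‖ ^ 2 := by
  have hcb : ∀ θ, circleMap 0 r θ ∈ ball (0 : ℂ) 1 := by
    intro θ
    rw [mem_ball_zero_iff, norm_circleMap_zero, abs_of_nonneg h0]; exact h1
  have hψc : Continuous fun θ => ψ (circleMap 0 r θ) :=
    hψ.continuousOn.comp_continuous (continuous_circleMap 0 _) hcb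
  have hP0 : ‖ψ 0‖ < 1 := mem_ball_zero_iff.1 (hm (by simp))
  have hc0 : 0 ≤ (1 + ‖ψ 0‖) / (1 - ‖ψ 0‖) := by
    apply div_nonneg (by positivity); linarith
  -- uniform bound of ‖ψ‖ on the circle
  obtain ⟨ρ, hρ1, hρ⟩ : ∃ ρ < 1, ∀ θ, ‖ψ (circleMap 0 r θ)‖ ≤ ρ := by
    have hK : IsCompact (closedBall (0 : ℂ) r) := isCompact_closedBall 0 r
    have hne : (closedBall (0 : ℂ) r).Nonempty := ⟨0, by simp [h0]⟩
    have hsub : closedBall (0 : ℂ) r ⊆ ball 0 1 := closedBall_subset_ball h1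
    obtain ⟨x, hx, hmax⟩ := hK.exists_isMaxOn hne (hψ.continuousOn.mono hsub).norm
    refine ⟨‖ψ x‖, mem_ball_zero_iff.1 (hm (hsub hx)), fun θ => hmax ?_⟩
    rw [mem_closedBall_zero_iff, norm_circleMap_zero, abs_of_nonneg h0]
  have hρ0 : 0 ≤ ρ := (norm_nonneg _).trans (hρ 0)
  have hs : ∀ n : ℕ, ∫ θ, ‖ev f (rad n * ψ (circleMap 0 r θ))‖ ^ 2 ∂mT ≤
      (1 + ‖ψ 0‖) / (1 - ‖ψ 0‖) * ‖f‖ ^ 2 := by
    intro n
    have h2 := littlewood_cont hψ hm (dil_diff f (rad_nonneg n) (rad_lt n)) h0 h1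
    refine h2.trans ?_
    gcongr
    have e : ∀ t, ev f (rad n * circleMap 0 1 t) = ev f (circleMap 0 (rad n) t) := by
      intro t; congr 1; simp [circleMap_zero]
    simp only [e]
    exact ev_circle_le f (rad_nonneg n) (rad_lt n)
  have hlim : Tendsto (fun n : ℕ => ∫ θ, ‖ev f (rad n * ψ (circleMap 0 r θ))‖ ^ 2 ∂mT) atTop
      (𝓝 (∫ θ, ‖ev f (ψ (circleMap 0 r θ))‖ ^ 2 ∂mT)) := by
    have hin : ∀ (n : ℕ) θ, ‖(rad n : ℂ) * ψ (circleMap 0 r θ)‖ ≤ ρ := by
      intro n θ
      rw [norm_mul, Complex.norm_real, Real.norm_of_nonneg (rad_nonneg n)]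
      calc rad n * ‖ψ (circleMap 0 r θ)‖ ≤ 1 * ρ := by
            gcongr
            · exact (rad_lt n).le
            · exact hρ θ
        _ = ρ := one_mul _
    apply tendsto_integral_of_dominated_convergence (fun _ => (‖f‖ * (1 - ρ)⁻¹) ^ 2)
    · intro n
      apply Continuous.aestronglyMeasurable
      have : Continuous fun θ => ev f (rad n * ψ (circleMap 0 r θ)) := by
        apply (ev_diff f).continuousOn.comp_continuous (continuous_const.mul hψc)
        intro θ
        exact mem_ball_zero_iff.2 ((hin n θ).trans_lt hρ1)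
      exact this.norm.pow 2
    · exact integrable_const _
    · intro n
      filter_upwards with θ
      rw [Real.norm_of_nonneg (by positivity)]
      have := ev_norm_le f (hin n θ) hρ1
      gcongr
    · filter_upwards with θ
      have hmem : ψ (circleMap 0 r θ) ∈ ball (0 : ℂ) 1 := hm (hcb θ)
      have hca : ContinuousAt (ev f) (ψ (circleMap 0 r θ)) :=
        ((ev_diff f).differentiableAt (isOpen_ball.mem_nhds hmem)).continuousAt
      have ht : Tendsto (fun n : ℕ => (rad n : ℂ) * ψ (circleMap 0 r θ)) atTop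
          (𝓝 (ψ (circleMap 0 r θ))) := by
        have h3 : Tendsto (fun n : ℕ => ((rad n : ℝ) : ℂ)) atTop (𝓝 ((1 : ℝ) : ℂ)) :=
          (Complex.continuous_ofReal.tendsto 1).comp rad_tendsto
        have := h3.mul_const (ψ (circleMap 0 r θ))
        simpa using this
      exact ((hca.tendsto.comp ht).norm).pow 2
  exact le_of_tendsto hlim (Eventually.of_forall hs)

/-- Littlewood: `C_φ` is a bounded operator on `H²`. -/
theorem exists_comp {φ : ℂ → ℂ} (hφ : DifferentiableOn ℂ φ (ball 0 1))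
    (hm : MapsTo φ (ball (0 : ℂ) 1) (ball 0 1)) :
    ∃ C : H2 →L[ℂ] H2, ∀ f : H2, ∀ z ∈ ball (0 : ℂ) 1, ev (C f) z = ev f (φ z) := by
  have hP0 : ‖φ 0‖ < 1 := mem_ball_zero_iff.1 (hm (by simp))
  set c : ℝ := (1 + ‖φ 0‖) / (1 - ‖φ 0‖) with hc
  have hc0 : 0 ≤ c := by
    rw [hc]; apply div_nonneg (by positivity); linarith
  have hex : ∀ f : H2, ∃ F : H2, (∀ z ∈ ball (0 : ℂ) 1, ev F z = ev f (φ z)) ∧
      ‖F‖ ^ 2 ≤ c * ‖f‖ ^ 2 := by
    intro f
    apply exists_ev (h := fun z => ev f (φ z)) ((ev_diff f).comp hφ hm) (by positivity)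
    intro r h0 h1
    exact littlewood hφ hm f h0 h1
  choose F hF1 hF2 using hex
  refine ⟨LinearMap.mkContinuous
    { toFun := F
      map_add' := fun f g => ?_
      map_smul' := fun a f => ?_ } (Real.sqrt c) (fun f => ?_), fun f z hz => hF1 f z hz⟩
  · apply ev_injective
    intro z hz
    have hz' := mem_ball_zero_iff.1 hz
    rw [ev_add _ _ hz', hF1 _ z hz, hF1 _ z hz, hF1 _ z hz,
      ev_add _ _ (mem_ball_zero_iff.1 (hm hz))]
  · apply ev_injective
    intro z hz
    rw [RingHom.id_apply, ev_smul, hF1 _ z hz, hF1 _ z hz, ev_smul]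
  · show ‖F f‖ ≤ Real.sqrt c * ‖f‖
    rw [← Real.sqrt_sq (norm_nonneg (F f)), ← Real.sqrt_sq (norm_nonneg f), ← Real.sqrt_mul hc0]
    exact Real.sqrt_le_sqrt (hF2 f)

end Pool.Agent.Helper156.Ess
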