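import Mathlib
import Pool.Agent.Helper156.Ess.H2

set_option autoImplicit false

open Complex Metric Set Filter MeasureTheory
open scoped Real Topology ComplexConjugate NNReal ENNReal

namespace Pool.Agent.Helper156.Ess

/-- Blaschke factor with zero `w`. -/
noncomputable def bl (w z : ℂ) : ℂ := (z - w) / (1 - conj w * z)

theorem one_sub_ne {w z : ℂ} (hw : ‖w‖ < 1) (hz : ‖z‖ < 1) : (1 : ℂ) - conj w * z ≠ 0 := by
  intro h
  have h1 : (1 : ℂ) = conj w * z := sub_eq_zero.1 h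
  have h2 : (1 : ℝ) = ‖w‖ * ‖z‖ := by
    have := congrArg norm h1
    simpa using this
  nlinarith [norm_nonneg w, norm_nonneg z]

theorem norm_one_sub_ge {w z : ℂ} (hw : ‖w‖ < 1) (hz : ‖z‖ < 1) :
    1 - ‖w‖ * ‖z‖ ≤ ‖(1 : ℂ) - conj w * z‖ := by
  have := norm_sub_norm_le (1 : ℂ) (conj w * z)
  simpa using this

theorem bl_identity (w z : ℂ) :
    ‖(1 : ℂ) - conj w * z‖ ^ 2 - ‖z - w‖ ^ 2 = (1 - ‖w‖ ^ 2) * (1 - ‖z‖ ^ 2) := by
  simp only [← Complex.normSq_eq_norm_sq, Complex.normSq_apply]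
  simp
  ring

theorem bl_sq {w z : ℂ} (hw : ‖w‖ < 1) (hz : ‖z‖ < 1) :
    1 - ‖bl w z‖ ^ 2 = (1 - ‖w‖ ^ 2) * (1 - ‖z‖ ^ 2) / ‖(1 : ℂ) - conj w * z‖ ^ 2 := by
  have h := norm_pos_iff.2 (one_sub_ne hw hz)
  rw [bl, norm_div, div_pow, ← bl_identity w z, eq_div_iff (pow_pos h 2).ne', sub_mul,
    div_mul_cancel₀ _ (pow_pos h 2).ne', one_mul]

theorem bl_norm_lt {w z : ℂ} (hw : ‖w‖ < 1) (hz : ‖z‖ < 1) : ‖bl w z‖ < 1 := by
  have h := norm_pos_iff.2 (one_sub_ne hw hz)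
  have h1 := bl_sq hw hz
  have h2 : 0 < (1 - ‖w‖ ^ 2) * (1 - ‖z‖ ^ 2) / ‖(1 : ℂ) - conj w * z‖ ^ 2 := by
    apply div_pos (mul_pos _ _) (by positivity)
    · nlinarith [norm_nonneg w]
    · nlinarith [norm_nonneg z]
  nlinarith [norm_nonneg (bl w z)]

theorem bl_self (w : ℂ) : bl w w = 0 := by simp [bl]

theorem bl_symm {w z : ℂ} (_hw : ‖w‖ < 1) (_hz : ‖z‖ < 1) : ‖bl w z‖ = ‖bl z w‖ := by
  rw [bl, bl, norm_div, norm_div, norm_sub_rev z w]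
  congr 1
  have : (1 : ℂ) - conj z * w = conj (1 - conj w * z) := by
    simp [mul_comm]
  rw [this, RCLike.norm_conj]

theorem bl_far {w v : ℂ} (hw : ‖w‖ < 1) (hv : ‖v‖ < 1) :
    1 - ‖bl w v‖ ≤ 4 * (1 - ‖w‖) / (1 - ‖v‖) := by
  have h1 := bl_sq hw hv
  have h2 := bl_norm_lt hw hv
  have hb0 := norm_nonneg (bl w v)
  have h3 := norm_one_sub_ge hw hv
  have hv' : 0 < 1 - ‖v‖ := by linarith
  have hw0 := norm_nonneg w
  have hv0 := norm_nonneg v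
  have h4 : 1 - ‖v‖ ≤ ‖(1 : ℂ) - conj w * v‖ := by nlinarith
  calc 1 - ‖bl w v‖ ≤ 1 - ‖bl w v‖ ^ 2 := by nlinarith
    _ = (1 - ‖w‖ ^ 2) * (1 - ‖v‖ ^ 2) / ‖(1 : ℂ) - conj w * v‖ ^ 2 := h1
    _ ≤ (2 * (1 - ‖w‖)) * (2 * (1 - ‖v‖)) / (1 - ‖v‖) ^ 2 := by
        have e1 : 1 - ‖w‖ ^ 2 ≤ 2 * (1 - ‖w‖) := by nlinarith
        have e2 : 1 - ‖v‖ ^ 2 ≤ 2 * (1 - ‖v‖) := by nlinarith
        have e3 : 0 ≤ 1 - ‖v‖ ^ 2 := by nlinarith
        have e4 : 0 ≤ 2 * (1 - ‖w‖) := by linarith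
        gcongr
    _ = 4 * (1 - ‖w‖) / (1 - ‖v‖) := by
        field_simp
        ring

theorem bl_min {w v : ℂ} (hw : ‖w‖ < 1) (hv : ‖v‖ < 1) {x : ℝ} (hx : 1 < x)
    (h : x * (1 - ‖w‖) ≤ 1 - ‖v‖) : (x - 1) / (x + 1) ≤ ‖bl w v‖ := by
  have h1 := bl_sq hw hv
  have h3 := norm_one_sub_ge hw hv
  have hw0 := norm_nonneg w
  have hv0 := norm_nonneg v
  have hac : 0 < 1 - ‖w‖ * ‖v‖ := by nlinarith
  have hge : ‖v‖ ≤ ‖w‖ := by nlinarith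
  have h5 : (x - 1) / (x + 1) ≤ (‖w‖ - ‖v‖) / (1 - ‖w‖ * ‖v‖) := by
    rw [div_le_div_iff₀ (by linarith) hac]
    nlinarith [mul_nonneg (mul_nonneg (sub_nonneg.2 hw.le) (sub_nonneg.2 hv.le))
      (by linarith : (0 : ℝ) ≤ x - 1)]
  refine h5.trans ?_
  have h6 : ((‖w‖ - ‖v‖) / (1 - ‖w‖ * ‖v‖)) ^ 2 ≤ ‖bl w v‖ ^ 2 := by
    have e1 : (1 - ‖w‖ ^ 2) * (1 - ‖v‖ ^ 2) / ‖(1 : ℂ) - conj w * v‖ ^ 2 ≤
        (1 - ‖w‖ ^ 2) * (1 - ‖v‖ ^ 2) / (1 - ‖w‖ * ‖v‖) ^ 2 := by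
      have e2 : 0 ≤ (1 - ‖w‖ ^ 2) * (1 - ‖v‖ ^ 2) := by
        apply mul_nonneg <;> nlinarith
      gcongr
    have e3 : ((‖w‖ - ‖v‖) / (1 - ‖w‖ * ‖v‖)) ^ 2 =
        1 - (1 - ‖w‖ ^ 2) * (1 - ‖v‖ ^ 2) / (1 - ‖w‖ * ‖v‖) ^ 2 := by
      rw [div_pow]
      field_simp
      ring
    rw [e3]
    linarith
  exact (pow_le_pow_iff_left₀ (div_nonneg (by linarith) hac.le) (norm_nonneg _) two_ne_zero).1 h6

theorem bl_sep {w v : ℂ} (hw : ‖w‖ < 1) (hv : ‖v‖ < 1) {c : ℝ} (hc : 0 < c)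
    (h : c * (1 - ‖w‖) ≤ ‖w - v‖) : c / (2 + c) ≤ ‖bl w v‖ := by
  have hw0 := norm_nonneg w
  have hpos := norm_pos_iff.2 (one_sub_ne hw hv)
  have h1 : ‖(1 : ℂ) - conj w * v‖ ≤ 2 * (1 - ‖w‖) + ‖w - v‖ := by
    have e : (1 : ℂ) - conj w * v = ((1 - ‖w‖ ^ 2 : ℝ) : ℂ) + conj w * (w - v) := by
      have : conj w * w = ((‖w‖ ^ 2 : ℝ) : ℂ) := by
        rw [mul_comm, Complex.mul_conj, Complex.normSq_eq_norm_sq]
      rw [mul_sub, this]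
      push_cast
      ring
    rw [e]
    refine (norm_add_le _ _).trans ?_
    rw [norm_mul, RCLike.norm_conj, Complex.norm_real, Real.norm_of_nonneg (by nlinarith)]
    nlinarith [norm_nonneg (w - v)]
  rw [bl, norm_div, norm_sub_rev v w, div_le_div_iff₀ (by linarith) hpos]
  nlinarith [norm_nonneg (w - v)]

theorem bl_diff {w : ℂ} (hw : ‖w‖ < 1) : DifferentiableOn ℂ (bl w) (ball 0 1) := by
  intro z hz
  have := one_sub_ne hw (mem_ball_zero_iff.1 hz)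
  unfold bl
  apply DifferentiableAt.differentiableWithinAt
  fun_prop (disch := assumption)

theorem bl_maps {w : ℂ} (hw : ‖w‖ < 1) : MapsTo (bl w) (ball (0 : ℂ) 1) (ball 0 1) := fun z hz =>
  mem_ball_zero_iff.2 (bl_norm_lt hw (mem_ball_zero_iff.1 hz))

/-- Lower bound for products. -/
theorem prod_lower {ι : Type*} (s : Finset ι) (x : ι → ℝ) {x₀ : ℝ} (hx₀ : 0 < x₀)
    (h : ∀ i ∈ s, x₀ ≤ x i) (h1 : ∀ i ∈ s, x i ≤ 1) :
    Real.exp (-(∑ i ∈ s, (1 - x i)) / x₀) ≤ ∏ i ∈ s, x i := by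
  have e : Real.exp (-(∑ i ∈ s, (1 - x i)) / x₀) = ∏ i ∈ s, Real.exp (-(1 - x i) / x₀) := by
    rw [← Real.exp_sum]
    congr 1
    rw [← Finset.sum_div, Finset.sum_neg_distrib]
  rw [e]
  apply Finset.prod_le_prod
  · intro i _; positivity
  · intro i hi
    have hxi := h i hi
    have hpos : 0 < x i := hx₀.trans_le hxi
    have h2 : 1 - 1 / x i ≤ Real.log (x i) := by
      have := Real.one_sub_inv_le_log_of_pos hpos
      simpa using this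
    calc Real.exp (-(1 - x i) / x₀) ≤ Real.exp (Real.log (x i)) := by
          apply Real.exp_le_exp.2
          refine le_trans ?_ h2
          have h3 : (1 - x i) / x i ≤ (1 - x i) / x₀ := by
            have := h1 i hi
            apply div_le_div_of_nonneg_left _ hx₀ hxi
            linarith
          have h4 : 1 - 1 / x i = -((1 - x i) / x i) := by
            field_simp
            ring
          rw [h4, neg_div]
          linarith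
      _ = x i := Real.exp_log hpos

end Pool.Agent.Helper156.Ess
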