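import Mathlib
import Pool.Agent.Helper156.Ess.H2

set_option autoImplicit false

open Complex Metric Set Filter MeasureTheory
open scoped Real Topology ComplexConjugate NNReal ENNReal

namespace Pool.Agent.Helper156.Ess

namespace BlAux

theorem sq_le_aux {a b : ℝ} (h : a ^ 2 ≤ b ^ 2) (hb : 0 ≤ b) : a ≤ b := by
  nlinarith [abs_le_of_sq_le_sq' h hb]

theorem integrable_mT {φ : ℝ → ℝ} (h : Continuous φ) : Integrable φ mT := by
  unfold mT
  refine Integrable.smul_measure h.integrableOn_Ioc ?_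
  exact ENNReal.inv_ne_top.2 ofReal_two_pi_ne_zero

theorem circle_mem {r : ℝ} (h0 : 0 ≤ r) (h1 : r < 1) (θ : ℝ) :
    circleMap 0 r θ ∈ ball (0 : ℂ) 1 := by
  rw [mem_ball_zero_iff, norm_circleMap_zero, abs_of_nonneg h0]
  exact h1

theorem cont_sq {h : ℂ → ℂ} (hh : DifferentiableOn ℂ h (ball 0 1)) {r : ℝ} (h0 : 0 ≤ r)
    (h1 : r < 1) : Continuous fun θ => ‖h (circleMap 0 r θ)‖ ^ 2 :=
  ((hh.continuousOn.comp_continuous (continuous_circleMap 0 r)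
    (fun θ => circle_mem h0 h1 θ)).norm).pow 2

theorem quot_ineq {z z₀ : ℂ} {r : ℝ} (hr : ‖z‖ = r) (h1 : r < 1) (h2 : ‖z₀‖ < r) :
    (r - ‖z₀‖) * ‖1 - conj z₀ * z‖ ≤ ‖z - z₀‖ * (1 - r * ‖z₀‖) := by
  set a := ‖z₀‖ with ha
  have ha0 : 0 ≤ a := norm_nonneg _
  have hr0 : 0 < r := ha0.trans_lt h2
  have hra : r * a < 1 := by nlinarith
  set t : ℝ := (z * conj z₀).re with ht
  have htle : t ≤ r * a := by
    refine (Complex.re_le_norm _).trans (le_of_eq ?_)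
    rw [norm_mul, Complex.norm_conj, hr]
  have e1 : ‖z - z₀‖ ^ 2 = r ^ 2 + a ^ 2 - 2 * t := by
    rw [← Complex.normSq_eq_norm_sq, Complex.normSq_sub, Complex.normSq_eq_norm_sq,
      Complex.normSq_eq_norm_sq, hr]
  have e2 : ‖1 - conj z₀ * z‖ ^ 2 = 1 + a ^ 2 * r ^ 2 - 2 * t := by
    rw [← Complex.normSq_eq_norm_sq, Complex.normSq_sub, Complex.normSq_one,
      Complex.normSq_eq_norm_sq, norm_mul, Complex.norm_conj, hr, mul_pow]
    have : ((1 : ℂ) * conj (conj z₀ * z)).re = t := by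
      rw [one_mul, Complex.conj_re, ht, mul_comm]
    rw [this]
  apply sq_le_aux ?_ (by
    have : 0 ≤ 1 - r * a := by linarith
    positivity)
  rw [mul_pow, mul_pow, e1, e2]
  nlinarith [mul_nonneg (sub_nonneg.2 htle) (mul_nonneg (by nlinarith : 0 ≤ 1 - r ^ 2)
    (by nlinarith : 0 ≤ 1 - a ^ 2))]

end BlAux

open BlAux in
/-- Division by a Blaschke factor does not increase the norm. -/
theorem div_factor (f : H2) {z₀ : ℂ} (hz₀ : ‖z₀‖ < 1) (h : ev f z₀ = 0) :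
    ∃ g : H2, (∀ z ∈ ball (0 : ℂ) 1, ev f z * (1 - conj z₀ * z) = (z - z₀) * ev g z) ∧
      ‖g‖ ≤ ‖f‖ := by
  set a := ‖z₀‖ with ha
  have ha0 : 0 ≤ a := norm_nonneg _
  set H : ℂ → ℂ := fun z => dslope (ev f) z₀ z * (1 - conj z₀ * z) with hH
  have hHd : DifferentiableOn ℂ H (ball 0 1) := by
    refine DifferentiableOn.mul ?_ (by fun_prop)
    exact (Complex.differentiableOn_dslope (isOpen_ball.mem_nhds (mem_ball_zero_iff.2 hz₀))).2
      (ev_diff f)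
  have hrel : ∀ z, ev f z * (1 - conj z₀ * z) = (z - z₀) * H z := by
    intro z
    have h1 := sub_smul_dslope (ev f) z₀ z
    rw [h, sub_zero, smul_eq_mul] at h1
    simp only [hH]
    rw [← mul_assoc, h1]
  have hkey : ∀ z : ℂ, a < ‖z‖ → ‖z‖ < 1 → (‖z‖ - a) * ‖H z‖ ≤ (1 - ‖z‖ * a) * ‖ev f z‖ := by
    intro z hz1 hz2
    have h1 := quot_ineq (z := z) (z₀ := z₀) rfl hz2 hz1
    have h2 := congrArg norm (hrel z)
    rw [norm_mul, norm_mul] at h2
    have hz0 : 0 < ‖z - z₀‖ := by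
      rw [norm_pos_iff, sub_ne_zero]
      rintro rfl
      exact lt_irrefl _ hz1
    have h3 : ((‖z‖ - a) * ‖H z‖) * ‖z - z₀‖ ≤ ((1 - ‖z‖ * a) * ‖ev f z‖) * ‖z - z₀‖ := by
      calc ((‖z‖ - a) * ‖H z‖) * ‖z - z₀‖ = (‖z‖ - a) * (‖z - z₀‖ * ‖H z‖) := by ring
        _ = ((‖z‖ - a) * ‖1 - conj z₀ * z‖) * ‖ev f z‖ := by rw [← h2]; ring
        _ ≤ (‖z - z₀‖ * (1 - ‖z‖ * a)) * ‖ev f z‖ :=
            mul_le_mul_of_nonneg_right h1 (norm_nonneg _)
        _ = _ := by ring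
    exact le_of_mul_le_mul_right h3 hz0
  -- circle means
  have hmean : ∀ r : ℝ, a < r → r < 1 →
      ∫ θ : ℝ, ‖H (circleMap 0 r θ)‖ ^ 2 ∂mT ≤ ((1 - r * a) / (r - a)) ^ 2 * ‖f‖ ^ 2 := by
    intro r h0 h1
    have hr0 : 0 ≤ r := ha0.trans h0.le
    have hle : ∀ θ : ℝ, ‖H (circleMap 0 r θ)‖ ^ 2 ≤
        ((1 - r * a) / (r - a)) ^ 2 * ‖ev f (circleMap 0 r θ)‖ ^ 2 := by
      intro θ
      have hn : ‖circleMap 0 r θ‖ = r := by rw [norm_circleMap_zero, abs_of_nonneg hr0]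
      have h2 := hkey (circleMap 0 r θ) (by rw [hn]; exact h0) (by rw [hn]; exact h1)
      rw [hn] at h2
      rw [← mul_pow]
      apply pow_le_pow_left₀ (norm_nonneg _)
      rw [div_mul_eq_mul_div, le_div_iff₀ (by linarith)]
      linarith
    calc ∫ θ : ℝ, ‖H (circleMap 0 r θ)‖ ^ 2 ∂mT
        ≤ ∫ θ : ℝ, ((1 - r * a) / (r - a)) ^ 2 * ‖ev f (circleMap 0 r θ)‖ ^ 2 ∂mT :=
          integral_mono (integrable_mT (cont_sq hHd hr0 h1))
            ((integrable_mT (cont_sq (ev_diff f) hr0 h1)).const_mul _) hle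
      _ = ((1 - r * a) / (r - a)) ^ 2 * ∫ θ : ℝ, ‖ev f (circleMap 0 r θ)‖ ^ 2 ∂mT :=
          integral_const_mul _ _
      _ ≤ _ := mul_le_mul_of_nonneg_left (ev_circle_le f hr0 h1) (by positivity)
  set r1 : ℝ := (1 + a) / 2 with hr1
  have hr1a : a < r1 := by rw [hr1]; linarith
  have hr11 : r1 < 1 := by rw [hr1]; linarith
  obtain ⟨M, hM⟩ := (isCompact_closedBall (0 : ℂ) r1).exists_bound_of_continuousOn
    (hHd.continuousOn.mono (closedBall_subset_ball hr11))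
  set c1 : ℝ := (1 - r1 * a) / (r1 - a) with hc1
  have hb : ∀ r : ℝ, 0 ≤ r → r < 1 →
      ∫ θ : ℝ, ‖H (circleMap 0 r θ)‖ ^ 2 ∂mT ≤ M ^ 2 + c1 ^ 2 * ‖f‖ ^ 2 := by
    intro r h0 h1
    rcases le_total r r1 with hle | hle
    · have : ∫ θ : ℝ, ‖H (circleMap 0 r θ)‖ ^ 2 ∂mT ≤ ∫ _θ : ℝ, M ^ 2 ∂mT := by
        refine integral_mono (integrable_mT (cont_sq hHd h0 h1)) (integrable_const _) fun θ => ?_
        apply pow_le_pow_left₀ (norm_nonneg _)
        apply hM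
        rw [mem_closedBall_zero_iff, norm_circleMap_zero, abs_of_nonneg h0]
        exact hle
      rw [integral_const, probReal_univ, one_smul] at this
      have h2 : 0 ≤ c1 ^ 2 * ‖f‖ ^ 2 := by positivity
      linarith
    · have h2 := hmean r (hr1a.trans_le hle) h1
      have h3 : (1 - r * a) / (r - a) ≤ c1 := by
        rw [hc1, div_le_div_iff₀ (by linarith) (by linarith)]
        nlinarith [mul_nonneg (sub_nonneg.2 hle) (by nlinarith : 0 ≤ 1 - a ^ 2)]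
      have h4 : 0 ≤ (1 - r * a) / (r - a) := by
        apply div_nonneg
        · nlinarith
        · linarith
      have h5 : ((1 - r * a) / (r - a)) ^ 2 * ‖f‖ ^ 2 ≤ c1 ^ 2 * ‖f‖ ^ 2 :=
        mul_le_mul_of_nonneg_right (pow_le_pow_left₀ h4 h3 2) (by positivity)
      have h6 : 0 ≤ M ^ 2 := by positivity
      linarith
  obtain ⟨g, hg, -⟩ := exists_ev hHd (by positivity) hb
  refine ⟨g, fun z hz => by rw [hg z hz]; exact hrel z, ?_⟩
  have hlim := ev_circle_tendsto g rad_nonneg rad_lt rad_tendsto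
  have hev : ∀ᶠ n in atTop, ∫ θ : ℝ, ‖ev g (circleMap 0 (rad n) θ)‖ ^ 2 ∂mT ≤
      ((1 - rad n * a) / (rad n - a)) ^ 2 * ‖f‖ ^ 2 := by
    have h1 : ∀ᶠ n in atTop, a < rad n := rad_tendsto.eventually (lt_mem_nhds hz₀)
    filter_upwards [h1] with n hn
    have h2 := hmean (rad n) hn (rad_lt n)
    refine le_trans (le_of_eq ?_) h2
    congr 1
    funext θ
    rw [hg _ (circle_mem (rad_nonneg n) (rad_lt n) θ)]
  have hlim2 : Tendsto (fun n => ((1 - rad n * a) / (rad n - a)) ^ 2 * ‖f‖ ^ 2) atTop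
      (𝓝 (((1 - 1 * a) / (1 - a)) ^ 2 * ‖f‖ ^ 2)) := by
    refine ((Tendsto.div ?_ ?_ (by linarith)).pow 2).mul_const _
    · exact (rad_tendsto.mul_const a).const_sub 1
    · exact rad_tendsto.sub_const a
  have h3 := le_of_tendsto_of_tendsto hlim hlim2 hev
  have h4 : (1 - 1 * a) / (1 - a) = 1 := by
    rw [one_mul]
    exact div_self (by linarith)
  rw [h4, one_pow, one_mul] at h3
  exact BlAux.sq_le_aux h3 (norm_nonneg _)

theorem ev_zero_eq (f : H2) : ev f 0 = f 0 := by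
  unfold ev
  rw [tsum_eq_single 0]
  · simp
  · intro n hn
    rw [zero_pow hn, mul_zero]

/-- If `f` vanishes at the points of `F` then `|f(0)| ≤ (∏ |z|) ‖f‖`. -/
theorem prod_bound (f : H2) (F : Finset ℂ) (hF : ∀ z ∈ F, ‖z‖ < 1 ∧ ev f z = 0) :
    ‖ev f 0‖ ≤ (∏ z ∈ F, ‖z‖) * ‖f‖ := by
  classical
  induction F using Finset.induction_on generalizing f with
  | empty =>
    rw [Finset.prod_empty, one_mul, ev_zero_eq]
    exact coef_le f 0
  | insert z₀ F hz ih =>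
    obtain ⟨h1, h2⟩ := hF z₀ (Finset.mem_insert_self _ _)
    obtain ⟨g, hg, hn⟩ := div_factor f h1 h2
    have h3 : ‖ev g 0‖ ≤ (∏ z ∈ F, ‖z‖) * ‖g‖ := by
      apply ih
      intro z hzF
      obtain ⟨h4, h5⟩ := hF z (Finset.mem_insert_of_mem hzF)
      refine ⟨h4, ?_⟩
      have h6 := hg z (mem_ball_zero_iff.2 h4)
      rw [h5, zero_mul] at h6
      rcases mul_eq_zero.1 h6.symm with h7 | h7
      · exfalso
        apply hz
        rw [← sub_eq_zero.1 h7]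
        exact hzF
      · exact h7
    have h4 := hg 0 (mem_ball_zero_iff.2 (by simp))
    rw [mul_zero, sub_zero, mul_one, zero_sub] at h4
    rw [h4, norm_mul, norm_neg, Finset.prod_insert hz, mul_assoc]
    apply mul_le_mul_of_nonneg_left _ (norm_nonneg _)
    refine h3.trans (mul_le_mul_of_nonneg_left hn ?_)
    exact Finset.prod_nonneg fun _ _ => norm_nonneg _

theorem norm_sq_split (f : H2) : ‖f‖ ^ 2 = ‖f 0‖ ^ 2 + ∑' n, ‖f (n + 1)‖ ^ 2 := by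
  rw [norm_sq]
  exact (sq_summable f).tsum_eq_zero_add

/-- If `f` is constant, equal to `c`, on `F` then `|c|² (1 - ∏ |z|²) ≤ ‖f‖²`. -/
theorem const_bound (f : H2) (F : Finset ℂ) (c : ℂ) (hF : ∀ z ∈ F, ‖z‖ < 1 ∧ ev f z = c) :
    ‖c‖ ^ 2 * (1 - (∏ z ∈ F, ‖z‖) ^ 2) ≤ ‖f‖ ^ 2 := by
  classical
  set e0 : H2 := lp.single 2 0 (1 : ℂ) with he0
  have h0 : e0 0 = 1 := by
    rw [he0, lp.single_apply_self]
  have h1 : ∀ n, e0 (n + 1) = 0 := by
    intro n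
    rw [he0, lp.single_apply_ne _ _ _ (Nat.succ_ne_zero n)]
  have hev : ∀ z, ev e0 z = 1 := by
    intro z
    unfold ev
    rw [tsum_eq_single 0]
    · rw [h0]; simp
    · intro n hn
      obtain ⟨k, rfl⟩ := Nat.exists_eq_succ_of_ne_zero hn
      rw [h1, zero_mul]
  set v : H2 := f - c • e0 with hv
  have hv0 : v 0 = f 0 - c := by
    rw [hv, lp.coeFn_sub, Pi.sub_apply, lp.coeFn_smul, Pi.smul_apply, h0, smul_eq_mul, mul_one]
  have hv1 : ∀ n, v (n + 1) = f (n + 1) := by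
    intro n
    rw [hv, lp.coeFn_sub, Pi.sub_apply, lp.coeFn_smul, Pi.smul_apply, h1, smul_zero, sub_zero]
  set β : ℝ := ∏ z ∈ F, ‖z‖ with hβ
  have hβ0 : 0 ≤ β := Finset.prod_nonneg fun _ _ => norm_nonneg _
  have hβ1 : β ≤ 1 := Finset.prod_le_one (fun _ _ => norm_nonneg _) fun z hz => (hF z hz).1.le
  have hb := prod_bound v F (fun z hz => by
    obtain ⟨h2, h3⟩ := hF z hz
    refine ⟨h2, ?_⟩
    rw [hv, ev_sub _ _ h2, ev_smul, hev, h3, mul_one, sub_self])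
  rw [ev_zero_eq, hv0, ← hβ] at hb
  have n1 := norm_sq_split f
  have n2 := norm_sq_split v
  rw [hv0] at n2
  simp only [hv1] at n2
  set S : ℝ := ∑' n, ‖f (n + 1)‖ ^ 2 with hS
  have hS0 : 0 ≤ S := tsum_nonneg fun n => by positivity
  set x : ℝ := ‖f 0‖ with hx
  set y : ℝ := ‖f 0 - c‖ with hy
  have hx0 : 0 ≤ x := norm_nonneg _
  have hy0 : 0 ≤ y := norm_nonneg _
  have hcxy : ‖c‖ ≤ x + y := by
    have : c = f 0 - (f 0 - c) := by ring
    calc ‖c‖ = ‖f 0 - (f 0 - c)‖ := by rw [← this]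
      _ ≤ x + y := norm_sub_le _ _
  have hsq : y ^ 2 ≤ β ^ 2 * (y ^ 2 + S) := by
    rw [← n2, ← mul_pow]
    exact pow_le_pow_left₀ hy0 hb 2
  have hc2 : ‖c‖ ^ 2 ≤ (x + y) ^ 2 := pow_le_pow_left₀ (norm_nonneg _) hcxy 2
  have hβ2 : 0 ≤ 1 - β ^ 2 := by nlinarith
  have h5 : ‖c‖ ^ 2 * (1 - β ^ 2) ≤ (x + y) ^ 2 * (1 - β ^ 2) :=
    mul_le_mul_of_nonneg_right hc2 hβ2
  refine h5.trans ?_
  rw [n1]
  rcases hβ0.eq_or_lt with h6 | h6
  · rw [← h6] at hsq ⊢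
    have : y = 0 := by nlinarith
    rw [this]
    nlinarith
  · have h7 : β ^ 2 * ((x + y) ^ 2 * (1 - β ^ 2)) ≤ β ^ 2 * (x ^ 2 + S) := by
      nlinarith [sq_nonneg (β ^ 2 * x - (1 - β ^ 2) * y)]
    exact le_of_mul_le_mul_left h7 (by positivity)

end Pool.Agent.Helper156.Ess
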