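import Mathlib

set_option autoImplicit false

open Complex Metric Set Filter MeasureTheory
open scoped Real Topology ComplexConjugate NNReal ENNReal

namespace Pool.Agent.Helper156.Ess

theorem ns_id (α g : ℂ) : Complex.normSq (1 - conj α * g) - Complex.normSq (g - α) =
    (1 - Complex.normSq α) * (1 - Complex.normSq g) := by
  simp only [Complex.normSq_apply, Complex.sub_re, Complex.sub_im, Complex.mul_re, Complex.mul_im,
    Complex.conj_re, Complex.conj_im, Complex.one_re, Complex.one_im]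
  ring

/-- Quantitative Schwarz lemma. -/
theorem schwarz_consts {φ : ℂ → ℂ} (hφ : DifferentiableOn ℂ φ (ball 0 1))
    (hm : MapsTo φ (ball (0 : ℂ) 1) (ball 0 1)) (h0 : φ 0 = 0) (hd : ‖deriv φ 0‖ < 1) :
    ∃ q η : ℝ, 0 < q ∧ q < 1 ∧ 1 < η ∧ (∀ z : ℂ, ‖z‖ ≤ 1 / 2 → ‖φ z‖ ≤ q * ‖z‖) ∧
      ∀ z : ℂ, 1 / 2 ≤ ‖z‖ → ‖z‖ < 1 → η * (1 - ‖z‖) ≤ 1 - ‖φ z‖ := by
  set α := deriv φ 0 with hα
  set a := ‖α‖ with ha
  have ha0 : 0 ≤ a := norm_nonneg _
  let g : ℂ → ℂ := dslope φ 0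
  have hg0 : g 0 = α := dslope_same φ 0
  have hgd : DifferentiableOn ℂ g (ball 0 1) :=
    (Complex.differentiableOn_dslope (ball_mem_nhds 0 one_pos)).2 hφ
  have hgle : ∀ z ∈ ball (0:ℂ) 1, ‖g z‖ ≤ 1 := by
    intro z hz
    have := Complex.norm_dslope_le_div_of_mapsTo_ball (R₂ := 1) hφ
      (by rw [h0]; exact hm.mono_right ball_subset_closedBall) hz
    simpa using this
  have hglt : ∀ z ∈ ball (0:ℂ) 1, ‖g z‖ < 1 := by
    intro z hz
    refine lt_of_le_of_ne (hgle z hz) fun heq => ?_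
    have hmax : IsMaxOn (norm ∘ g) (ball 0 1) z := by
      intro y hy
      show ‖g y‖ ≤ ‖g z‖
      rw [heq]
      exact hgle y hy
    have := Complex.norm_eqOn_of_isPreconnected_of_isMaxOn (convex_ball (0:ℂ) 1).isPreconnected
      isOpen_ball hgd hz hmax (mem_ball_self one_pos)
    have h1 : ‖g 0‖ = ‖g z‖ := this
    rw [hg0, heq] at h1
    linarith
  -- Schwarz-Pick
  have hne : ∀ z ∈ ball (0:ℂ) 1, 1 - conj α * g z ≠ 0 := by
    intro z hz h
    have h1 : conj α * g z = 1 := (sub_eq_zero.1 h).symm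
    have h2 : ‖conj α * g z‖ = 1 := by rw [h1, norm_one]
    rw [norm_mul, RCLike.norm_conj] at h2
    have h3 := hglt z hz
    nlinarith [norm_nonneg (g z), norm_nonneg α]
  have hns : ∀ z ∈ ball (0:ℂ) 1, ‖g z - α‖ ^ 2 = ‖1 - conj α * g z‖ ^ 2 -
      (1 - a ^ 2) * (1 - ‖g z‖ ^ 2) := by
    intro z _
    have := ns_id α (g z)
    rw [Complex.normSq_eq_norm_sq, Complex.normSq_eq_norm_sq, Complex.normSq_eq_norm_sq,
      Complex.normSq_eq_norm_sq] at this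
    rw [← ha] at this
    linarith
  let h : ℂ → ℂ := fun z => (g z - α) / (1 - conj α * g z)
  have hhd : DifferentiableOn ℂ h (ball 0 1) :=
    (hgd.sub_const α).div ((differentiableOn_const 1).sub (hgd.const_mul _)) hne
  have hh0 : h 0 = 0 := by simp [h, hg0]
  have hhm : MapsTo h (ball 0 1) (ball (h 0) 1) := by
    intro z hz
    rw [hh0, mem_ball_zero_iff]
    show ‖(g z - α) / (1 - conj α * g z)‖ < 1
    have hpos : 0 < ‖1 - conj α * g z‖ := norm_pos_iff.2 (hne z hz)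
    rw [norm_div, div_lt_one hpos]
    have h1 := hns z hz
    have h2 := hglt z hz
    have h3 : 0 < (1 - a ^ 2) * (1 - ‖g z‖ ^ 2) := by
      apply mul_pos
      · nlinarith
      · nlinarith [norm_nonneg (g z)]
    exact lt_of_pow_lt_pow_left₀ 2 hpos.le (by linarith)
  have hhle : ∀ z ∈ ball (0:ℂ) 1, ‖h z‖ ≤ ‖z‖ := by
    intro z hz
    have := Complex.dist_le_dist_of_mapsTo_ball hhd
      (by exact hhm.mono_right ball_subset_closedBall) hz
    simpa [hh0] using this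
  have hkey : ∀ z ∈ ball (0:ℂ) 1, ‖g z‖ * (1 + a * ‖z‖) ≤ ‖z‖ + a := by
    intro z hz
    set t := ‖z‖ with ht
    set x := ‖g z‖ with hx
    have ht0 : 0 ≤ t := norm_nonneg _
    have hx0 : 0 ≤ x := norm_nonneg _
    have ht1 : t < 1 := by simpa using hz
    have hx1 : x < 1 := hglt z hz
    have hpos : 0 < ‖1 - conj α * g z‖ := norm_pos_iff.2 (hne z hz)
    have h1 : ‖g z - α‖ ≤ t * ‖1 - conj α * g z‖ := by
      have := hhle z hz
      change ‖(g z - α) / (1 - conj α * g z)‖ ≤ t at this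
      rwa [norm_div, div_le_iff₀ hpos] at this
    have h2 : ‖g z - α‖ ^ 2 ≤ t ^ 2 * ‖1 - conj α * g z‖ ^ 2 := by
      rw [← mul_pow]
      exact pow_le_pow_left₀ (norm_nonneg _) h1 2
    rw [hns z hz] at h2
    have h3 : 1 - a * x ≤ ‖1 - conj α * g z‖ := by
      have := norm_sub_norm_le (1:ℂ) (conj α * g z)
      rw [norm_one, norm_mul, RCLike.norm_conj] at this
      exact this
    have h4 : 0 < 1 - a * x := by nlinarith
    have h5 : (1 - a * x) ^ 2 ≤ ‖1 - conj α * g z‖ ^ 2 := pow_le_pow_left₀ h4.le h3 2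
    have h6 : (x - a) ^ 2 ≤ (t * (1 - a * x)) ^ 2 := by
      have h7 : (1 - t ^ 2) * (1 - a * x) ^ 2 ≤ (1 - t ^ 2) * ‖1 - conj α * g z‖ ^ 2 :=
        mul_le_mul_of_nonneg_left h5 (by nlinarith)
      nlinarith
    have h8 : x - a ≤ t * (1 - a * x) :=
      (le_abs_self _).trans (abs_le_of_sq_le_sq h6 (by positivity))
    nlinarith
  have hφg : ∀ z ∈ ball (0:ℂ) 1, ‖φ z‖ = ‖z‖ * ‖g z‖ := by
    intro z hz
    have := sub_smul_dslope φ 0 z
    rw [sub_zero, h0, sub_zero] at this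
    rw [← this, norm_smul]
  have hmain : ∀ z ∈ ball (0:ℂ) 1, ‖φ z‖ * (1 + a * ‖z‖) ≤ ‖z‖ * (‖z‖ + a) := by
    intro z hz
    rw [hφg z hz]
    calc ‖z‖ * ‖g z‖ * (1 + a * ‖z‖) = ‖z‖ * (‖g z‖ * (1 + a * ‖z‖)) := by ring
      _ ≤ _ := mul_le_mul_of_nonneg_left (hkey z hz) (norm_nonneg _)
  refine ⟨(1 / 2 + a) / (1 + a / 2), 3 / (2 + a), by positivity, ?_, ?_, ?_, ?_⟩
  · rw [div_lt_one (by positivity)]
    linarith
  · rw [lt_div_iff₀ (by positivity)]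
    linarith
  · intro z hz
    have hzb : z ∈ ball (0:ℂ) 1 := by
      rw [mem_ball_zero_iff]
      linarith
    have h1 := hmain z hzb
    have ht0 : 0 ≤ ‖z‖ := norm_nonneg _
    have h2 : ‖z‖ * (‖z‖ + a) ≤ ((1 / 2 + a) / (1 + a / 2) * ‖z‖) * (1 + a * ‖z‖) := by
      have h3 : (‖z‖ + a) ≤ (1 / 2 + a) / (1 + a / 2) * (1 + a * ‖z‖) := by
        rw [div_mul_eq_mul_div, le_div_iff₀ (by positivity)]
        have : 0 ≤ (1 / 2 - ‖z‖) * (1 - a ^ 2) := mul_nonneg (by linarith) (by nlinarith)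
        nlinarith
      calc ‖z‖ * (‖z‖ + a) ≤ ‖z‖ * ((1 / 2 + a) / (1 + a / 2) * (1 + a * ‖z‖)) :=
            mul_le_mul_of_nonneg_left h3 ht0
        _ = _ := by ring
    exact le_of_mul_le_mul_right (h1.trans h2) (by positivity)
  · intro z hz1 hz2
    have hzb : z ∈ ball (0:ℂ) 1 := by rwa [mem_ball_zero_iff]
    have h1 := hmain z hzb
    have ht0 : 0 ≤ ‖z‖ := norm_nonneg _
    have hp : 0 < 1 + a * ‖z‖ := by positivity
    have h2 : 3 / (2 + a) * (1 - ‖z‖) * (1 + a * ‖z‖) ≤ (1 - ‖z‖) * (1 + ‖z‖) := by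
      have h3 : 3 / (2 + a) * (1 + a * ‖z‖) ≤ 1 + ‖z‖ := by
        rw [div_mul_eq_mul_div, div_le_iff₀ (by positivity)]
        have : 0 ≤ (2 * ‖z‖ - 1) * (1 - a) := mul_nonneg (by linarith) (by linarith)
        nlinarith
      calc 3 / (2 + a) * (1 - ‖z‖) * (1 + a * ‖z‖) = (1 - ‖z‖) * (3 / (2 + a) * (1 + a * ‖z‖)) := by
            ring
        _ ≤ _ := mul_le_mul_of_nonneg_left h3 (by linarith)
    have h4 : 3 / (2 + a) * (1 - ‖z‖) * (1 + a * ‖z‖) ≤ (1 - ‖φ z‖) * (1 + a * ‖z‖) := by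
      nlinarith
    exact le_of_mul_le_mul_right h4 hp

/-- Iterates: heights grow geometrically, then the orbit converges to `0`. -/
theorem iter_bounds {φ : ℂ → ℂ} (hm : MapsTo φ (ball (0 : ℂ) 1) (ball 0 1))
    {q η : ℝ} (hq0 : 0 < q) (hq1 : q < 1) (hη : 1 < η)
    (h1 : ∀ z : ℂ, ‖z‖ ≤ 1 / 2 → ‖φ z‖ ≤ q * ‖z‖)
    (h2 : ∀ z : ℂ, 1 / 2 ≤ ‖z‖ → ‖z‖ < 1 → η * (1 - ‖z‖) ≤ 1 - ‖φ z‖) :
    (∀ (l : ℕ) (z : ℂ), ‖z‖ < 1 → ‖φ^[l] z‖ < 1) ∧
    (∀ (l : ℕ) (z : ℂ), ‖z‖ < 1 → min (η ^ l * (1 - ‖z‖)) (1 / 2) ≤ 1 - ‖φ^[l] z‖) ∧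
    (∀ (l : ℕ) (z : ℂ), ‖z‖ ≤ 1 / 2 → ‖φ^[l] z‖ ≤ q ^ l * ‖z‖) := by
  have hA : ∀ (l : ℕ) (z : ℂ), ‖z‖ < 1 → ‖φ^[l] z‖ < 1 := by
    intro l z hz
    induction l with
    | zero => simpa using hz
    | succ l ih =>
      rw [Function.iterate_succ_apply']
      have := hm (show φ^[l] z ∈ ball (0:ℂ) 1 by rwa [mem_ball_zero_iff])
      rwa [mem_ball_zero_iff] at this
  refine ⟨hA, ?_, ?_⟩
  · intro l z hz
    induction l with
    | zero =>
      rw [pow_zero, one_mul]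
      exact min_le_left _ _
    | succ l ih =>
      rw [Function.iterate_succ_apply']
      set y := φ^[l] z with hy
      have hy1 : ‖y‖ < 1 := hA l z hz
      rcases le_or_gt ‖y‖ (1 / 2) with hle | hgt
      · have h3 := h1 y hle
        have h4 : ‖φ y‖ ≤ 1 / 2 := by
          calc ‖φ y‖ ≤ q * ‖y‖ := h3
            _ ≤ 1 * (1 / 2) := mul_le_mul hq1.le hle (norm_nonneg _) zero_le_one
            _ = 1 / 2 := one_mul _
        exact (min_le_right _ _).trans (by linarith)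
      · have h3 := h2 y hgt.le hy1
        have h4 : η ^ l * (1 - ‖z‖) ≤ 1 - ‖y‖ := by
          rcases min_le_iff.1 ih with h | h
          · exact h
          · linarith
        refine (min_le_left _ _).trans ?_
        calc η ^ (l + 1) * (1 - ‖z‖) = η * (η ^ l * (1 - ‖z‖)) := by ring
          _ ≤ η * (1 - ‖y‖) := mul_le_mul_of_nonneg_left h4 (by linarith)
          _ ≤ _ := h3
  · intro l z hz
    induction l with
    | zero => simp
    | succ l ih =>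
      rw [Function.iterate_succ_apply']
      have hql : q ^ l ≤ 1 := pow_le_one₀ hq0.le hq1.le
      have h3 : ‖φ^[l] z‖ ≤ 1 / 2 := by
        calc ‖φ^[l] z‖ ≤ q ^ l * ‖z‖ := ih
          _ ≤ 1 * (1 / 2) := mul_le_mul hql hz (norm_nonneg _) zero_le_one
          _ = 1 / 2 := one_mul _
      calc ‖φ (φ^[l] z)‖ ≤ q * ‖φ^[l] z‖ := h1 _ h3
        _ ≤ q * (q ^ l * ‖z‖) := mul_le_mul_of_nonneg_left ih hq0.le
        _ = _ := by ring


end Pool.Agent.Helper156.Ess
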