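import Mathlib
import Pool.Agent.Helper156.Ess.H2

set_option autoImplicit false

open Complex Metric Set Filter MeasureTheory
open scoped Real Topology ComplexConjugate NNReal ENNReal

namespace Pool.Agent.Helper156.Ess


theorem ev_zero' (g : H2) : ev g 0 = g 0 := by
  rw [ev, tsum_eq_single 0]
  · simp
  · intro n hn
    simp [hn]

theorem ev_shift' (f : H2) (N : ℕ) (hf : ∀ j < N, f j = 0) :
    ∃ g : H2, g 0 = f N ∧ ∀ z ∈ ball (0 : ℂ) 1, ev f z = z ^ N * ev g z := by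
  have hm : Memℓp (fun k : ℕ => f (k + N)) 2 := by
    apply memℓp_gen
    have := (summable_nat_add_iff N).2 (sq_summable f)
    simpa using this
  refine ⟨⟨fun k : ℕ => f (k + N), hm⟩, ?_, ?_⟩
  · show f (0 + N) = f N
    rw [zero_add]
  · intro z hz
    rw [mem_ball_zero_iff] at hz
    have h1 := (ev_summable f hz).sum_add_tsum_nat_add N
    rw [ev, ← h1, Finset.sum_eq_zero, zero_add, ev, ← tsum_mul_left]
    · congr 1
      funext k
      show f (k + N) * z ^ (k + N) = z ^ N * (f (k + N) * z ^ k)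
      ring
    · intro i hi
      rw [hf i (Finset.mem_range.1 hi), zero_mul]

theorem ev_cont0 (g : H2) : ContinuousAt (ev g) 0 :=
  ((ev_diff g).differentiableAt (isOpen_ball.mem_nhds (mem_ball_self one_pos))).continuousAt

theorem ev_ratio (f : H2) (N : ℕ) (hf : ∀ j < N, f j = 0) :
    Tendsto (fun z => ev f z / z ^ N) (𝓝[≠] 0) (𝓝 (f N)) := by
  obtain ⟨g, hg0, hg⟩ := ev_shift' f N hf
  have h1 : Tendsto (ev g) (𝓝[≠] 0) (𝓝 (f N)) := by
    rw [← hg0, ← ev_zero' g]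
    exact (ev_cont0 g).tendsto.mono_left nhdsWithin_le_nhds
  refine h1.congr' ?_
  have hb : ∀ᶠ z : ℂ in 𝓝[≠] 0, z ∈ ball (0 : ℂ) 1 :=
    nhdsWithin_le_nhds (isOpen_ball.mem_nhds (mem_ball_self one_pos))
  have hne : ∀ᶠ z : ℂ in 𝓝[≠] 0, z ≠ 0 := eventually_mem_nhdsWithin
  filter_upwards [hb, hne] with z hz hz0
  rw [hg z hz]
  field_simp

theorem coef_of_ratio (f : H2) (N : ℕ) (L : ℂ)
    (h : Tendsto (fun z => ev f z / z ^ N) (𝓝[≠] 0) (𝓝 L)) :
    (∀ j < N, f j = 0) ∧ f N = L := by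
  have hne : ∀ᶠ z : ℂ in 𝓝[≠] 0, z ≠ 0 := eventually_mem_nhdsWithin
  have key : ∀ j < N, f j = 0 := by
    intro j
    induction j using Nat.strong_induction_on with
    | _ j ih =>
      intro hj
      have h1 := ev_ratio f j (fun i hi => ih i hi (hi.trans hj))
      have h2 : Tendsto (fun z : ℂ => (ev f z / z ^ N) * z ^ (N - j)) (𝓝[≠] 0) (𝓝 (L * 0)) := by
        refine h.mul ?_
        have h3 : Tendsto (fun z : ℂ => z ^ (N - j)) (𝓝 0) (𝓝 (0 ^ (N - j))) :=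
          ((continuous_pow (N - j)).tendsto 0)
        rw [zero_pow (by omega)] at h3
        exact h3.mono_left nhdsWithin_le_nhds
      rw [mul_zero] at h2
      refine tendsto_nhds_unique h1 (h2.congr' ?_)
      filter_upwards [hne] with z hz
      have e : z ^ N = z ^ j * z ^ (N - j) := by
        rw [← pow_add]; congr 1; omega
      rw [e]
      field_simp
  exact ⟨key, tendsto_nhds_unique (ev_ratio f N key) h⟩

theorem coefT {φ : ℂ → ℂ} (hφ : DifferentiableOn ℂ φ (ball 0 1))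
    (hm : MapsTo φ (ball (0 : ℂ) 1) (ball 0 1)) (h0 : φ 0 = 0) (T : H2 →L[ℂ] H2)
    (hT : ∀ f : H2, ∀ z ∈ ball (0 : ℂ) 1, ev (T f) z = ev f (φ z)) (f : H2) (N : ℕ)
    (hf : ∀ j < N, f j = 0) : (∀ j < N, (T f) j = 0) ∧ (T f) N = (deriv φ 0) ^ N * f N := by
  apply coef_of_ratio
  obtain ⟨g, hg0, hg⟩ := ev_shift' f N hf
  have hd : HasDerivAt φ (deriv φ 0) 0 :=
    (hφ.differentiableAt (isOpen_ball.mem_nhds (mem_ball_self one_pos))).hasDerivAt
  have hs := hd.tendsto_slope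
  have hφc : Tendsto φ (𝓝[≠] 0) (𝓝 0) := by
    have := hd.continuousAt.tendsto
    rw [h0] at this
    exact this.mono_left nhdsWithin_le_nhds
  have hgc : Tendsto (fun z => ev g (φ z)) (𝓝[≠] 0) (𝓝 (f N)) := by
    rw [← hg0, ← ev_zero' g]
    exact (ev_cont0 g).tendsto.comp hφc
  refine ((hs.pow N).mul hgc).congr' ?_
  have hb : ∀ᶠ z : ℂ in 𝓝[≠] 0, z ∈ ball (0 : ℂ) 1 :=
    nhdsWithin_le_nhds (isOpen_ball.mem_nhds (mem_ball_self one_pos))
  have hne : ∀ᶠ z : ℂ in 𝓝[≠] 0, z ≠ 0 := eventually_mem_nhdsWithin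
  filter_upwards [hb, hne] with z hz hz0
  rw [hT f z hz, hg (φ z) (hm hz), slope_def_field, h0, sub_zero, sub_zero, div_pow]
  ring

/-- If `λ u - u ∘ φ` vanishes to order `N` at `0` and `λ` is not a Schroeder value, so does `u`. -/
theorem order_lemma' {φ : ℂ → ℂ} (hφ : DifferentiableOn ℂ φ (ball 0 1))
    (hm : MapsTo φ (ball (0 : ℂ) 1) (ball 0 1)) (h0 : φ 0 = 0) (T : H2 →L[ℂ] H2)
    (hT : ∀ f : H2, ∀ z ∈ ball (0 : ℂ) 1, ev (T f) z = ev f (φ z)) (l : ℂ)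
    (u f : H2) (huf : l • u - T u = f) (N : ℕ) (hl : ∀ j < N, l ≠ (deriv φ 0) ^ j)
    (hf : ∀ j < N, f j = 0) : ∀ j < N, u j = 0 := by
  intro j
  induction j using Nat.strong_induction_on with
  | _ j ih =>
    intro hj
    have h1 := (coefT hφ hm h0 T hT u j (fun i hi => ih i hi (hi.trans hj))).2
    have h2 := hf j hj
    rw [← huf, lp.coeFn_sub, Pi.sub_apply, lp.coeFn_smul, Pi.smul_apply, smul_eq_mul, h1,
      ← sub_mul] at h2
    exact (mul_eq_zero.1 h2).resolve_left (sub_ne_zero.2 (hl j hj))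

/-- The Schroeder values lie in the spectrum. -/
theorem schroeder_mem {φ : ℂ → ℂ} (hφ : DifferentiableOn ℂ φ (ball 0 1))
    (hm : MapsTo φ (ball (0 : ℂ) 1) (ball 0 1)) (h0 : φ 0 = 0) (T : H2 →L[ℂ] H2)
    (hT : ∀ f : H2, ∀ z ∈ ball (0 : ℂ) 1, ev (T f) z = ev f (φ z)) (j : ℕ) :
    ¬ IsUnit (T - ((deriv φ 0) ^ j) • (1 : H2 →L[ℂ] H2)) := by
  intro hU
  classical
  set l := (deriv φ 0) ^ j with hl
  have hex : ∃ i, (deriv φ 0) ^ i = l := ⟨j, rfl⟩
  set m := Nat.find hex with hmdef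
  have hm1 : (deriv φ 0) ^ m = l := Nat.find_spec hex
  have hm2 : ∀ i < m, l ≠ (deriv φ 0) ^ i := fun i hi h => Nat.find_min hex hi h.symm
  obtain ⟨S, hS⟩ := hU.exists_right_inv
  set w : H2 := -(lp.single 2 m (1 : ℂ)) with hw
  set u : H2 := S w with hu
  have h1 : T u - l • u = w := by
    have := congrArg (fun A : H2 →L[ℂ] H2 => A w) hS
    simpa using this
  have h2 : l • u - T u = -w := by rw [← h1]; abel
  have hwm : ∀ i, (-w) i = if i = m then 1 else 0 := by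
    intro i
    rw [hw, neg_neg]
    by_cases h : i = m
    · subst h
      simp
    · simp [h]
  have h3 := order_lemma' hφ hm h0 T hT l u (-w) h2 m hm2 (fun i hi => by
    rw [hwm, if_neg hi.ne])
  have h4 := (coefT hφ hm h0 T hT u m h3).2
  have h5 := hwm m
  rw [if_pos rfl, ← h2, lp.coeFn_sub, Pi.sub_apply, lp.coeFn_smul, Pi.smul_apply, smul_eq_mul,
    h4, hm1, sub_self] at h5
  exact zero_ne_one h5

/-- If `λ u - u ∘ φ` vanishes to order `N` at `0` and `λ` is not a Schroeder value, so does `u`. -/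
theorem order_lemma {φ : ℂ → ℂ} (hφ : DifferentiableOn ℂ φ (ball 0 1))
    (hm : MapsTo φ (ball (0 : ℂ) 1) (ball 0 1)) (h0 : φ 0 = 0) (T : H2 →L[ℂ] H2)
    (hT : ∀ f : H2, ∀ z ∈ ball (0 : ℂ) 1, ev (T f) z = ev f (φ z)) (l : ℂ)
    (hl : ∀ j : ℕ, l ≠ (deriv φ 0) ^ j) (u f : H2) (huf : l • u - T u = f) (N : ℕ)
    (hf : ∀ j < N, f j = 0) : ∀ j < N, u j = 0 :=
  order_lemma' hφ hm h0 T hT l u f huf N (fun j _ => hl j) hf

end Pool.Agent.Helper156.Ess
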