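import Mathlib
import Pool.Agent.Helper156.Ess.Bl

set_option autoImplicit false

open Complex Metric Set Filter MeasureTheory
open scoped Real Topology ComplexConjugate NNReal ENNReal

namespace Pool.Agent.Helper156.Ess

/-- Normalised reproducing kernel. -/
theorem exists_kernel {w : ℂ} (hw : ‖w‖ < 1) :
    ∃ κ : H2, ‖κ‖ ≤ 1 ∧ ∀ z ∈ ball (0 : ℂ) 1,
      ev κ z = (Real.sqrt (1 - ‖w‖ ^ 2) : ℂ) / (1 - conj w * z) := by
  have hw2 : 0 < 1 - ‖w‖ ^ 2 := by nlinarith [norm_nonneg w]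
  set s : ℝ := Real.sqrt (1 - ‖w‖ ^ 2) with hs
  have hs2 : s ^ 2 = 1 - ‖w‖ ^ 2 := Real.sq_sqrt hw2.le
  have hs0 : 0 ≤ s := Real.sqrt_nonneg _
  set a : ℕ → ℂ := fun n => (s : ℂ) * (conj w) ^ n with ha
  have hn : ∀ n, ‖a n‖ ^ 2 = (1 - ‖w‖ ^ 2) * (‖w‖ ^ 2) ^ n := by
    intro n
    simp only [ha, norm_mul, norm_pow, RCLike.norm_conj, Complex.norm_real,
      Real.norm_of_nonneg hs0]
    rw [mul_pow, hs2, ← pow_mul, ← pow_mul, mul_comm n 2]
  have hw1 : ‖w‖ ^ 2 < 1 := by linarith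
  have hsum : HasSum (fun n => ‖a n‖ ^ 2) 1 := by
    simp only [hn]
    have h1 := (hasSum_geometric_of_lt_one (by positivity : (0 : ℝ) ≤ ‖w‖ ^ 2) hw1).mul_left
      (1 - ‖w‖ ^ 2)
    rwa [mul_inv_cancel₀ hw2.ne'] at h1
  have hmem : Memℓp a 2 := by
    apply memℓp_gen
    simpa using hsum.summable
  refine ⟨⟨a, hmem⟩, ?_, ?_⟩
  · have h2 : ‖(⟨a, hmem⟩ : H2)‖ ^ 2 = 1 := by
      rw [norm_sq]
      exact hsum.tsum_eq
    nlinarith [norm_nonneg (⟨a, hmem⟩ : H2)]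
  · intro z hz
    have hz' := mem_ball_zero_iff.1 hz
    have h3 : ‖conj w * z‖ < 1 := by
      rw [norm_mul, RCLike.norm_conj]
      nlinarith [norm_nonneg w, norm_nonneg z]
    have h4 := (hasSum_geometric_of_norm_lt_one h3).mul_left (s : ℂ)
    show ∑' n, a n * z ^ n = _
    rw [div_eq_mul_inv, ← h4.tsum_eq]
    congr 1
    funext n
    simp only [ha]
    rw [mul_pow]
    ring

/-- Multiplication by a bounded analytic function. -/
theorem exists_mul (κ : H2) {g : ℂ → ℂ} (hg : DifferentiableOn ℂ g (ball 0 1))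
    (hb : ∀ z ∈ ball (0 : ℂ) 1, ‖g z‖ ≤ 1) :
    ∃ F : H2, (∀ z ∈ ball (0 : ℂ) 1, ev F z = g z * ev κ z) ∧ ‖F‖ ≤ ‖κ‖ := by
  obtain ⟨F, hF, hF2⟩ := exists_ev (h := fun z => g z * ev κ z) (hg.mul (ev_diff κ))
    (B := ‖κ‖ ^ 2) (by positivity) (by
      intro r h0 h1
      refine le_trans ?_ (ev_circle_le κ h0 h1)
      have hcb : ∀ θ, circleMap 0 r θ ∈ ball (0 : ℂ) 1 := by
        intro θ
        rw [mem_ball_zero_iff, norm_circleMap_zero, abs_of_nonneg h0]; exact h1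
      have hc1 : Continuous fun θ => g (circleMap 0 r θ) :=
        hg.continuousOn.comp_continuous (continuous_circleMap 0 _) hcb
      have hc2 : Continuous fun θ => ev κ (circleMap 0 r θ) :=
        (ev_diff κ).continuousOn.comp_continuous (continuous_circleMap 0 _) hcb
      apply integral_mono
      · exact cont_integrable ((hc1.mul hc2).norm.pow 2)
      · exact cont_integrable (hc2.norm.pow 2)
      · intro θ
        show ‖g (circleMap 0 r θ) * ev κ (circleMap 0 r θ)‖ ^ 2 ≤ ‖ev κ (circleMap 0 r θ)‖ ^ 2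
        rw [norm_mul]
        have h3 := hb _ (hcb θ)
        have h4 := norm_nonneg (ev κ (circleMap 0 r θ))
        have h5 : ‖g (circleMap 0 r θ)‖ * ‖ev κ (circleMap 0 r θ)‖ ≤
          ‖ev κ (circleMap 0 r θ)‖ := by nlinarith
        gcongr)
  refine ⟨F, hF, ?_⟩
  nlinarith [norm_nonneg F, norm_nonneg κ]

theorem Mz_pow_coef (N : ℕ) (f : H2) : ∀ j < N, (Mz ^ N) f j = 0 := by
  induction N generalizing f with
  | zero => intro j hj; omega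
  | succ n ih =>
    intro j hj
    rw [pow_succ', mul_apply_eq_comp, Mz_apply]
    cases j with
    | zero => rfl
    | succ j => exact ih f j (by omega)

/-- Test functions. -/
theorem exists_test {w : ℂ} (hw : ‖w‖ < 1) (N : ℕ) {g : ℂ → ℂ}
    (hg : DifferentiableOn ℂ g (ball 0 1)) (hb : ∀ z ∈ ball (0 : ℂ) 1, ‖g z‖ ≤ 1) :
    ∃ F : H2, ‖F‖ ≤ 1 ∧ (∀ j < N, F j = 0) ∧ ∀ z ∈ ball (0 : ℂ) 1,
      ev F z = z ^ N * (g z * ((Real.sqrt (1 - ‖w‖ ^ 2) : ℂ) / (1 - conj w * z))) := by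
  obtain ⟨κ, hκ1, hκ2⟩ := exists_kernel hw
  obtain ⟨F, hF1, hF2⟩ := exists_mul κ hg hb
  refine ⟨(Mz ^ N) F, ?_, Mz_pow_coef N F, fun z hz => ?_⟩
  · rw [Mz_pow_norm]; exact hF2.trans hκ1
  · rw [ev_Mz_pow F N (mem_ball_zero_iff.1 hz), hF1 z hz, hκ2 z hz]

/-- Size of functions vanishing to order `N` near the origin. -/
theorem ev_small (f : H2) (N : ℕ) (hf : ∀ j < N, f j = 0) {z : ℂ} (hz : ‖z‖ ≤ 1 / 2) :
    ‖ev f z‖ ≤ 2 * ‖z‖ ^ N * ‖f‖ := by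
  have hz1 : ‖z‖ < 1 := by linarith
  have h1 : ev f z = ∑' n, f (n + N) * z ^ (n + N) := by
    rw [ev, ← (ev_summable f hz1).sum_add_tsum_nat_add N]
    rw [Finset.sum_eq_zero, zero_add]
    intro j hj
    rw [hf j (Finset.mem_range.1 hj), zero_mul]
  rw [h1]
  have h2 : HasSum (fun n : ℕ => ‖f‖ * ‖z‖ ^ N * ‖z‖ ^ n) (‖f‖ * ‖z‖ ^ N * (1 - ‖z‖)⁻¹) :=
    (hasSum_geometric_of_lt_one (norm_nonneg z) hz1).mul_left _
  refine (tsum_of_norm_bounded h2 (fun n => ?_)).trans ?_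
  · rw [norm_mul, norm_pow, pow_add]
    have := coef_le f (n + N)
    calc ‖f (n + N)‖ * (‖z‖ ^ n * ‖z‖ ^ N) ≤ ‖f‖ * (‖z‖ ^ n * ‖z‖ ^ N) := by gcongr
      _ = _ := by ring
  · have h3 : (1 - ‖z‖)⁻¹ ≤ 2 := by
      rw [inv_le_comm₀ (by linarith) (by norm_num)]
      linarith
    calc ‖f‖ * ‖z‖ ^ N * (1 - ‖z‖)⁻¹ ≤ ‖f‖ * ‖z‖ ^ N * 2 := by gcongr
      _ = _ := by ring

end Pool.Agent.Helper156.Ess
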