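import Mathlib
import Pool.Agent.Helper156.Ess.Test
import Pool.Agent.Helper156.Ess.Div
import Pool.Agent.Helper156.Ess.Sch
import Pool.Agent.Helper156.Ess.Schr

set_option autoImplicit false

open Complex Metric Set Filter MeasureTheory
open scoped Real Topology ComplexConjugate NNReal ENNReal

namespace Pool.Agent.Helper156.Ess

theorem iter_maps {φ : ℂ → ℂ} (hm : MapsTo φ (ball (0 : ℂ) 1) (ball 0 1)) (n : ℕ) :
    MapsTo (φ^[n]) (ball (0 : ℂ) 1) (ball 0 1) := hm.iterate n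

theorem iter_diff {φ : ℂ → ℂ} (hφ : DifferentiableOn ℂ φ (ball 0 1))
    (hm : MapsTo φ (ball (0 : ℂ) 1) (ball 0 1)) (n : ℕ) :
    DifferentiableOn ℂ (φ^[n]) (ball 0 1) := by
  induction n with
  | zero => exact differentiableOn_id
  | succ n ih =>
    rw [Function.iterate_succ']
    exact hφ.comp ih (iter_maps hm n)

/-- The bounded factor of the test functions. -/
noncomputable def gfun (φ : ℂ → ℂ) {k : ℕ} (w : Fin (k + 1) → ℂ) (n m : ℕ) (i : Fin (k + 1))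
    (z : ℂ) : ℂ :=
  (∏ a : Fin (k + 1), ∏ j ∈ Finset.range n, bl (w a) (φ^[j + 1] z)) *
    (∏ a : Fin (k + 1), ∏ j ∈ Finset.range m, bl (φ^[j + 1] (w a)) z) *
    ∏ a ∈ Finset.univ.erase i, bl (w a) z

section
variable {φ : ℂ → ℂ} (hφ : DifferentiableOn ℂ φ (ball 0 1))
  (hm : MapsTo φ (ball (0 : ℂ) 1) (ball 0 1)) {k : ℕ} {w : Fin (k + 1) → ℂ}
  (hw : ∀ a, ‖w a‖ < 1)

include hm hw in
theorem iter_w_lt (j : ℕ) (a : Fin (k + 1)) : ‖φ^[j] (w a)‖ < 1 :=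
  mem_ball_zero_iff.1 (iter_maps hm j (mem_ball_zero_iff.2 (hw a)))

include hφ hm hw in
theorem gfun_diff (n m : ℕ) (i : Fin (k + 1)) :
    DifferentiableOn ℂ (gfun φ w n m i) (ball 0 1) := by
  unfold gfun
  refine DifferentiableOn.mul (DifferentiableOn.mul ?_ ?_) ?_
  · refine DifferentiableOn.fun_finsetProd fun a _ => DifferentiableOn.fun_finsetProd fun j _ => ?_
    exact (bl_diff (hw a)).comp (iter_diff hφ hm (j + 1)) (iter_maps hm (j + 1))
  · refine DifferentiableOn.fun_finsetProd fun a _ => DifferentiableOn.fun_finsetProd fun j _ => ?_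
    exact bl_diff (iter_w_lt hm hw (j + 1) a)
  · exact DifferentiableOn.fun_finsetProd fun a _ => bl_diff (hw a)

include hm hw in
theorem gfun_le (n m : ℕ) (i : Fin (k + 1)) : ∀ z ∈ ball (0 : ℂ) 1, ‖gfun φ w n m i z‖ ≤ 1 := by
  intro z hz
  have hz' := mem_ball_zero_iff.1 hz
  unfold gfun
  rw [norm_mul, norm_mul, norm_prod, norm_prod, norm_prod]
  have h1 : ∏ a : Fin (k + 1), ‖∏ j ∈ Finset.range n, bl (w a) (φ^[j + 1] z)‖ ≤ 1 := by
    apply Finset.prod_le_one (fun _ _ => norm_nonneg _)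
    intro a _
    rw [norm_prod]
    apply Finset.prod_le_one (fun _ _ => norm_nonneg _)
    intro j _
    exact (bl_norm_lt (hw a) (mem_ball_zero_iff.1 (iter_maps hm (j + 1) hz))).le
  have h2 : ∏ a : Fin (k + 1), ‖∏ j ∈ Finset.range m, bl (φ^[j + 1] (w a)) z‖ ≤ 1 := by
    apply Finset.prod_le_one (fun _ _ => norm_nonneg _)
    intro a _
    rw [norm_prod]
    apply Finset.prod_le_one (fun _ _ => norm_nonneg _)
    intro j _
    exact (bl_norm_lt (iter_w_lt hm hw (j + 1) a) hz').le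
  have h3 : ∏ a ∈ Finset.univ.erase i, ‖bl (w a) z‖ ≤ 1 :=
    Finset.prod_le_one (fun _ _ => norm_nonneg _) fun a _ => (bl_norm_lt (hw a) hz').le
  have p1 : 0 ≤ ∏ a : Fin (k + 1), ‖∏ j ∈ Finset.range n, bl (w a) (φ^[j + 1] z)‖ :=
    Finset.prod_nonneg fun _ _ => norm_nonneg _
  have p2 : 0 ≤ ∏ a : Fin (k + 1), ‖∏ j ∈ Finset.range m, bl (φ^[j + 1] (w a)) z‖ :=
    Finset.prod_nonneg fun _ _ => norm_nonneg _
  have p3 : 0 ≤ ∏ a ∈ Finset.univ.erase i, ‖bl (w a) z‖ :=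
    Finset.prod_nonneg fun _ _ => norm_nonneg _
  exact mul_le_one₀ (mul_le_one₀ h1 p2 h2) p3 h3

omit hm hw in
theorem gfun_zero1 (n m : ℕ) (i a : Fin (k + 1)) {z : ℂ} {j : ℕ} (hj : j < n)
    (hz : φ^[n] z = w a) : gfun φ w n m i (φ^[j] z) = 0 := by
  have h1 : bl (w a) (φ^[(n - j - 1) + 1] (φ^[j] z)) = 0 := by
    rw [← Function.iterate_add_apply]
    have : n - j - 1 + 1 + j = n := by omega
    rw [this, hz, bl_self]
  unfold gfun
  have h2 : ∏ b ∈ Finset.range n, bl (w a) (φ^[b + 1] (φ^[j] z)) = 0 :=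
    Finset.prod_eq_zero (Finset.mem_range.2 (by omega : n - j - 1 < n)) h1
  rw [Finset.prod_eq_zero (Finset.mem_univ a) h2, zero_mul, zero_mul]

omit hm hw in
theorem gfun_zero2 (n m : ℕ) (i a : Fin (k + 1)) {j : ℕ} (hj : j < m) :
    gfun φ w n m i (φ^[j + 1] (w a)) = 0 := by
  unfold gfun
  have h2 : ∏ b ∈ Finset.range m, bl (φ^[b + 1] (w a)) (φ^[j + 1] (w a)) = 0 :=
    Finset.prod_eq_zero (Finset.mem_range.2 hj) (bl_self _)
  have h3 : ∏ a' : Fin (k + 1), ∏ b ∈ Finset.range m, bl (φ^[b + 1] (w a')) (φ^[j + 1] (w a)) = 0 :=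
    Finset.prod_eq_zero (Finset.mem_univ a) h2
  rw [h3, mul_zero, zero_mul]

omit hm hw in
theorem gfun_zero3 (n m : ℕ) (i a : Fin (k + 1)) (h : a ≠ i) :
    gfun φ w n m i (w a) = 0 := by
  unfold gfun
  rw [Finset.prod_eq_zero (Finset.mem_erase.2 ⟨h, Finset.mem_univ a⟩) (bl_self (w a)), mul_zero]

end

/-- Bounds for one factor. -/
theorem term_bounds {w v v₀ : ℂ} (hw : ‖w‖ < 1) (hv₀ : ‖v₀‖ < 1) (hv : ‖v‖ < 1) {θ η : ℝ}
    (hθ : 1 < θ) (hη : η = θ ^ 2) (h1 : 1 - ‖w‖ ≤ θ * (1 - ‖v₀‖)) (h2 : 1 - ‖w‖ ≤ 1 / (2 * θ))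
    (l : ℕ) (hiter : min (η ^ (l + 1) * (1 - ‖v₀‖)) (1 / 2) ≤ 1 - ‖v‖) :
    (θ - 1) / (θ + 1) ≤ ‖bl w v‖ ∧
      1 - ‖bl w v‖ ≤ 4 * θ * (η⁻¹) ^ (l + 1) + 8 * (1 - ‖w‖) := by
  have hη1 : 1 < η := by rw [hη]; nlinarith
  have hη0 : 0 < η := by linarith
  have hA : 0 < 1 - ‖v₀‖ := by linarith
  have hw' : 0 < 1 - ‖w‖ := by linarith
  have hpow : η ≤ η ^ (l + 1) := by
    calc η = η ^ 1 := (pow_one _).symm
      _ ≤ η ^ (l + 1) := pow_le_pow_right₀ hη1.le (by omega)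
  constructor
  · apply bl_min hw hv hθ
    refine le_trans ?_ hiter
    apply le_min
    · calc θ * (1 - ‖w‖) ≤ θ * (θ * (1 - ‖v₀‖)) := by gcongr
        _ = η * (1 - ‖v₀‖) := by rw [hη]; ring
        _ ≤ η ^ (l + 1) * (1 - ‖v₀‖) := by gcongr
    · calc θ * (1 - ‖w‖) ≤ θ * (1 / (2 * θ)) := by gcongr
        _ = 1 / 2 := by field_simp
  · refine (bl_far hw hv).trans ?_
    set A := η ^ (l + 1) * (1 - ‖v₀‖) with hAd
    have hA0 : 0 < A := by positivity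
    have hv' : 0 < 1 - ‖v‖ := by linarith
    have h3 : 4 * (1 - ‖w‖) / (1 - ‖v‖) ≤ 4 * (1 - ‖w‖) * (1 / A + 2) := by
      rw [div_eq_mul_inv]
      have h4 : (1 - ‖v‖)⁻¹ ≤ 1 / A + 2 := by
        rcases le_total A (1 / 2) with h | h
        · rw [min_eq_left h] at hiter
          have : (1 - ‖v‖)⁻¹ ≤ A⁻¹ := inv_anti₀ hA0 hiter
          rw [one_div]
          linarith
        · rw [min_eq_right h] at hiter
          have : (1 - ‖v‖)⁻¹ ≤ (1 / 2)⁻¹ := inv_anti₀ (by norm_num) hiter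
          have h5 : 0 < 1 / A := by positivity
          norm_num at this
          linarith
      gcongr
    refine h3.trans ?_
    have h6 : (1 - ‖w‖) / A ≤ θ * (η⁻¹) ^ (l + 1) := by
      rw [div_le_iff₀ hA0, hAd]
      have e : θ * η⁻¹ ^ (l + 1) * (η ^ (l + 1) * (1 - ‖v₀‖)) = θ * (1 - ‖v₀‖) := by
        rw [inv_pow]
        field_simp
      rw [e]
      exact h1
    have e2 : 4 * (1 - ‖w‖) * (1 / A + 2) = 4 * ((1 - ‖w‖) / A) + 8 * (1 - ‖w‖) := by ring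
    rw [e2]
    nlinarith

theorem geom_sum_le {η : ℝ} (hη : 1 < η) (n : ℕ) :
    ∑ j ∈ Finset.range n, (η⁻¹) ^ (j + 1) ≤ 1 / (η - 1) := by
  have h0 : 0 < η := by linarith
  have h1 : η⁻¹ < 1 := inv_lt_one_of_one_lt₀ hη
  have h2 : HasSum (fun j : ℕ => (η⁻¹) ^ (j + 1)) (1 / (η - 1)) := by
    have h3 := (hasSum_geometric_of_lt_one (by positivity : (0 : ℝ) ≤ η⁻¹) h1).mul_left (η⁻¹)
    have e1 : η⁻¹ * (1 - η⁻¹)⁻¹ = 1 / (η - 1) := by
      have : η - 1 ≠ 0 := by linarith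
      have h4 : 1 - η⁻¹ ≠ 0 := by linarith
      field_simp
    rw [e1] at h3
    have e2 : (fun j : ℕ => (η⁻¹) ^ (j + 1)) = fun i : ℕ => η⁻¹ * η⁻¹ ^ i := by
      funext i; rw [pow_succ, mul_comm]
    rw [e2]
    exact h3
  exact sum_le_hasSum _ (fun j _ => by positivity) h2

/-- Lower bound of the bounded factor at its base point. -/
theorem gfun_lower {φ : ℂ → ℂ} (hm : MapsTo φ (ball (0 : ℂ) 1) (ball 0 1)) {k : ℕ}
    {w : Fin (k + 1) → ℂ} (hw : ∀ a, ‖w a‖ < 1) {θ η : ℝ} (hθ : 1 < θ) (hη : η = θ ^ 2)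
    (hiter : ∀ (l : ℕ) (z : ℂ), ‖z‖ < 1 → min (η ^ l * (1 - ‖z‖)) (1 / 2) ≤ 1 - ‖φ^[l] z‖)
    (h1 : ∀ a b, 1 - ‖w a‖ ≤ θ * (1 - ‖w b‖)) (h2 : ∀ a, 1 - ‖w a‖ ≤ 1 / (2 * θ))
    {c : ℝ} (hc : 0 < c) (h3 : ∀ a b, a ≠ b → c * (1 - ‖w a‖) ≤ ‖w a - w b‖)
    (n m : ℕ) {K : ℝ} (hn : ∀ a, n * (1 - ‖w a‖) ≤ K) (hmK : ∀ a, m * (1 - ‖w a‖) ≤ K)
    (i : Fin (k + 1)) :
    Real.exp (-(((k + 1 : ℕ) : ℝ) * (4 * θ / (η - 1) + 8 * K)) / ((θ - 1) / (θ + 1))) *
      Real.exp (-(((k + 1 : ℕ) : ℝ) * (4 * θ / (η - 1) + 8 * K)) / ((θ - 1) / (θ + 1))) *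
      (c / (2 + c)) ^ k ≤ ‖gfun φ w n m i (w i)‖ := by
  have hη1 : 1 < η := by rw [hη]; nlinarith
  have hx0 : 0 < (θ - 1) / (θ + 1) := div_pos (by linarith) (by linarith)
  have hsum : ∀ (x : ℝ) (N : ℕ), N * x ≤ K →
      ∑ j ∈ Finset.range N, (4 * θ * (η⁻¹) ^ (j + 1) + 8 * x) ≤ 4 * θ / (η - 1) + 8 * K := by
    intro x N hN
    rw [Finset.sum_add_distrib, ← Finset.mul_sum, Finset.sum_const, Finset.card_range,
      nsmul_eq_mul]
    have h4 := geom_sum_le hη1 N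
    have h5 : 4 * θ * ∑ j ∈ Finset.range N, (η⁻¹) ^ (j + 1) ≤ 4 * θ * (1 / (η - 1)) := by
      gcongr
    have e : 4 * θ * (1 / (η - 1)) = 4 * θ / (η - 1) := by ring
    rw [e] at h5
    linarith
  unfold gfun
  rw [norm_mul, norm_mul, norm_prod, norm_prod, norm_prod]
  simp only [norm_prod]
  have hP1 : Real.exp (-(((k + 1 : ℕ) : ℝ) * (4 * θ / (η - 1) + 8 * K)) / ((θ - 1) / (θ + 1))) ≤
      ∏ a : Fin (k + 1), ∏ j ∈ Finset.range n, ‖bl (w a) (φ^[j + 1] (w i))‖ := by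
    rw [← Finset.prod_product' Finset.univ (Finset.range n)
      (fun a j => ‖bl (w a) (φ^[j + 1] (w i))‖)]
    refine le_trans ?_ (prod_lower _ _ hx0 ?_ ?_)
    · apply Real.exp_le_exp.2
      apply div_le_div_of_nonneg_right _ hx0.le
      apply neg_le_neg
      rw [Finset.sum_product]
      calc ∑ a : Fin (k + 1), ∑ j ∈ Finset.range n, (1 - ‖bl (w a) (φ^[j + 1] (w i))‖)
          ≤ ∑ a : Fin (k + 1), (4 * θ / (η - 1) + 8 * K) := by
            apply Finset.sum_le_sum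
            intro a _
            refine le_trans (Finset.sum_le_sum fun j _ => ?_) (hsum (1 - ‖w a‖) n (hn a))
            exact (term_bounds (hw a) (hw i) (iter_w_lt hm hw (j + 1) i) hθ hη (h1 a i) (h2 a) j
              (hiter (j + 1) (w i) (hw i))).2
        _ = _ := by
            rw [Finset.sum_const, Finset.card_univ, Fintype.card_fin, nsmul_eq_mul]
    · rintro ⟨a, j⟩ _
      exact (term_bounds (hw a) (hw i) (iter_w_lt hm hw (j + 1) i) hθ hη (h1 a i) (h2 a) j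
              (hiter (j + 1) (w i) (hw i))).1
    · rintro ⟨a, j⟩ _
      exact (bl_norm_lt (hw a) (iter_w_lt hm hw (j + 1) i)).le
  have hP2 : Real.exp (-(((k + 1 : ℕ) : ℝ) * (4 * θ / (η - 1) + 8 * K)) / ((θ - 1) / (θ + 1))) ≤
      ∏ a : Fin (k + 1), ∏ j ∈ Finset.range m, ‖bl (φ^[j + 1] (w a)) (w i)‖ := by
    have hsy : ∀ a j, ‖bl (φ^[j + 1] (w a)) (w i)‖ = ‖bl (w i) (φ^[j + 1] (w a))‖ := fun a j =>
      bl_symm (iter_w_lt hm hw (j + 1) a) (hw i)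
    simp only [hsy]
    rw [← Finset.prod_product' Finset.univ (Finset.range m)
      (fun a j => ‖bl (w i) (φ^[j + 1] (w a))‖)]
    refine le_trans ?_ (prod_lower _ _ hx0 ?_ ?_)
    · apply Real.exp_le_exp.2
      apply div_le_div_of_nonneg_right _ hx0.le
      apply neg_le_neg
      rw [Finset.sum_product]
      calc ∑ a : Fin (k + 1), ∑ j ∈ Finset.range m, (1 - ‖bl (w i) (φ^[j + 1] (w a))‖)
          ≤ ∑ a : Fin (k + 1), (4 * θ / (η - 1) + 8 * K) := by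
            apply Finset.sum_le_sum
            intro a _
            refine le_trans (Finset.sum_le_sum fun j _ => ?_) (hsum (1 - ‖w i‖) m (hmK i))
            exact (term_bounds (hw i) (hw a) (iter_w_lt hm hw (j + 1) a) hθ hη (h1 i a) (h2 i) j
              (hiter (j + 1) (w a) (hw a))).2
        _ = _ := by
            rw [Finset.sum_const, Finset.card_univ, Fintype.card_fin, nsmul_eq_mul]
    · rintro ⟨a, j⟩ _
      exact (term_bounds (hw i) (hw a) (iter_w_lt hm hw (j + 1) a) hθ hη (h1 i a) (h2 i) j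
              (hiter (j + 1) (w a) (hw a))).1
    · rintro ⟨a, j⟩ _
      exact (bl_norm_lt (hw i) (iter_w_lt hm hw (j + 1) a)).le
  have hP3 : (c / (2 + c)) ^ k ≤ ∏ a ∈ Finset.univ.erase i, ‖bl (w a) (w i)‖ := by
    have hcard : (Finset.univ.erase i : Finset (Fin (k + 1))).card = k := by
      rw [Finset.card_erase_of_mem (Finset.mem_univ i)]
      simp
    calc (c / (2 + c)) ^ k = ∏ _a ∈ (Finset.univ.erase i : Finset (Fin (k + 1))), (c / (2 + c)) := by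
          rw [Finset.prod_const, hcard]
      _ ≤ _ := by
          apply Finset.prod_le_prod
          · intro a _; positivity
          · intro a ha
            exact bl_sep (hw a) (hw i) hc (h3 a i (Finset.ne_of_mem_erase ha))
  have hq3 : 0 ≤ (c / (2 + c)) ^ k := by positivity
  have hP1' : 0 ≤ ∏ a : Fin (k + 1), ∏ j ∈ Finset.range n, ‖bl (w a) (φ^[j + 1] (w i))‖ :=
    Finset.prod_nonneg fun _ _ => Finset.prod_nonneg fun _ _ => norm_nonneg _
  have hP2' : 0 ≤ ∏ a : Fin (k + 1), ∏ j ∈ Finset.range m, ‖bl (φ^[j + 1] (w a)) (w i)‖ :=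
    Finset.prod_nonneg fun _ _ => Finset.prod_nonneg fun _ _ => norm_nonneg _
  gcongr

/-- Iterating `l u = f + u ∘ φ`. -/
theorem iterate_eq {φ : ℂ → ℂ} (hm : MapsTo φ (ball (0 : ℂ) 1) (ball 0 1)) {l : ℂ} {u f : ℂ → ℂ}
    (h : ∀ z ∈ ball (0 : ℂ) 1, l * u z = f z + u (φ z)) (m : ℕ) {z : ℂ}
    (hz : z ∈ ball (0 : ℂ) 1) :
    l ^ m * u z = ∑ j ∈ Finset.range m, l ^ (m - 1 - j) * f (φ^[j] z) + u (φ^[m] z) := by
  induction m with
  | zero => simp
  | succ m ih =>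
    rw [pow_succ', mul_assoc, ih, mul_add, h _ (iter_maps hm m hz), Finset.sum_range_succ,
      Finset.mul_sum, Function.iterate_succ_apply']
    have e : ∑ i ∈ Finset.range m, l * (l ^ (m - 1 - i) * f (φ^[i] z)) =
        ∑ i ∈ Finset.range m, l ^ (m + 1 - 1 - i) * f (φ^[i] z) := by
      apply Finset.sum_congr rfl
      intro i hi
      have : m + 1 - 1 - i = (m - 1 - i) + 1 := by
        have := Finset.mem_range.1 hi
        omega
      rw [this, pow_succ']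
      ring
    rw [e]
    have : m + 1 - 1 - m = 0 := by omega
    rw [this, pow_zero, one_mul]
    ring

end Pool.Agent.Helper156.Ess
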