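import Mathlib
import Pool.Agent.Helper156.Ess.Core

set_option autoImplicit false

open Complex Metric Set Filter MeasureTheory
open scoped Real Topology ComplexConjugate NNReal ENNReal

namespace Pool.Agent.Helper156.Ess

theorem norm_ker_self {w : ℂ} (hw : ‖w‖ < 1) :
    1 / Real.sqrt (2 * (1 - ‖w‖)) ≤
      ‖(Real.sqrt (1 - ‖w‖ ^ 2) : ℂ) / (1 - conj w * w)‖ := by
  have h0 := norm_nonneg w
  have hs : 0 < 1 - ‖w‖ ^ 2 := by nlinarith
  have e : (1 : ℂ) - conj w * w = ((1 - ‖w‖ ^ 2 : ℝ) : ℂ) := by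
    rw [mul_comm, Complex.mul_conj, Complex.normSq_eq_norm_sq]
    push_cast
    ring
  rw [e, norm_div, Complex.norm_real, Complex.norm_real, Real.norm_of_nonneg (Real.sqrt_nonneg _),
    Real.norm_of_nonneg hs.le]
  have hsq : 0 < Real.sqrt (1 - ‖w‖ ^ 2) := Real.sqrt_pos.2 hs
  have e2 : Real.sqrt (1 - ‖w‖ ^ 2) / (1 - ‖w‖ ^ 2) = 1 / Real.sqrt (1 - ‖w‖ ^ 2) := by
    rw [div_eq_div_iff hs.ne' hsq.ne', one_mul]
    exact Real.mul_self_sqrt hs.le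
  rw [e2]
  apply one_div_le_one_div_of_le hsq
  apply Real.sqrt_le_sqrt
  nlinarith

/-- The final norm estimate, in real numbers. -/
theorem final_est {cc L h β U c₃ Mk : ℝ} {n : ℕ} (hL0 : 0 < L) (hL1 : L ≤ 1) (hh : 0 < h)
    (hc3 : 0 < c₃) (hcc : 1 / 2 * (c₃ / Real.sqrt h) / L ^ (n + 1) ≤ cc)
    (h1 : cc ^ 2 * (1 - β ^ 2) ≤ U ^ 2) (hU0 : 0 ≤ U) (hU : U ≤ Mk) (hβ : β ^ 2 ≤ 1) :
    1 - β ^ 2 ≤ 4 * Mk ^ 2 / c₃ ^ 2 * L ^ (2 * n) * h := by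
  have hs : 0 < Real.sqrt h := Real.sqrt_pos.2 hh
  have hsq : Real.sqrt h ^ 2 = h := Real.sq_sqrt hh.le
  set A := 1 / 2 * (c₃ / Real.sqrt h) / L ^ (n + 1) with hA
  have hA0 : 0 < A := by positivity
  have h2 : A ^ 2 * (1 - β ^ 2) ≤ Mk ^ 2 := by
    calc A ^ 2 * (1 - β ^ 2) ≤ cc ^ 2 * (1 - β ^ 2) := by
          have : 0 ≤ 1 - β ^ 2 := by linarith
          gcongr
      _ ≤ U ^ 2 := h1
      _ ≤ Mk ^ 2 := by gcongr
  have hA2 : A ^ 2 = c₃ ^ 2 / (4 * h * L ^ (2 * n) * L ^ 2) := by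
    rw [hA, div_pow, mul_pow, div_pow, div_pow, hsq]
    have : (L ^ (n + 1)) ^ 2 = L ^ (2 * n) * L ^ 2 := by ring
    rw [this]
    field_simp
    norm_num
  have h3 : 1 - β ^ 2 ≤ Mk ^ 2 / A ^ 2 := by
    rw [le_div_iff₀ (by positivity)]
    linarith
  refine h3.trans ?_
  rw [hA2]
  have h4 : Mk ^ 2 / (c₃ ^ 2 / (4 * h * L ^ (2 * n) * L ^ 2)) =
      (4 * Mk ^ 2 / c₃ ^ 2 * L ^ (2 * n) * h) * L ^ 2 := by
    field_simp
  rw [h4]
  have h5 : 0 ≤ 4 * Mk ^ 2 / c₃ ^ 2 * L ^ (2 * n) * h := by positivity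
  have h6 : L ^ 2 ≤ 1 := pow_le_one₀ hL0.le hL1
  nlinarith

/-- Existence of the threshold for the tail estimate. -/
theorem exists_threshold {L η θ : ℝ} (hL0 : 0 < L) (hL1 : L < 1) (hη : 1 < η) {A : ℝ}
    (hA : 0 < A) (B : ℝ) : ∃ I₀ : ℕ, ∀ I ≥ I₀, B * L ^ I ≤ A ∧ θ * (I + 1) ≤ 2 * η ^ (I / 3) := by
  have h1 : Tendsto (fun I : ℕ => B * L ^ I) atTop (𝓝 (B * 0)) :=
    (tendsto_pow_atTop_nhds_zero_of_lt_one hL0.le hL1).const_mul B
  rw [mul_zero] at h1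
  have h2 : ∀ᶠ I : ℕ in atTop, B * L ^ I ≤ A := (h1.eventually (gt_mem_nhds hA)).mono fun _ h => h.le
  have h3 : ∀ᶠ I : ℕ in atTop, θ * (I + 1) ≤ 2 * η ^ (I / 3) := by
    have h4 : Tendsto (fun J : ℕ => (J : ℝ) / η ^ J) atTop (𝓝 0) := by
      have := tendsto_self_mul_const_pow_of_lt_one (r := η⁻¹) (by positivity)
        (inv_lt_one_of_one_lt₀ hη)
      refine this.congr fun J => ?_
      rw [inv_pow, div_eq_mul_inv]
    have h5 : Tendsto (fun J : ℕ => 1 / η ^ J) atTop (𝓝 0) := by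
      have := tendsto_pow_atTop_nhds_zero_of_lt_one (r := η⁻¹) (by positivity)
        (inv_lt_one_of_one_lt₀ hη)
      refine this.congr fun J => ?_
      rw [inv_pow, one_div]
    have h6 : Tendsto (fun J : ℕ => |θ| * (3 * ((J : ℝ) / η ^ J) + 3 * (1 / η ^ J))) atTop
        (𝓝 (|θ| * (3 * 0 + 3 * 0))) := ((h4.const_mul 3).add (h5.const_mul 3)).const_mul _
    simp only [mul_zero, add_zero] at h6
    have h7 : ∀ᶠ J : ℕ in atTop, |θ| * (3 * ((J : ℝ) / η ^ J) + 3 * (1 / η ^ J)) ≤ 2 :=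
      (h6.eventually (gt_mem_nhds (by norm_num : (0 : ℝ) < 2))).mono fun _ h => h.le
    have h8 : Tendsto (fun I : ℕ => I / 3) atTop atTop := Nat.tendsto_div_const_atTop (by norm_num)
    filter_upwards [h8.eventually h7] with I hI
    have hp : 0 < η ^ (I / 3) := by positivity
    have e : |θ| * (3 * (((I / 3 : ℕ) : ℝ) / η ^ (I / 3)) + 3 * (1 / η ^ (I / 3))) =
        |θ| * (3 * ((I / 3 : ℕ) : ℝ) + 3) / η ^ (I / 3) := by
      field_simp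
    rw [e, div_le_iff₀ hp] at hI
    refine le_trans ?_ hI
    have h9 : (I : ℝ) + 1 ≤ 3 * ((I / 3 : ℕ) : ℝ) + 3 := by
      have : I + 1 ≤ 3 * (I / 3) + 3 := by omega
      exact_mod_cast this
    calc θ * (I + 1) ≤ |θ| * (I + 1) := by
          gcongr
          exact le_abs_self θ
      _ ≤ |θ| * (3 * ((I / 3 : ℕ) : ℝ) + 3) := by gcongr
  obtain ⟨I₀, hI₀⟩ := eventually_atTop.1 (h2.and h3)
  exact ⟨I₀, hI₀⟩

/-- Main configuration estimate. -/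
theorem config {φ : ℂ → ℂ} (hφ : DifferentiableOn ℂ φ (ball 0 1))
    (hm : MapsTo φ (ball (0 : ℂ) 1) (ball 0 1)) (h0 : φ 0 = 0) (T : H2 →L[ℂ] H2)
    (hT : ∀ f : H2, ∀ z ∈ ball (0 : ℂ) 1, ev (T f) z = ev f (φ z))
    {q η : ℝ} (hq0 : 0 < q) (hq1 : q < 1) (hη : 1 < η)
    (hi1 : ∀ z : ℂ, ‖z‖ ≤ 1 / 2 → ‖φ z‖ ≤ q * ‖z‖)
    (hi2 : ∀ z : ℂ, 1 / 2 ≤ ‖z‖ → ‖z‖ < 1 → η * (1 - ‖z‖) ≤ 1 - ‖φ z‖)
    {l : ℂ} (hl0 : l ≠ 0) (hl1 : ‖l‖ < 1) (hlS : ∀ j : ℕ, l ≠ (deriv φ 0) ^ j)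
    {M : ℝ} {k : ℕ} (hM : 0 < M)
    (hsolve : ∀ f : Fin (k + 1) → H2, ∃ c : Fin (k + 1) → ℂ,
      (∃ i, ‖c i‖ = 1) ∧ (∀ i, ‖c i‖ ≤ 1) ∧
      ∃ u : H2, l • u - T u = ∑ i, c i • f i ∧ ‖u‖ ≤ M * ‖∑ i, c i • f i‖)
    {θ : ℝ} (hθ : 1 < θ) (hηθ : η = θ ^ 2) {c : ℝ} (hc : 0 < c) :
    ∃ C > 0, ∀ n : ℕ, ∃ δ > 0, ∀ w : Fin (k + 1) → ℂ,
      (∀ i, ‖w i‖ < 1 ∧ 1 - ‖w i‖ < δ) → (∀ i j, 1 - ‖w i‖ ≤ θ * (1 - ‖w j‖)) →
      (∀ i j, i ≠ j → c * (1 - ‖w i‖) ≤ ‖w i - w j‖) →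
      ∃ i, ∀ F : Finset ℂ, (∀ z ∈ F, ‖z‖ < 1 ∧ φ^[n] z = w i) →
        1 - (∏ z ∈ F, ‖z‖) ^ 2 ≤ C * ‖l‖ ^ (2 * n) * (1 - ‖w i‖) := by
  obtain ⟨-, hit2, hit3⟩ := iter_bounds hm hq0 hq1 hη hi1 hi2
  have hL0 : 0 < ‖l‖ := norm_pos_iff.2 hl0
  -- the order of vanishing
  obtain ⟨N, hN⟩ : ∃ N : ℕ, q ^ N ≤ ‖l‖ ^ 3 := by
    obtain ⟨N, hN⟩ := exists_pow_lt_of_lt_one (pow_pos hL0 3) hq1
    exact ⟨N, hN.le⟩
  set x₀ : ℝ := (θ - 1) / (θ + 1) with hx₀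
  set Ex : ℝ := Real.exp (-(((k + 1 : ℕ) : ℝ) * (4 * θ / (η - 1) + 8 * θ)) / x₀) with hEx
  have hExpos : 0 < Ex := Real.exp_pos _
  set c₃ : ℝ := (1 / 2) ^ N * (Ex * Ex * (c / (2 + c)) ^ k) * (1 / Real.sqrt 2) with hc₃
  have hc₃pos : 0 < c₃ := by
    have : 0 < Real.sqrt 2 := Real.sqrt_pos.2 (by norm_num)
    positivity
  obtain ⟨I₀, hI₀⟩ := exists_threshold (θ := θ) hL0 hl1 hη hc₃pos (4 * M * (k + 1))
  set Mk : ℝ := M * (k + 1) with hMk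
  refine ⟨4 * Mk ^ 2 / c₃ ^ 2, by positivity, fun n => ?_⟩
  -- choice of δ
  set δ : ℝ := min (min (1 / (I₀ + 2 : ℝ)) (1 / (n + 1 : ℝ))) (min (1 / (2 * θ)) (1 / 2)) with hδ
  have hδpos : 0 < δ := by
    rw [hδ]
    refine lt_min (lt_min (by positivity) (by positivity)) (lt_min (by positivity) (by norm_num))
  refine ⟨δ, hδpos, fun w hw1 hwθ hwc => ?_⟩
  have hw : ∀ a, ‖w a‖ < 1 := fun a => (hw1 a).1
  have hwδ1 : ∀ a, 1 - ‖w a‖ < 1 / (I₀ + 2 : ℝ) := fun a =>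
    (hw1 a).2.trans_le ((min_le_left _ _).trans (min_le_left _ _))
  have hwδ2 : ∀ a, 1 - ‖w a‖ < 1 / (n + 1 : ℝ) := fun a =>
    (hw1 a).2.trans_le ((min_le_left _ _).trans (min_le_right _ _))
  have hwδ3 : ∀ a, 1 - ‖w a‖ ≤ 1 / (2 * θ) := fun a =>
    ((hw1 a).2.trans_le ((min_le_right _ _).trans (min_le_left _ _))).le
  have hwδ4 : ∀ a, 1 - ‖w a‖ ≤ 1 / 2 := fun a =>
    ((hw1 a).2.trans_le ((min_le_right _ _).trans (min_le_right _ _))).le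
  set h : ℝ := 1 - ‖w 0‖ with hh
  have hhpos : 0 < h := by have := hw 0; simp only [hh]; linarith
  set m : ℕ := ⌊1 / h⌋₊ with hmd
  have hm1 : (m : ℝ) ≤ 1 / h := Nat.floor_le (by positivity)
  have hm2 : 1 / h < m + 1 := Nat.lt_floor_add_one _
  have hmI : I₀ ≤ m := by
    apply Nat.le_floor
    have h2 := hwδ1 0
    have : (I₀ + 2 : ℝ) < 1 / h := by
      rw [lt_one_div (by positivity) hhpos]
      exact h2
    linarith
  obtain ⟨hI1, hI2⟩ := hI₀ m hmI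
  -- bounded factors
  have hnK : ∀ a, (n : ℝ) * (1 - ‖w a‖) ≤ θ := by
    intro a
    have h2 := (hwδ2 a).le
    have h3 : 0 ≤ 1 - ‖w a‖ := by have := hw a; linarith
    calc (n : ℝ) * (1 - ‖w a‖) ≤ (n + 1) * (1 / (n + 1 : ℝ)) := by
          gcongr
          linarith
      _ = 1 := by field_simp
      _ ≤ θ := hθ.le
  have hmK : ∀ a, (m : ℝ) * (1 - ‖w a‖) ≤ θ := by
    intro a
    have h2 := hwθ a 0
    have h3 : 0 ≤ 1 - ‖w a‖ := by have := hw a; linarith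
    calc (m : ℝ) * (1 - ‖w a‖) ≤ (1 / h) * (θ * h) := by gcongr
      _ = θ := by field_simp
  have hlow : ∀ i, Ex * Ex * (c / (2 + c)) ^ k ≤ ‖gfun φ w n m i (w i)‖ := fun i =>
    gfun_lower hm hw hθ hηθ hit2 hwθ hwδ3 hc hwc n m hnK hmK i
  -- test functions
  have htest : ∀ i, ∃ F : H2, ‖F‖ ≤ 1 ∧ (∀ j < N, F j = 0) ∧ ∀ z ∈ ball (0 : ℂ) 1,
      ev F z = z ^ N * (gfun φ w n m i z *
        ((Real.sqrt (1 - ‖w i‖ ^ 2) : ℂ) / (1 - conj (w i) * z))) := fun i =>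
    exists_test (hw i) N (gfun_diff hφ hm hw n m i) (gfun_le hm hw n m i)
  choose f hf1 hf2 hf3 using htest
  obtain ⟨cc, ⟨i, hci⟩, hcle, u, hu, huM⟩ := hsolve f
  refine ⟨i, fun F hF => ?_⟩
  set g : H2 := ∑ a, cc a • f a with hg
  have hgnorm : ‖g‖ ≤ k + 1 := by
    calc ‖g‖ ≤ ∑ a : Fin (k + 1), ‖cc a • f a‖ := norm_sum_le _ _
      _ ≤ ∑ _a : Fin (k + 1), (1 : ℝ) := by
          apply Finset.sum_le_sum
          intro a _
          rw [norm_smul]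
          exact mul_le_one₀ (hcle a) (norm_nonneg _) (hf1 a)
      _ = k + 1 := by simp
  have hgev : ∀ z ∈ ball (0 : ℂ) 1, ev g z = ∑ a, cc a * ev (f a) z := by
    intro z hz
    have hz' := mem_ball_zero_iff.1 hz
    have : ∀ s : Finset (Fin (k + 1)), ev (∑ a ∈ s, cc a • f a) z = ∑ a ∈ s, cc a * ev (f a) z := by
      intro s
      induction s using Finset.induction_on with
      | empty => simp [ev]
      | insert a s has ih =>
        rw [Finset.sum_insert has, Finset.sum_insert has, ev_add _ _ hz', ev_smul, ih]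
    exact this Finset.univ
  have hgcoef : ∀ j < N, g j = 0 := by
    intro j hj
    have : ∀ s : Finset (Fin (k + 1)), (∑ a ∈ s, cc a • f a : H2) j = 0 := by
      intro s
      induction s using Finset.induction_on with
      | empty => simp
      | insert a s has ih =>
        rw [Finset.sum_insert has, lp.coeFn_add, Pi.add_apply, ih, lp.coeFn_smul, Pi.smul_apply,
          hf2 a j hj]
        simp
    exact this Finset.univ
  have hucoef : ∀ j < N, u j = 0 := order_lemma hφ hm h0 T hT l hlS u g hu N hgcoef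
  have huM' : ‖u‖ ≤ Mk := by
    calc ‖u‖ ≤ M * ‖g‖ := huM
      _ ≤ M * (k + 1) := by gcongr
  have heq : ∀ z ∈ ball (0 : ℂ) 1, l * ev u z = ev g z + ev u (φ z) := by
    intro z hz
    rw [← hu, ev_sub _ _ (mem_ball_zero_iff.1 hz), ev_smul, hT u z hz]
    ring
  have hwi : w i ∈ ball (0 : ℂ) 1 := mem_ball_zero_iff.2 (hw i)
  -- g vanishes along the orbits
  have hgz1 : ∀ z ∈ F, ∀ j < n, ev g (φ^[j] z) = 0 := by
    intro z hz j hj
    have hzb : z ∈ ball (0 : ℂ) 1 := mem_ball_zero_iff.2 (hF z hz).1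
    rw [hgev _ (iter_maps hm j hzb)]
    apply Finset.sum_eq_zero
    intro a _
    rw [hf3 a _ (iter_maps hm j hzb), gfun_zero1 n m a i hj (hF z hz).2]
    ring
  have hgz2 : ∀ j < m, ev g (φ^[j + 1] (w i)) = 0 := by
    intro j hj
    rw [hgev _ (iter_maps hm (j + 1) hwi)]
    apply Finset.sum_eq_zero
    intro a _
    rw [hf3 a _ (iter_maps hm (j + 1) hwi), gfun_zero2 n m a i hj]
    ring
  -- value at w i
  have hgw : ‖ev g (w i)‖ = ‖ev (f i) (w i)‖ := by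
    rw [hgev _ hwi, Finset.sum_eq_single i]
    · rw [norm_mul, hci, one_mul]
    · intro a _ ha
      rw [hf3 a _ hwi, gfun_zero3 n m a i (Ne.symm ha)]
      ring
    · intro h; exact absurd (Finset.mem_univ i) h
  set hi : ℝ := 1 - ‖w i‖ with hhi
  have hipos : 0 < hi := by have := hw i; simp only [hhi]; linarith
  have hgw2 : c₃ / Real.sqrt hi ≤ ‖ev g (w i)‖ := by
    rw [hgw, hf3 i _ hwi, norm_mul, norm_mul, norm_pow]
    have e1 : (1 / 2 : ℝ) ^ N ≤ ‖w i‖ ^ N := by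
      have := hwδ4 i
      gcongr
      linarith
    have e2 := hlow i
    have e3 := norm_ker_self (hw i)
    have e4 : c₃ / Real.sqrt hi =
        (1 / 2) ^ N * ((Ex * Ex * (c / (2 + c)) ^ k) * (1 / Real.sqrt (2 * (1 - ‖w i‖)))) := by
      rw [hc₃, Real.sqrt_mul (by norm_num : (0 : ℝ) ≤ 2), ← hhi]
      field_simp
    rw [e4]
    gcongr
  have hgw3 : c₃ ≤ ‖ev g (w i)‖ := by
    refine le_trans ?_ hgw2
    rw [le_div_iff₀ (Real.sqrt_pos.2 hipos)]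
    have : Real.sqrt hi ≤ 1 := by
      apply Real.sqrt_le_one.2
      have := hwδ4 i
      linarith
    nlinarith
  -- the tail
  set p : ℂ := φ^[m + 1] (w i) with hp
  have hptail : ‖p‖ ^ N ≤ ‖l‖ ^ (2 * m) ∧ ‖p‖ ≤ 1 / 2 := by
    set J : ℕ := m / 3 with hJ
    have h5 : (1 / 2 : ℝ) ≤ η ^ J * (1 - ‖w i‖) := by
      have h6 := hwθ 0 i
      have h7 : 1 ≤ (m + 1) * (θ * (1 - ‖w i‖)) := by
        calc (1 : ℝ) = 1 / h * h := by field_simp
          _ ≤ (m + 1) * (θ * (1 - ‖w i‖)) := by gcongr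
      have h8 : 0 ≤ 1 - ‖w i‖ := hipos.le
      nlinarith
    have h9 : ‖φ^[J] (w i)‖ ≤ 1 / 2 := by
      have := hit2 J (w i) (hw i)
      rw [min_eq_right h5] at this
      linarith
    have h10 : p = φ^[m + 1 - J] (φ^[J] (w i)) := by
      rw [← Function.iterate_add_apply, hp]
      congr 1
      have : J ≤ m := Nat.div_le_self m 3
      omega
    have h11 : ‖p‖ ≤ q ^ (m + 1 - J) * ‖φ^[J] (w i)‖ := by
      rw [h10]
      exact hit3 _ _ h9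
    have hqp : q ^ (m + 1 - J) ≤ 1 := pow_le_one₀ hq0.le hq1.le
    have hqp0 : 0 ≤ q ^ (m + 1 - J) := by positivity
    have h12 : ‖p‖ ≤ q ^ (m + 1 - J) := by
      refine h11.trans ?_
      nlinarith [norm_nonneg (φ^[J] (w i))]
    constructor
    · calc ‖p‖ ^ N ≤ (q ^ (m + 1 - J)) ^ N := by gcongr
        _ = (q ^ N) ^ (m + 1 - J) := by rw [← pow_mul, ← pow_mul, mul_comm]
        _ ≤ (‖l‖ ^ 3) ^ (m + 1 - J) := by gcongr
        _ = ‖l‖ ^ (3 * (m + 1 - J)) := by rw [← pow_mul]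
        _ ≤ ‖l‖ ^ (2 * m) := by
            apply pow_le_pow_of_le_one hL0.le hl1.le
            omega
    · refine h11.trans ?_
      nlinarith [norm_nonneg (φ^[J] (w i))]
  have htail : ‖ev u p‖ ≤ 1 / 2 * (‖l‖ ^ m * ‖ev g (w i)‖) := by
    have h5 := ev_small u N hucoef hptail.2
    have h6 : ‖ev u p‖ ≤ 2 * ‖l‖ ^ (2 * m) * Mk := by
      refine h5.trans ?_
      have := hptail.1
      gcongr
    refine h6.trans ?_
    have e : 2 * ‖l‖ ^ (2 * m) * Mk = 1 / 2 * (‖l‖ ^ m * (4 * M * (k + 1) * ‖l‖ ^ m)) := by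
      rw [hMk]; ring
    rw [e]
    gcongr
    exact hI1.trans hgw3
  -- u is constant on F
  set c₀ : ℂ := (l ^ m * ev g (w i) + ev u p) / l ^ (n + m + 1) with hc₀
  have hconst : ∀ z ∈ F, ‖z‖ < 1 ∧ ev u z = c₀ := by
    intro z hz
    have hzb : z ∈ ball (0 : ℂ) 1 := mem_ball_zero_iff.2 (hF z hz).1
    refine ⟨(hF z hz).1, ?_⟩
    have h5 := iterate_eq hm heq (n + m + 1) hzb
    have h6 : φ^[n + m + 1] z = p := by
      have : n + m + 1 = (m + 1) + n := by omega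
      rw [this, Function.iterate_add_apply, (hF z hz).2]
    have h7 : ∑ j ∈ Finset.range (n + m + 1), l ^ (n + m + 1 - 1 - j) * ev g (φ^[j] z) =
        l ^ m * ev g (w i) := by
      rw [Finset.sum_eq_single n]
      · rw [(hF z hz).2]
        congr 2
        omega
      · intro j hj hjn
        rcases lt_or_gt_of_ne hjn with h | h
        · rw [hgz1 z hz j h, mul_zero]
        · have : φ^[j] z = φ^[(j - n - 1) + 1] (w i) := by
            rw [← (hF z hz).2, ← Function.iterate_add_apply]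
            congr 1
            omega
          rw [this, hgz2 (j - n - 1) (by have := Finset.mem_range.1 hj; omega), mul_zero]
      · intro h
        exact absurd (Finset.mem_range.2 (by omega)) h
    rw [h6, h7] at h5
    rw [hc₀, eq_div_iff (pow_ne_zero _ hl0), mul_comm]
    exact h5
  have hcb := const_bound u F c₀ hconst
  have hc₀norm : 1 / 2 * (c₃ / Real.sqrt hi) / ‖l‖ ^ (n + 1) ≤ ‖c₀‖ := by
    rw [hc₀, norm_div, norm_pow]
    have h5 : 1 / 2 * (‖l‖ ^ m * ‖ev g (w i)‖) ≤ ‖l ^ m * ev g (w i) + ev u p‖ := by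
      have h6 : ‖l ^ m * ev g (w i)‖ - ‖ev u p‖ ≤ ‖l ^ m * ev g (w i) + ev u p‖ := by
        have := norm_sub_norm_le (l ^ m * ev g (w i)) (-ev u p)
        simpa using this
      rw [norm_mul, norm_pow] at h6
      linarith
    have e : 1 / 2 * (c₃ / Real.sqrt hi) / ‖l‖ ^ (n + 1) =
        1 / 2 * (‖l‖ ^ m * (c₃ / Real.sqrt hi)) / ‖l‖ ^ (n + m + 1) := by
      have : ‖l‖ ^ (n + m + 1) = ‖l‖ ^ m * ‖l‖ ^ (n + 1) := by ring
      rw [this]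
      field_simp
    rw [e]
    apply div_le_div_of_nonneg_right _ (by positivity)
    refine le_trans ?_ h5
    gcongr
  have hβ1 : (∏ z ∈ F, ‖z‖) ^ 2 ≤ 1 := by
    apply pow_le_one₀ (Finset.prod_nonneg fun _ _ => norm_nonneg _)
    exact Finset.prod_le_one (fun _ _ => norm_nonneg _) fun z hz => (hF z hz).1.le
  exact final_est hL0 hl1.le hipos hc₃pos hc₀norm hcb (norm_nonneg u) huM' hβ1

end Pool.Agent.Helper156.Ess
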