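import Mathlib

set_option autoImplicit false

open Complex Metric Set Filter MeasureTheory
open scoped Real Topology ComplexConjugate NNReal ENNReal

namespace Pool.Agent.Helper156.Ess

/-- Counting function: the sum of `log (1/|z|)` over the distinct preimages `z` of `w`. -/
noncomputable def cnt (ψ : ℂ → ℂ) (w : ℂ) : ℝ≥0∞ :=
  ∑' z : {z : ℂ // z ∈ ball (0 : ℂ) 1 ∧ ψ z = w}, ENNReal.ofReal (-Real.log ‖(z : ℂ)‖)

theorem polar_sm (g : ℂ → ℝ≥0∞) (hg : Measurable g) (t : ℝ) :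
    ∫⁻ ζ in ball (0:ℂ) t, g ζ =
      ∫⁻ s in Ioo (0:ℝ) t, ENNReal.ofReal s * ∫⁻ φ in Ioo (-π) π, g (circleMap 0 s φ) := by
  have hcirc : ∀ p : ℝ × ℝ, Complex.polarCoord.symm p = circleMap 0 p.1 p.2 := by
    intro p
    rw [Complex.polarCoord_symm_apply, circleMap_zero, Complex.exp_mul_I]
    push_cast; ring
  have hmeas : Measurable (fun p : ℝ × ℝ => circleMap 0 p.1 p.2) := by
    unfold circleMap
    fun_prop
  have hm2 : Measurable (fun p : ℝ × ℝ => ENNReal.ofReal p.1 •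
      (ball (0:ℂ) t).indicator g (circleMap 0 p.1 p.2)) := by
    refine Measurable.smul (f := fun p : ℝ × ℝ => ENNReal.ofReal p.1)
      (g := fun p : ℝ × ℝ => (ball (0:ℂ) t).indicator g (circleMap 0 p.1 p.2)) ?_ ?_
    · fun_prop
    · exact (hg.indicator measurableSet_ball).comp hmeas
  rw [← lintegral_indicator measurableSet_ball, ← Complex.lintegral_comp_polarCoord_symm]
  simp only [hcirc]
  rw [show polarCoord.target = Ioi (0:ℝ) ×ˢ Ioo (-π) π from rfl, Measure.volume_eq_prod,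
    ← Measure.prod_restrict, lintegral_prod _ hm2.aemeasurable,
    ← lintegral_indicator measurableSet_Ioi, ← lintegral_indicator measurableSet_Ioo]
  refine lintegral_congr fun s => ?_
  by_cases hs : 0 < s
  · rw [indicator_of_mem (mem_Ioi.2 hs)]
    by_cases hst : s < t
    · rw [indicator_of_mem (mem_Ioo.2 ⟨hs, hst⟩)]
      simp only
      rw [← lintegral_const_mul' _ _ ENNReal.ofReal_ne_top]
      refine lintegral_congr fun φ => ?_
      rw [indicator_of_mem, smul_eq_mul]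
      simp [abs_of_pos hs, hst]
    · rw [indicator_of_notMem (fun h => hst (mem_Ioo.1 h).2)]
      simp only
      have : ∀ φ : ℝ, ENNReal.ofReal s • (ball (0:ℂ) t).indicator g (circleMap 0 s φ) = 0 := by
        intro φ
        rw [indicator_of_notMem, smul_zero]
        simp [abs_of_pos hs, not_lt.1 hst]
      simp only [this, lintegral_zero]
  · rw [indicator_of_notMem (fun h => hs (mem_Ioi.1 h)),
      indicator_of_notMem (fun h => hs (mem_Ioo.1 h).1)]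

theorem inner_sm (a : ℂ) (s K : ℝ) (hs : 0 < s)
    (hK : ∀ φ, 0 ≤ K - Real.log ‖circleMap 0 s φ - a‖) :
    ∫⁻ φ in Ioo (-π) π, ENNReal.ofReal (K - Real.log ‖circleMap 0 s φ - a‖) =
      ENNReal.ofReal (2 * π * (K - (Real.log s + Real.posLog (s⁻¹ * ‖a‖)))) := by
  have hper : Function.Periodic (fun φ : ℝ => Real.log ‖circleMap 0 s φ - a‖) (2 * π) := by
    intro φ
    simp only [periodic_circleMap 0 s φ]
  have hi0 : IntervalIntegrable (fun φ : ℝ => Real.log ‖circleMap 0 s φ - a‖) volume 0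
      (0 + 2 * π) := by
    rw [zero_add]
    exact circleIntegrable_log_norm_sub_const (a := a) (c := 0) s
  have hi : IntervalIntegrable (fun φ : ℝ => Real.log ‖circleMap 0 s φ - a‖) volume (-π) π :=
    hper.intervalIntegrable Real.two_pi_pos.ne' hi0 _ _
  have hint : IntervalIntegrable (fun φ : ℝ => K - Real.log ‖circleMap 0 s φ - a‖) volume
      (-π) π := (intervalIntegrable_const).sub hi
  have hpi : -π ≤ π := by linarith [Real.pi_pos]
  rw [Measure.restrict_congr_set (Ioo_ae_eq_Ioc (μ := volume) (a := -π) (b := π)),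
    ← ofReal_integral_eq_lintegral_ofReal
      ((intervalIntegrable_iff_integrableOn_Ioc_of_le hpi).1 hint)
      (Eventually.of_forall fun φ => hK φ),
    ← intervalIntegral.integral_of_le hpi,
    intervalIntegral.integral_sub intervalIntegrable_const hi, intervalIntegral.integral_const]
  congr 1
  have h1 := hper.intervalIntegral_add_eq (-π) 0
  rw [show -π + 2 * π = π by ring, zero_add] at h1
  rw [h1]
  have h2 := circleAverage_log_norm_sub_const_eq_log_radius_add_posLog (a := a) (c := 0) hs.ne'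
  rw [zero_sub, norm_neg] at h2
  rw [← h2]
  unfold Real.circleAverage
  simp only [smul_eq_mul]
  have hp : (π:ℝ) ≠ 0 := Real.pi_ne_zero
  field_simp
  ring

theorem P1_sm (a : ℂ) (ha : a ≠ 0) (t K : ℝ)
    (hK : ∀ ζ ∈ ball (0:ℂ) t, 0 ≤ K - Real.log ‖ζ - a‖) :
    ∫⁻ ζ in ball (0:ℂ) t, ENNReal.ofReal (K - Real.log ‖ζ - a‖) ≤
      ENNReal.ofReal (K - Real.log ‖a‖) * volume (ball (0:ℂ) t) := by
  have hm : Measurable (fun ζ : ℂ => ENNReal.ofReal (K - Real.log ‖ζ - a‖)) := by fun_prop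
  have h1 : ENNReal.ofReal (K - Real.log ‖a‖) * volume (ball (0:ℂ) t) =
      ∫⁻ ζ in ball (0:ℂ) t, ENNReal.ofReal (K - Real.log ‖a‖) := (setLIntegral_const _ _).symm
  rw [h1, polar_sm _ hm, polar_sm _ measurable_const]
  refine setLIntegral_mono' measurableSet_Ioo fun s hs => ?_
  refine mul_le_mul_right ?_ _
  have hcirc : ∀ φ, circleMap 0 s φ ∈ ball (0:ℂ) t := by
    intro φ; simp [abs_of_pos hs.1, hs.2]
  rw [inner_sm a s K hs.1 (fun φ => hK _ (hcirc φ)), setLIntegral_const, Real.volume_Ioo,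
    ← ENNReal.ofReal_mul' (by linarith [Real.pi_pos])]
  refine ENNReal.ofReal_le_ofReal ?_
  have hna : 0 < ‖a‖ := norm_pos_iff.2 ha
  have h2 : Real.log ‖a‖ ≤ Real.log s + Real.posLog (s⁻¹ * ‖a‖) := by
    have h3 : Real.log (s⁻¹ * ‖a‖) ≤ Real.posLog (s⁻¹ * ‖a‖) := by
      unfold Real.posLog; exact le_max_right _ _
    rw [Real.log_mul (inv_ne_zero hs.1.ne') hna.ne', Real.log_inv] at h3
    linarith
  have hpi := Real.pi_pos
  nlinarith

theorem P2_sm (a : ℂ) (t K : ℝ) (hta : t ≤ ‖a‖)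
    (hK : ∀ ζ ∈ ball (0:ℂ) t, 0 ≤ K - Real.log ‖ζ - a‖) :
    ENNReal.ofReal (K - Real.log ‖a‖) * volume (ball (0:ℂ) t) ≤
    ∫⁻ ζ in ball (0:ℂ) t, ENNReal.ofReal (K - Real.log ‖ζ - a‖) := by
  have hm : Measurable (fun ζ : ℂ => ENNReal.ofReal (K - Real.log ‖ζ - a‖)) := by fun_prop
  have h1 : ENNReal.ofReal (K - Real.log ‖a‖) * volume (ball (0:ℂ) t) =
      ∫⁻ ζ in ball (0:ℂ) t, ENNReal.ofReal (K - Real.log ‖a‖) := (setLIntegral_const _ _).symm
  rw [h1, polar_sm _ hm, polar_sm _ measurable_const]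
  refine setLIntegral_mono' measurableSet_Ioo fun s hs => ?_
  refine mul_le_mul_right ?_ _
  have hcirc : ∀ φ, circleMap 0 s φ ∈ ball (0:ℂ) t := by
    intro φ; simp [abs_of_pos hs.1, hs.2]
  rw [inner_sm a s K hs.1 (fun φ => hK _ (hcirc φ)), setLIntegral_const, Real.volume_Ioo,
    ← ENNReal.ofReal_mul' (by linarith [Real.pi_pos])]
  refine ENNReal.ofReal_le_ofReal ?_
  have hna : 0 < ‖a‖ := by linarith [hs.1, hs.2]
  have h2 : Real.log s + Real.posLog (s⁻¹ * ‖a‖) = Real.log ‖a‖ := by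
    have h4 : 1 ≤ |s⁻¹ * ‖a‖| := by
      rw [abs_of_pos (by have := hs.1; positivity), ← div_eq_inv_mul, one_le_div hs.1]
      linarith [hs.2]
    rw [Real.posLog_eq_log h4, Real.log_mul (inv_ne_zero hs.1.ne') hna.ne', Real.log_inv]
    ring
  rw [h2]
  have hpi := Real.pi_pos
  nlinarith

theorem shift_sm (w₀ : ℂ) (t : ℝ) (F : ℂ → ℝ≥0∞) :
    ∫⁻ w in ball w₀ t, F w = ∫⁻ ζ in ball (0:ℂ) t, F (ζ + w₀) := by
  have h1 := (measurePreserving_add_right (volume : Measure ℂ) w₀).setLIntegral_comp_preimage_emb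
    (measurableEmbedding_addRight w₀) F (ball w₀ t)
  have h2 : (fun x : ℂ => x + w₀) ⁻¹' ball w₀ t = ball 0 t := by
    ext x; simp [dist_eq_norm]
  rw [h2] at h1
  exact h1.symm

open MeromorphicOn in
/-- the Jensen sum -/
noncomputable def SR_sm (ψ : ℂ → ℂ) (R : ℝ) (w : ℂ) : ℝ :=
  ∑ᶠ u, (divisor (fun z => ψ z - w) (closedBall (0:ℂ) |R|) u : ℝ) * Real.log (R * ‖0 - u‖⁻¹)

theorem ana_sm {ψ : ℂ → ℂ} (hψ : DifferentiableOn ℂ ψ (ball 0 1)) {R : ℝ} (hR0 : 0 < R)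
    (hR1 : R < 1) (w : ℂ) : AnalyticOnNhd ℂ (fun z => ψ z - w) (closedBall (0:ℂ) |R|) := by
  have h1 : AnalyticOnNhd ℂ ψ (ball 0 1) := hψ.analyticOnNhd isOpen_ball
  have h2 : closedBall (0:ℂ) |R| ⊆ ball 0 1 := by
    rw [abs_of_pos hR0]; exact closedBall_subset_ball hR1
  exact (h1.mono h2).sub analyticOnNhd_const

theorem jensen_sm {ψ : ℂ → ℂ} (hψ : DifferentiableOn ℂ ψ (ball 0 1)) (h0 : ψ 0 = 0) {R : ℝ}
    (hR0 : 0 < R) (hR1 : R < 1) {w : ℂ} (hw : w ≠ 0) :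
    Real.circleAverage (fun z => Real.log ‖ψ z - w‖) 0 R = SR_sm ψ R w + Real.log ‖w‖ := by
  have h1 := AnalyticOnNhd.circleAverage_log_norm hR0.ne' (ana_sm hψ hR0 hR1 w)
    (by simp [h0, hw])
  rw [h1, h0, zero_sub, norm_neg]
  rfl

open MeromorphicOn in
theorem ord_sm {ψ : ℂ → ℂ} (hψ : DifferentiableOn ℂ ψ (ball 0 1)) (h0 : ψ 0 = 0) {R : ℝ}
    (hR0 : 0 < R) (hR1 : R < 1) {w : ℂ} (hw : w ≠ 0) {u : ℂ} (hu : u ∈ closedBall (0:ℂ) |R|) :
    ∃ n : ℕ, analyticOrderAt (fun z => ψ z - w) u = n ∧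
      divisor (fun z => ψ z - w) (closedBall (0:ℂ) |R|) u = n := by
  have hA := ana_sm hψ hR0 hR1 w
  have h00 : (0:ℂ) ∈ closedBall (0:ℂ) |R| := by simp
  have h1 : analyticOrderAt (fun z => ψ z - w) 0 = 0 :=
    (hA 0 h00).analyticOrderAt_eq_zero.2 (by simp [h0, hw])
  have h2 : analyticOrderAt (fun z => ψ z - w) u ≠ ⊤ :=
    hA.analyticOrderAt_ne_top_of_isPreconnected (convex_closedBall _ _).isPreconnected h00 hu
      (by rw [h1]; exact ENat.zero_ne_top)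
  obtain ⟨n, hn⟩ := ENat.ne_top_iff_exists.1 h2
  refine ⟨n, hn.symm, ?_⟩
  rw [hA.divisor_apply hu, ← hn]
  rfl

open MeromorphicOn in
theorem term_nonneg_sm {ψ : ℂ → ℂ} (hψ : DifferentiableOn ℂ ψ (ball 0 1)) (h0 : ψ 0 = 0) {R : ℝ}
    (hR0 : 0 < R) (hR1 : R < 1) {w : ℂ} (hw : w ≠ 0) (u : ℂ) :
    0 ≤ (divisor (fun z => ψ z - w) (closedBall (0:ℂ) |R|) u : ℝ) *
      Real.log (R * ‖0 - u‖⁻¹) := by
  by_cases hu : u ∈ closedBall (0:ℂ) |R|
  · obtain ⟨n, -, hn⟩ := ord_sm hψ h0 hR0 hR1 hw hu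
    rw [hn]
    refine mul_nonneg (by positivity) ?_
    by_cases hu0 : u = 0
    · subst hu0; simp
    · have hnu : 0 < ‖u‖ := norm_pos_iff.2 hu0
      refine Real.log_nonneg ?_
      rw [zero_sub, norm_neg, ← div_eq_mul_inv, one_le_div hnu]
      rw [mem_closedBall, dist_zero_right, abs_of_pos hR0] at hu
      exact hu
  · rw [Function.locallyFinsuppWithin.apply_eq_zero_of_notMem _ hu]
    simp

open MeromorphicOn in
theorem supp_fin_sm (ψ : ℂ → ℂ) (R : ℝ) (w : ℂ) :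
    (Function.support (divisor (fun z => ψ z - w) (closedBall (0:ℂ) |R|))).Finite :=
  (divisor (fun z => ψ z - w) (closedBall (0:ℂ) |R|)).finiteSupport (isCompact_closedBall _ _)

open MeromorphicOn in
theorem SR_eq_sm (ψ : ℂ → ℂ) (R : ℝ) (w : ℂ) (S : Finset ℂ)
    (hS : ∀ u, divisor (fun z => ψ z - w) (closedBall (0:ℂ) |R|) u ≠ 0 → u ∈ S) :
    SR_sm ψ R w = ∑ u ∈ S, (divisor (fun z => ψ z - w) (closedBall (0:ℂ) |R|) u : ℝ) *
      Real.log (R * ‖0 - u‖⁻¹) := by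
  unfold SR_sm
  refine finsum_eq_sum_of_support_subset _ ?_
  intro u hu
  refine Finset.mem_coe.2 (hS u ?_)
  intro h
  apply hu
  simp [h]

open MeromorphicOn in
theorem SR_nonneg_sm {ψ : ℂ → ℂ} (hψ : DifferentiableOn ℂ ψ (ball 0 1)) (h0 : ψ 0 = 0) {R : ℝ}
    (hR0 : 0 < R) (hR1 : R < 1) {w : ℂ} (hw : w ≠ 0) : 0 ≤ SR_sm ψ R w := by
  rw [SR_eq_sm ψ R w (supp_fin_sm ψ R w).toFinset (fun u hu => by simpa using hu)]
  exact Finset.sum_nonneg fun u _ => term_nonneg_sm hψ h0 hR0 hR1 hw u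

open MeromorphicOn in
theorem J1_sm {ψ : ℂ → ℂ} (hψ : DifferentiableOn ℂ ψ (ball 0 1)) (h0 : ψ 0 = 0) {R : ℝ}
    (hR0 : 0 < R) (hR1 : R < 1) {w : ℂ} (hw : w ≠ 0) (F : Finset ℂ)
    (hF : ∀ z ∈ F, ψ z = w ∧ ‖z‖ < R) :
    ∑ z ∈ F, (Real.log R - Real.log ‖z‖) ≤ SR_sm ψ R w := by
  classical
  set S := (supp_fin_sm ψ R w).toFinset ∪ F with hS
  rw [SR_eq_sm ψ R w S (fun u hu => by rw [hS]; simp [hu])]
  have h1 : ∑ u ∈ F, (divisor (fun z => ψ z - w) (closedBall (0:ℂ) |R|) u : ℝ) *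
      Real.log (R * ‖0 - u‖⁻¹) ≤ ∑ u ∈ S, (divisor (fun z => ψ z - w)
        (closedBall (0:ℂ) |R|) u : ℝ) * Real.log (R * ‖0 - u‖⁻¹) :=
    Finset.sum_le_sum_of_subset_of_nonneg Finset.subset_union_right
      (fun u _ _ => term_nonneg_sm hψ h0 hR0 hR1 hw u)
  refine le_trans (Finset.sum_le_sum fun z hz => ?_) h1
  obtain ⟨hzw, hzR⟩ := hF z hz
  have hzc : z ∈ closedBall (0:ℂ) |R| := by
    rw [mem_closedBall, dist_zero_right, abs_of_pos hR0]; exact hzR.le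
  obtain ⟨n, hn1, hn2⟩ := ord_sm hψ h0 hR0 hR1 hw hzc
  have hz0 : z ≠ 0 := by
    rintro rfl
    exact hw (hzw.symm.trans h0)
  have hnz : 0 < ‖z‖ := norm_pos_iff.2 hz0
  have hn : 1 ≤ n := by
    by_contra hcon
    have hn0 : n = 0 := by omega
    rw [hn0] at hn1
    have := (ana_sm hψ hR0 hR1 w z hzc).analyticOrderAt_eq_zero.1 (by simpa using hn1)
    exact this (by simp [hzw])
  rw [hn2, zero_sub, norm_neg, Real.log_mul hR0.ne' (inv_ne_zero hnz.ne'), Real.log_inv,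
    ← sub_eq_add_neg]
  have h2 : 0 ≤ Real.log R - Real.log ‖z‖ := by
    have := Real.log_le_log hnz hzR.le
    linarith
  have h3 : (1:ℝ) ≤ n := by exact_mod_cast hn
  push_cast
  nlinarith

theorem cnt_eq_sm (ψ : ℂ → ℂ) (w : ℂ) : cnt ψ w =
    ∑' z : ℂ, ({z : ℂ | z ∈ ball (0 : ℂ) 1 ∧ ψ z = w}).indicator
      (fun z => ENNReal.ofReal (-Real.log ‖z‖)) z :=
  tsum_subtype {z : ℂ | z ∈ ball (0 : ℂ) 1 ∧ ψ z = w} (fun z => ENNReal.ofReal (-Real.log ‖z‖))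

open MeromorphicOn in
theorem J2_sm {ψ : ℂ → ℂ} (hψ : DifferentiableOn ℂ ψ (ball 0 1)) (h0 : ψ 0 = 0) {R : ℝ}
    (hR0 : 0 < R) (hR1 : R < 1) {w : ℂ} (hw : w ≠ 0)
    (hcrit : ∀ z ∈ ball (0:ℂ) 1, ψ z = w → deriv ψ z ≠ 0) :
    ENNReal.ofReal (SR_sm ψ R w) ≤ cnt ψ w := by
  set S := (supp_fin_sm ψ R w).toFinset with hS
  rw [SR_eq_sm ψ R w S (fun u hu => by rw [hS]; simp [hu]),
    ENNReal.ofReal_sum_of_nonneg (fun u _ => term_nonneg_sm hψ h0 hR0 hR1 hw u), cnt_eq_sm]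
  refine le_trans (Finset.sum_le_sum fun u hu => ?_) (ENNReal.sum_le_tsum S)
  have hu' : divisor (fun z => ψ z - w) (closedBall (0:ℂ) |R|) u ≠ 0 := by
    rw [hS] at hu; simpa using hu
  have huc : u ∈ closedBall (0:ℂ) |R| := by
    by_contra hcon
    exact hu' (Function.locallyFinsuppWithin.apply_eq_zero_of_notMem _ hcon)
  obtain ⟨n, hn1, hn2⟩ := ord_sm hψ h0 hR0 hR1 hw huc
  have hn0 : n ≠ 0 := by
    intro h; apply hu'; rw [hn2, h]; rfl
  have hA := ana_sm hψ hR0 hR1 w u huc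
  have huR : ‖u‖ ≤ R := by
    rw [mem_closedBall, dist_zero_right, abs_of_pos hR0] at huc; exact huc
  have hub : u ∈ ball (0:ℂ) 1 := by rw [mem_ball_zero_iff]; linarith
  have huw : ψ u = w := by
    have h1 : analyticOrderAt (fun z => ψ z - w) u ≠ 0 := by
      rw [hn1]; exact_mod_cast hn0
    have := (hA.analyticOrderAt_ne_zero).1 h1
    exact sub_eq_zero.1 this
  have hu0 : u ≠ 0 := by
    rintro rfl
    exact hw (huw.symm.trans h0)
  have hnu : 0 < ‖u‖ := norm_pos_iff.2 hu0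
  have hn1' : n = 1 := by
    have hAψ : AnalyticAt ℂ ψ u := hψ.analyticOnNhd isOpen_ball u hub
    have h1 := hAψ.analyticOrderAt_sub_eq_one_of_deriv_ne_zero (hcrit u hub huw)
    rw [huw] at h1
    rw [h1] at hn1
    exact_mod_cast hn1.symm
  rw [indicator_of_mem (show u ∈ {z : ℂ | z ∈ ball (0 : ℂ) 1 ∧ ψ z = w} from ⟨hub, huw⟩)]
  refine ENNReal.ofReal_le_ofReal ?_
  rw [hn2, hn1', zero_sub, norm_neg, Real.log_mul hR0.ne' (inv_ne_zero hnu.ne'), Real.log_inv]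
  have := Real.log_nonpos hR0.le hR1.le
  push_cast
  linarith

open MeromorphicOn in
/-- `ψ z ≠ w` for almost all points of the circle -/
theorem circle_null_sm {ψ : ℂ → ℂ} (hψ : DifferentiableOn ℂ ψ (ball 0 1)) (h0 : ψ 0 = 0) {R : ℝ}
    (hR0 : 0 < R) (hR1 : R < 1) {w : ℂ} (hw : w ≠ 0) :
    ∀ᵐ θ : ℝ, ψ (circleMap 0 R θ) ≠ w := by
  have h1 : {u : ℂ | u ∈ closedBall (0:ℂ) |R| ∧ ψ u = w} ⊆
      Function.support (divisor (fun z => ψ z - w) (closedBall (0:ℂ) |R|)) := by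
    rintro u ⟨hu, huw⟩
    obtain ⟨n, hn1, hn2⟩ := ord_sm hψ h0 hR0 hR1 hw hu
    rw [Function.mem_support, hn2]
    intro hn
    have hn0 : n = 0 := by exact_mod_cast hn
    rw [hn0] at hn1
    have := (ana_sm hψ hR0 hR1 w u hu).analyticOrderAt_eq_zero.1 (by simpa using hn1)
    exact this (by simp [huw])
  have h2 : ({u : ℂ | u ∈ closedBall (0:ℂ) |R| ∧ ψ u = w}).Countable :=
    ((supp_fin_sm ψ R w).subset h1).countable
  have h3 := (h2.preimage_circleMap 0 hR0.ne').measure_zero volume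
  rw [ae_iff]
  refine measure_mono_null ?_ h3
  intro θ hθ
  simp only [ne_eq, not_not, mem_ofPred_eq] at hθ
  refine ⟨?_, hθ⟩
  simp [mem_closedBall]

/-- the set of critical values is a null set -/
theorem crit_null_sm {ψ : ℂ → ℂ} (hψ : DifferentiableOn ℂ ψ (ball 0 1)) :
    volume (ψ '' {z | z ∈ ball (0:ℂ) 1 ∧ deriv ψ z = 0}) = 0 := by
  refine addHaar_image_eq_zero_of_det_fderivWithin_eq_zero (f' := fun _ => 0) volume ?_ ?_
  · rintro z ⟨hz, hdz⟩
    have h1 : HasDerivAt ψ (deriv ψ z) z :=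
      (hψ.differentiableAt (isOpen_ball.mem_nhds hz)).hasDerivAt
    rw [hdz] at h1
    have h2 := (h1.hasFDerivAt.restrictScalars ℝ).hasFDerivWithinAt
      (s := {z | z ∈ ball (0:ℂ) 1 ∧ deriv ψ z = 0})
    refine h2.congr_fderiv ?_
    ext x
    simp
  · intro z _
    rw [ContinuousLinearMap.det]
    simp

theorem log_bd_sm {v : ℂ} (h : ‖v‖ ≤ 3) : 0 ≤ Real.log 3 - Real.log ‖v‖ := by
  rcases eq_or_ne v 0 with rfl | hv
  · rw [norm_zero, Real.log_zero, sub_zero]; exact Real.log_nonneg (by norm_num)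
  · have := Real.log_le_log (norm_pos_iff.2 hv) h
    linarith

theorem circ_mem_sm {R : ℝ} (hR0 : 0 < R) (hR1 : R < 1) (θ : ℝ) :
    circleMap 0 R θ ∈ ball (0:ℂ) 1 := by
  simp [abs_of_pos hR0, hR1]

theorem H_sm {ψ : ℂ → ℂ} (hψ : DifferentiableOn ℂ ψ (ball 0 1))
    (hm : MapsTo ψ (ball (0 : ℂ) 1) (ball 0 1)) (h0 : ψ 0 = 0) {R : ℝ}
    (hR0 : 0 < R) (hR1 : R < 1) {w : ℂ} (hw : w ≠ 0) (hw2 : ‖w‖ ≤ 2) :
    ENNReal.ofReal (2 * π * SR_sm ψ R w) + ∫⁻ θ in Ioc 0 (2 * π),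
      ENNReal.ofReal (Real.log 3 - Real.log ‖ψ (circleMap 0 R θ) - w‖) =
      ENNReal.ofReal (2 * π * (Real.log 3 - Real.log ‖w‖)) := by
  have hnn : ∀ θ : ℝ, 0 ≤ Real.log 3 - Real.log ‖ψ (circleMap 0 R θ) - w‖ := by
    intro θ
    refine log_bd_sm ?_
    have h1 : ‖ψ (circleMap 0 R θ)‖ < 1 := by
      simpa using hm (circ_mem_sm hR0 hR1 θ)
    linarith [norm_sub_le (ψ (circleMap 0 R θ)) w]
  have hci : CircleIntegrable (fun z => Real.log ‖ψ z - w‖) 0 R :=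
    MeromorphicOn.circleIntegrable_log_norm
      ((ana_sm hψ hR0 hR1 w).mono sphere_subset_closedBall).meromorphicOn
  have hi : IntervalIntegrable (fun θ : ℝ => Real.log ‖ψ (circleMap 0 R θ) - w‖) volume
      0 (2 * π) := hci
  have hint : IntervalIntegrable (fun θ : ℝ => Real.log 3 -
      Real.log ‖ψ (circleMap 0 R θ) - w‖) volume 0 (2 * π) := (intervalIntegrable_const).sub hi
  have hpi : (0:ℝ) ≤ 2 * π := Real.two_pi_pos.le
  have hI : ∫ θ in Ioc 0 (2 * π), (Real.log 3 - Real.log ‖ψ (circleMap 0 R θ) - w‖) =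
      2 * π * (Real.log 3 - (SR_sm ψ R w + Real.log ‖w‖)) := by
    rw [← intervalIntegral.integral_of_le hpi,
      intervalIntegral.integral_sub intervalIntegrable_const hi, intervalIntegral.integral_const,
      ← jensen_sm hψ h0 hR0 hR1 hw]
    unfold Real.circleAverage
    simp only [smul_eq_mul]
    have hp : (π:ℝ) ≠ 0 := Real.pi_ne_zero
    field_simp
    ring
  have hInn : 0 ≤ 2 * π * (Real.log 3 - (SR_sm ψ R w + Real.log ‖w‖)) := by
    rw [← hI]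
    exact integral_nonneg fun θ => hnn θ
  rw [← ofReal_integral_eq_lintegral_ofReal
      ((intervalIntegrable_iff_integrableOn_Ioc_of_le hpi).1 hint)
      (Eventually.of_forall fun φ => hnn φ), hI, ← ENNReal.ofReal_add ?_ hInn]
  · congr 1; ring
  · exact mul_nonneg hpi (SR_nonneg_sm hψ h0 hR0 hR1 hw)

theorem J3_sm {ψ : ℂ → ℂ} (hψ : DifferentiableOn ℂ ψ (ball 0 1))
    (hm : MapsTo ψ (ball (0 : ℂ) 1) (ball 0 1)) (h0 : ψ 0 = 0) {R : ℝ}
    (hR0 : 0 < R) (hR1 : R < 1) {w₀ : ℂ} {t : ℝ} (ht : 0 < t)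
    (hw : t < ‖w₀‖) (hw1 : ‖w₀‖ < 1) :
    ENNReal.ofReal (2 * π * SR_sm ψ R w₀) * volume (ball w₀ t) ≤
      ∫⁻ w in ball w₀ t, ENNReal.ofReal (2 * π * SR_sm ψ R w) := by
  have hw00 : w₀ ≠ 0 := by
    intro h; rw [h, norm_zero] at hw; linarith
  have hball : ∀ w ∈ ball w₀ t, w ≠ 0 ∧ ‖w‖ ≤ 2 := by
    intro w hwb
    rw [mem_ball, dist_eq_norm] at hwb
    constructor
    · rintro rfl
      rw [zero_sub, norm_neg] at hwb; linarith
    · have h1 : ‖w‖ ≤ ‖w - w₀‖ + ‖w₀‖ := by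
        calc ‖w‖ = ‖(w - w₀) + w₀‖ := by rw [sub_add_cancel]
          _ ≤ _ := norm_add_le _ _
      linarith
  have hV : volume (ball w₀ t) = volume (ball (0:ℂ) t) := Measure.addHaar_ball_center _ _ _
  have hVfin : volume (ball (0:ℂ) t) ≠ ⊤ := measure_ball_lt_top.ne
  have h2π : (0:ℝ) ≤ 2 * π := Real.two_pi_pos.le
  have hcont : Continuous (fun θ : ℝ => ψ (circleMap 0 R θ)) :=
    hψ.continuousOn.comp_continuous (continuous_circleMap 0 R) (circ_mem_sm hR0 hR1)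
  set h : ℂ → ℝ → ℝ≥0∞ := fun w θ =>
    ENNReal.ofReal (Real.log 3 - Real.log ‖ψ (circleMap 0 R θ) - w‖) with hh
  have hmeas : Measurable (Function.uncurry h) := by
    have hc : Measurable (fun θ : ℝ => ψ (circleMap 0 R θ)) := hcont.measurable
    have h1 : Measurable (fun p : ℂ × ℝ => ψ (circleMap 0 R p.2) - p.1) :=
      (hc.comp measurable_snd).sub measurable_fst
    exact (measurable_const.sub (Real.measurable_log.comp h1.norm)).ennreal_ofReal
  set H : ℂ → ℝ≥0∞ := fun w => ∫⁻ θ in Ioc 0 (2 * π), h w θ with hH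
  have hHm : Measurable H := hmeas.lintegral_prod_right'
  -- (i)
  have hi : ENNReal.ofReal (2 * π * (Real.log 3 - Real.log ‖w₀‖)) * volume (ball (0:ℂ) t) ≤
      ∫⁻ w in ball w₀ t, ENNReal.ofReal (2 * π * (Real.log 3 - Real.log ‖w‖)) := by
    have h1 := P2_sm (-w₀) t (Real.log 3) (by rw [norm_neg]; exact hw.le) (fun ζ hζ => by
      refine log_bd_sm ?_
      rw [mem_ball_zero_iff] at hζ
      rw [sub_neg_eq_add]
      linarith [norm_add_le ζ w₀])
    rw [norm_neg] at h1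
    rw [shift_sm, ENNReal.ofReal_mul h2π, mul_assoc]
    refine le_trans (mul_le_mul_right h1 _) (le_of_eq ?_)
    rw [← lintegral_const_mul' _ _ ENNReal.ofReal_ne_top]
    refine lintegral_congr fun ζ => ?_
    rw [ENNReal.ofReal_mul h2π, sub_neg_eq_add]
  -- (ii)
  have hii : ∫⁻ w in ball w₀ t, H w ≤ H w₀ * volume (ball (0:ℂ) t) := by
    rw [hH]
    simp only
    rw [lintegral_lintegral_swap hmeas.aemeasurable, ← lintegral_mul_const' _ _ hVfin]
    refine lintegral_mono_ae ?_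
    filter_upwards [ae_restrict_of_ae (circle_null_sm hψ h0 hR0 hR1 hw00)] with θ hθ
    have hv1 : ‖ψ (circleMap 0 R θ)‖ < 1 := by
      simpa using hm (circ_mem_sm hR0 hR1 θ)
    have h1 := P1_sm (ψ (circleMap 0 R θ) - w₀) (sub_ne_zero.2 hθ) t (Real.log 3) (fun ζ hζ => by
      refine log_bd_sm ?_
      rw [mem_ball_zero_iff] at hζ
      have h2 := norm_sub_le ζ (ψ (circleMap 0 R θ) - w₀)
      have h3 := norm_sub_le (ψ (circleMap 0 R θ)) w₀
      linarith)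
    rw [shift_sm]
    refine le_trans (le_of_eq ?_) h1
    refine lintegral_congr fun ζ => ?_
    rw [hh]
    simp only
    rw [← norm_neg (ψ (circleMap 0 R θ) - (ζ + w₀))]
    congr 4
    ring
  -- (iii)
  have hJH : ∀ w ∈ ball w₀ t, ENNReal.ofReal (2 * π * SR_sm ψ R w) + H w =
      ENNReal.ofReal (2 * π * (Real.log 3 - Real.log ‖w‖)) := fun w hwb =>
    H_sm hψ hm h0 hR0 hR1 (hball w hwb).1 (hball w hwb).2
  have hw0mem : w₀ ∈ ball w₀ t := mem_ball_self ht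
  have hHfin : H w₀ ≠ ⊤ := by
    intro htop
    have := hJH w₀ hw0mem
    rw [htop, add_top] at this
    exact ENNReal.ofReal_ne_top this.symm
  rw [hV]
  have hfin2 : H w₀ * volume (ball (0:ℂ) t) ≠ ⊤ := ENNReal.mul_ne_top hHfin hVfin
  refine (ENNReal.add_le_add_iff_right hfin2).1 ?_
  calc ENNReal.ofReal (2 * π * SR_sm ψ R w₀) * volume (ball (0:ℂ) t) +
        H w₀ * volume (ball (0:ℂ) t)
      = ENNReal.ofReal (2 * π * (Real.log 3 - Real.log ‖w₀‖)) * volume (ball (0:ℂ) t) := by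
        rw [← add_mul, hJH w₀ hw0mem]
    _ ≤ ∫⁻ w in ball w₀ t, ENNReal.ofReal (2 * π * (Real.log 3 - Real.log ‖w‖)) := hi
    _ = ∫⁻ w in ball w₀ t, (ENNReal.ofReal (2 * π * SR_sm ψ R w) + H w) :=
        setLIntegral_congr_fun measurableSet_ball fun w hwb => (hJH w hwb).symm
    _ = (∫⁻ w in ball w₀ t, ENNReal.ofReal (2 * π * SR_sm ψ R w)) +
          (∫⁻ w in ball w₀ t, H w) := lintegral_add_right _ hHm
    _ ≤ _ := add_le_add le_rfl hii

/-- Sub-mean value property of the counting function away from `ψ 0 = 0`. -/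
theorem cnt_submean {ψ : ℂ → ℂ} (hψ : DifferentiableOn ℂ ψ (ball 0 1))
    (hm : MapsTo ψ (ball (0 : ℂ) 1) (ball 0 1)) (h0 : ψ 0 = 0) {w₀ : ℂ} {t : ℝ} (ht : 0 < t)
    (hw : t < ‖w₀‖) :
    cnt ψ w₀ * volume (ball w₀ t) ≤ ∫⁻ w in ball w₀ t, cnt ψ w := by
  classical
  have hVfin : volume (ball w₀ t) ≠ ⊤ := measure_ball_lt_top.ne
  have hw00 : w₀ ≠ 0 := by
    intro h; rw [h, norm_zero] at hw; linarith
  by_cases hw1 : ‖w₀‖ < 1
  swap
  · have h1 : cnt ψ w₀ = 0 := by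
      have : IsEmpty {z : ℂ // z ∈ ball (0 : ℂ) 1 ∧ ψ z = w₀} := by
        refine ⟨fun z => hw1 ?_⟩
        have := hm z.2.1
        rw [z.2.2] at this
        simpa using this
      unfold cnt
      exact tsum_empty
    rw [h1, zero_mul]
    exact zero_le
  have h2π : (0:ℝ) < 2 * π := Real.two_pi_pos
  -- the integral inequality for every R
  have hmain : ∀ R, 0 < R → R < 1 → ENNReal.ofReal (SR_sm ψ R w₀) * volume (ball w₀ t) ≤
      ∫⁻ w in ball w₀ t, cnt ψ w := by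
    intro R hR0 hR1
    have h1 := J3_sm hψ hm h0 hR0 hR1 ht hw hw1
    simp only [ENNReal.ofReal_mul h2π.le] at h1
    rw [lintegral_const_mul' _ _ ENNReal.ofReal_ne_top, mul_assoc] at h1
    have h2 : ENNReal.ofReal (2 * π) ≠ 0 := by
      rw [ne_eq, ENNReal.ofReal_eq_zero, not_le]; exact h2π
    have h3 := (ENNReal.mul_le_mul_iff_right h2 ENNReal.ofReal_ne_top).1 h1
    refine h3.trans (lintegral_mono_ae ?_)
    have hcrit := crit_null_sm hψ
    have h4 : ∀ᵐ w : ℂ, w ∉ ψ '' {z | z ∈ ball (0:ℂ) 1 ∧ deriv ψ z = 0} :=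
      measure_eq_zero_iff_ae_notMem.1 hcrit
    have h5 : ∀ᵐ w ∂(volume.restrict (ball w₀ t)), w ∈ ball w₀ t :=
      ae_restrict_mem measurableSet_ball
    filter_upwards [ae_restrict_of_ae h4, h5] with w hwn hwb
    refine J2_sm hψ h0 hR0 hR1 ?_ ?_
    · rintro rfl
      rw [mem_ball, dist_eq_norm, zero_sub, norm_neg] at hwb
      linarith
    · intro z hz hzw hd
      exact hwn ⟨z, ⟨hz, hd⟩, hzw⟩
  rw [cnt_eq_sm, ENNReal.tsum_eq_iSup_sum, ENNReal.iSup_mul]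
  refine iSup_le fun F => ?_
  -- reduce to the finset of the preimages
  set F' := F.filter (fun z => z ∈ ball (0:ℂ) 1 ∧ ψ z = w₀) with hF'
  have h1 : ∑ a ∈ F, ({z : ℂ | z ∈ ball (0 : ℂ) 1 ∧ ψ z = w₀}).indicator
      (fun z => ENNReal.ofReal (-Real.log ‖z‖)) a = ∑ a ∈ F', ENNReal.ofReal (-Real.log ‖a‖) := by
    rw [hF', Finset.sum_filter]
    refine Finset.sum_congr rfl fun a _ => ?_
    by_cases ha : a ∈ ball (0 : ℂ) 1 ∧ ψ a = w₀
    · rw [if_pos ha, indicator_of_mem]; exact ha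
    · rw [if_neg ha, indicator_of_notMem]; exact ha
  have hF'mem : ∀ z ∈ F', ‖z‖ < 1 ∧ ψ z = w₀ ∧ z ≠ 0 := by
    intro z hz
    rw [hF', Finset.mem_filter] at hz
    refine ⟨by simpa using hz.2.1, hz.2.2, ?_⟩
    rintro rfl
    exact hw00 (hz.2.2.symm.trans h0)
  have hnn : ∀ z ∈ F', 0 ≤ -Real.log ‖z‖ := by
    intro z hz
    have := Real.log_nonpos (norm_nonneg z) (hF'mem z hz).1.le
    linarith
  rw [h1, ← ENNReal.ofReal_sum_of_nonneg hnn]
  -- limit R → 1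
  have hlim : Tendsto (fun R : ℝ => ENNReal.ofReal (∑ z ∈ F', (Real.log R - Real.log ‖z‖)) *
      volume (ball w₀ t)) (𝓝[<] 1)
      (𝓝 (ENNReal.ofReal (∑ z ∈ F', (Real.log 1 - Real.log ‖z‖)) * volume (ball w₀ t))) := by
    refine ENNReal.Tendsto.mul_const ?_ (Or.inr hVfin)
    refine (ENNReal.tendsto_ofReal ?_)
    refine tendsto_finsetSum _ fun z _ => ?_
    refine Tendsto.sub_const ?_ _
    exact (Real.continuousAt_log (by norm_num)).tendsto.mono_left nhdsWithin_le_nhds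
  have h2 : (∑ z ∈ F', (Real.log 1 - Real.log ‖z‖)) = ∑ z ∈ F', -Real.log ‖z‖ := by
    refine Finset.sum_congr rfl fun z _ => ?_
    rw [Real.log_one, zero_sub]
  rw [h2] at hlim
  refine le_of_tendsto hlim ?_
  -- eventually R is large
  have h3 : ∀ᶠ R : ℝ in 𝓝[<] 1, ∀ z ∈ F', ‖z‖ < R := by
    rw [Filter.eventually_all_finset]
    intro z hz
    exact nhdsWithin_le_nhds (lt_mem_nhds (hF'mem z hz).1)
  have h4 : ∀ᶠ R : ℝ in 𝓝[<] 1, 0 < R := nhdsWithin_le_nhds (lt_mem_nhds one_pos)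
  filter_upwards [h3, h4, self_mem_nhdsWithin] with R hR hR0 hR1
  refine le_trans ?_ (hmain R hR0 hR1)
  refine mul_le_mul_left (ENNReal.ofReal_le_ofReal ?_) _
  exact J1_sm hψ h0 hR0 hR1 hw00 F' fun z hz => ⟨(hF'mem z hz).2.1, hR z hz⟩

end Pool.Agent.Helper156.Ess
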