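import Mathlib
import Pool.Agent.Helper156.Ess.Config
import Pool.Agent.Helper156.Ess.Jensen

set_option autoImplicit false

open Complex Metric Set Filter MeasureTheory
open scoped Real Topology ComplexConjugate NNReal ENNReal

namespace Pool.Agent.Helper156.Ess

theorem cnt_le_of_finset {ψ : ℂ → ℂ} {w : ℂ} {X : ℝ}
    (h : ∀ F : Finset ℂ, (∀ z ∈ F, ‖z‖ < 1 ∧ ψ z = w) → ∑ z ∈ F, -Real.log ‖z‖ ≤ X) :
    cnt ψ w ≤ ENNReal.ofReal X := by
  rw [cnt, ENNReal.tsum_eq_iSup_sum]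
  apply iSup_le
  intro s
  rw [← ENNReal.ofReal_sum_of_nonneg]
  · apply ENNReal.ofReal_le_ofReal
    have h1 := h (s.map (Function.Embedding.subtype _)) (by
      intro z hz
      rw [Finset.mem_map] at hz
      obtain ⟨a, _, rfl⟩ := hz
      exact ⟨mem_ball_zero_iff.1 a.2.1, a.2.2⟩)
    rw [Finset.sum_map] at h1
    exact h1
  · intro z _
    have h1 := mem_ball_zero_iff.1 z.2.1
    have := Real.log_nonpos (norm_nonneg (z : ℂ)) h1.le
    linarith

/-- Littlewood's inequality for finite subsets of a fibre. -/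
theorem prod_ge {ψ : ℂ → ℂ} (hψ : DifferentiableOn ℂ ψ (ball 0 1))
    (hm : MapsTo ψ (ball (0 : ℂ) 1) (ball 0 1)) (h0 : ψ 0 = 0) {w : ℂ} (hw : ‖w‖ < 1)
    (F : Finset ℂ) (hF : ∀ z ∈ F, ‖z‖ < 1 ∧ ψ z = w) : ‖w‖ ≤ ∏ z ∈ F, ‖z‖ := by
  have h1 : ∃ κ : H2, ‖κ‖ ≤ 1 ∧ ∀ z ∈ ball (0 : ℂ) 1, ev κ z = 1 := by
    obtain ⟨κ, h2, h3⟩ := exists_kernel (w := 0) (by simp)
    refine ⟨κ, h2, fun z hz => ?_⟩
    rw [h3 z hz]
    simp
  obtain ⟨κ, hκ, hκ1⟩ := h1
  obtain ⟨f, hf, hf2⟩ := exists_mul κ (g := fun z => bl w (ψ z)) ((bl_diff hw).comp hψ hm)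
    (fun z hz => (bl_norm_lt hw (mem_ball_zero_iff.1 (hm hz))).le)
  have h4 := prod_bound f F (by
    intro z hz
    obtain ⟨hz1, hz2⟩ := hF z hz
    refine ⟨hz1, ?_⟩
    rw [hf z (mem_ball_zero_iff.2 hz1), hz2, bl_self, zero_mul])
  have h5 : ev f 0 = -w := by
    rw [hf 0 (by simp), hκ1 0 (by simp), h0, bl]
    simp
  rw [h5, norm_neg] at h4
  have h6 : 0 ≤ ∏ z ∈ F, ‖z‖ := Finset.prod_nonneg fun _ _ => norm_nonneg _
  nlinarith [norm_nonneg f]

theorem sum_log {F : Finset ℂ} (hF : ∀ z ∈ F, z ≠ 0) :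
    ∑ z ∈ F, -Real.log ‖z‖ = -Real.log (∏ z ∈ F, ‖z‖) := by
  rw [Real.log_prod (fun z hz => norm_ne_zero_iff.2 (hF z hz)), Finset.sum_neg_distrib]

theorem fiber_ne {ψ : ℂ → ℂ} (h0 : ψ 0 = 0) {w : ℂ} (hw0 : w ≠ 0) {F : Finset ℂ}
    (hF : ∀ z ∈ F, ‖z‖ < 1 ∧ ψ z = w) : ∀ z ∈ F, z ≠ 0 := by
  rintro z hz rfl
  exact hw0 ((hF 0 hz).2.symm.trans h0)

theorem cnt_le_log {ψ : ℂ → ℂ} (hψ : DifferentiableOn ℂ ψ (ball 0 1))
    (hm : MapsTo ψ (ball (0 : ℂ) 1) (ball 0 1)) (h0 : ψ 0 = 0) {w : ℂ} (hw : ‖w‖ < 1)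
    (hw0 : w ≠ 0) : cnt ψ w ≤ ENNReal.ofReal (-Real.log ‖w‖) := by
  apply cnt_le_of_finset
  intro F hF
  rw [sum_log (fiber_ne h0 hw0 hF)]
  apply neg_le_neg
  exact Real.log_le_log (norm_pos_iff.2 hw0) (prod_ge hψ hm h0 hw F hF)

theorem neg_log_le {x : ℝ} (hx : 1 / 2 ≤ x) (hx1 : x ≤ 1) : -Real.log x ≤ 2 * (1 - x) := by
  have hx0 : 0 < x := by linarith
  have h1 := Real.one_sub_inv_le_log_of_pos hx0
  have h2 : x⁻¹ ≤ 1 + 2 * (1 - x) := by
    rw [inv_le_iff_one_le_mul₀ hx0]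
    nlinarith
  linarith

theorem sum_le_of_prod {ψ : ℂ → ℂ} (hψ : DifferentiableOn ℂ ψ (ball 0 1))
    (hm : MapsTo ψ (ball (0 : ℂ) 1) (ball 0 1)) (h0 : ψ 0 = 0) {w : ℂ} (hw : ‖w‖ < 1)
    (hw0 : 3 / 4 ≤ ‖w‖) {X : ℝ} (F : Finset ℂ) (hF : ∀ z ∈ F, ‖z‖ < 1 ∧ ψ z = w)
    (hX : 1 - (∏ z ∈ F, ‖z‖) ^ 2 ≤ X) : ∑ z ∈ F, -Real.log ‖z‖ ≤ X := by
  have hwne : w ≠ 0 := by
    intro h; rw [h, norm_zero] at hw0; norm_num at hw0
  rw [sum_log (fiber_ne h0 hwne hF)]
  have h1 := prod_ge hψ hm h0 hw F hF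
  set β := ∏ z ∈ F, ‖z‖ with hβ
  have hβ1 : β ≤ 1 := Finset.prod_le_one (fun _ _ => norm_nonneg _) fun z hz => (hF z hz).1.le
  have hβ0 : 0 < β := by linarith
  have h2 := Real.one_sub_inv_le_log_of_pos hβ0
  have h3 : β⁻¹ ≤ 1 + (1 - β ^ 2) := by
    rw [inv_le_iff_one_le_mul₀ hβ0]
    have : 3 / 4 ≤ β := hw0.trans h1
    nlinarith [mul_nonneg (by linarith : (0 : ℝ) ≤ 1 - β) (by nlinarith : (0 : ℝ) ≤ β ^ 2 + β - 1)]
  linarith

/-- Separated points or a small cover. -/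
theorem sep_or_cover {X : Type*} [PseudoMetricSpace X] (B : Set X) (r : ℝ) (k : ℕ) :
    (∃ w : Fin (k + 1) → X, (∀ i, w i ∈ B) ∧ ∀ i j, i ≠ j → r ≤ dist (w i) (w j)) ∨
    ∃ s : Finset X, s.card ≤ k ∧ ∀ x ∈ B, ∃ y ∈ s, dist x y < r := by
  induction k with
  | zero =>
    by_cases h : B.Nonempty
    · obtain ⟨x, hx⟩ := h
      left
      refine ⟨fun _ => x, fun _ => hx, fun i j hij => ?_⟩
      exact absurd (Fin.ext (by omega)) hij
    · right
      refine ⟨∅, by simp, fun x hx => ?_⟩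
      exact absurd ⟨x, hx⟩ h
  | succ k ih =>
    classical
    rcases ih with ⟨w, hw1, hw2⟩ | ⟨s, hs1, hs2⟩
    · by_cases h : ∀ x ∈ B, ∃ i, dist x (w i) < r
      · right
        refine ⟨Finset.univ.image w, ?_, fun x hx => ?_⟩
        · refine Finset.card_image_le.trans ?_
          simp
        · obtain ⟨i, hi⟩ := h x hx
          exact ⟨w i, by simp, hi⟩
      · push Not at h
        obtain ⟨x, hx, hxr⟩ := h
        left
        refine ⟨Fin.cons x w, fun i => ?_, fun i j hij => ?_⟩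
        · refine Fin.cases ?_ (fun i => ?_) i
          · exact hx
          · exact hw1 i
        · induction i using Fin.cases with
          | zero =>
            induction j using Fin.cases with
            | zero => exact absurd rfl hij
            | succ j => simpa using hxr j
          | succ i =>
            induction j using Fin.cases with
            | zero =>
              rw [dist_comm]
              simpa using hxr i
            | succ j =>
              simp only [Fin.cons_succ]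
              exact hw2 i j (fun h => hij (by rw [h]))
    · right
      exact ⟨s, by omega, hs2⟩

/-- One step of the bootstrapping. -/
theorem cover_step {ψ : ℂ → ℂ} {κ s δ : ℝ} (hκ : 0 ≤ κ) (hs : 0 ≤ s) {θ ε c' : ℝ} {k : ℕ}
    (_hθ : 1 < θ)
    (hε0 : 0 < ε) (hε1 : ε ≤ 1 / 2) (hεθ : 1 + ε ≤ θ * (1 - ε)) (hc0 : 0 < c')
    (hc1 : k * c' ^ 2 * 8 ≤ ε ^ 2) (hδ : δ ≤ 1 / 4)
    (hsub : ∀ (w₀ : ℂ) (t : ℝ), 0 < t → t < ‖w₀‖ →
      cnt ψ w₀ * volume (ball w₀ t) ≤ ∫⁻ w in ball w₀ t, cnt ψ w)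
    (hconf : ∀ w : Fin (k + 1) → ℂ, (∀ i, ‖w i‖ < 1 ∧ 1 - ‖w i‖ < δ) →
      (∀ i j, 1 - ‖w i‖ ≤ θ * (1 - ‖w j‖)) →
      (∀ i j, i ≠ j → c' / 2 * (1 - ‖w i‖) ≤ ‖w i - w j‖) →
      ∃ i, cnt ψ (w i) ≤ ENNReal.ofReal (κ * (1 - ‖w i‖)))
    (hP : ∀ w : ℂ, ‖w‖ < 1 → 1 - ‖w‖ < δ → cnt ψ w ≤ ENNReal.ofReal (s * (1 - ‖w‖))) :
    ∀ w : ℂ, ‖w‖ < 1 → 1 - ‖w‖ < δ / 2 →
      cnt ψ w ≤ ENNReal.ofReal ((2 * κ + s / 4) * (1 - ‖w‖)) := by
  intro w₀ hw₀ hw₀δ
  set h : ℝ := 1 - ‖w₀‖ with hh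
  have hpos : 0 < h := by simp only [hh]; linarith
  set t : ℝ := ε * h with ht
  have htpos : 0 < t := by positivity
  have hheight : ∀ w ∈ ball w₀ t, (1 - ε) * h ≤ 1 - ‖w‖ ∧ 1 - ‖w‖ ≤ (1 + ε) * h := by
    intro w hw
    rw [mem_ball, dist_eq_norm] at hw
    have h1 := norm_sub_norm_le w w₀
    have h2 := norm_sub_norm_le w₀ w
    rw [norm_sub_rev] at h2
    constructor
    · have : (1 - ε) * h = h - t := by rw [ht]; ring
      rw [this, hh]; linarith
    · have : (1 + ε) * h = h + t := by rw [ht]; ring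
      rw [this, hh]; linarith
  set r : ℝ := c' * h with hr
  have hrpos : 0 < r := by positivity
  set B : Set ℂ := {w | w ∈ ball w₀ t ∧ ENNReal.ofReal (κ * (1 - ‖w‖)) < cnt ψ w} with hB
  -- B is covered by at most k balls
  have hcover : ∃ S : Finset ℂ, S.card ≤ k ∧ ∀ x ∈ B, ∃ y ∈ S, dist x y < r := by
    rcases sep_or_cover B r k with ⟨w, hwB, hwsep⟩ | h
    · exfalso
      obtain ⟨i, hi⟩ := hconf w (by
        intro i
        obtain ⟨h1, h2⟩ := hheight (w i) (hwB i).1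
        constructor
        · nlinarith
        · nlinarith) (by
        intro i j
        obtain ⟨-, h2⟩ := hheight (w i) (hwB i).1
        obtain ⟨h3, -⟩ := hheight (w j) (hwB j).1
        calc 1 - ‖w i‖ ≤ (1 + ε) * h := h2
          _ ≤ θ * (1 - ε) * h := by gcongr
          _ = θ * ((1 - ε) * h) := by ring
          _ ≤ θ * (1 - ‖w j‖) := by gcongr) (by
        intro i j hij
        obtain ⟨-, h2⟩ := hheight (w i) (hwB i).1
        have h4 := hwsep i j hij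
        rw [dist_eq_norm] at h4
        refine le_trans ?_ h4
        rw [hr]
        nlinarith)
      exact absurd (hwB i).2 (not_lt.2 hi)
    · exact h
  obtain ⟨S, hScard, hS⟩ := hcover
  -- the dominating function
  set g : ℂ → ℝ≥0∞ := fun w => ENNReal.ofReal (2 * κ * h) +
    ∑ y ∈ S, (ball y r).indicator (fun _ => ENNReal.ofReal (2 * s * h)) w with hg
  have hdom : ∀ w ∈ ball w₀ t, cnt ψ w ≤ g w := by
    intro w hw
    obtain ⟨h1, h2⟩ := hheight w hw
    by_cases hwB : w ∈ B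
    · obtain ⟨y, hyS, hy⟩ := hS w hwB
      have h3 : cnt ψ w ≤ ENNReal.ofReal (s * (1 - ‖w‖)) := by
        apply hP
        · nlinarith
        · nlinarith
      have h4 : ENNReal.ofReal (s * (1 - ‖w‖)) ≤ ENNReal.ofReal (2 * s * h) := by
        apply ENNReal.ofReal_le_ofReal
        have : 1 - ‖w‖ ≤ 2 * h := by nlinarith
        nlinarith
      have h5 : ENNReal.ofReal (2 * s * h) ≤
          ∑ y ∈ S, (ball y r).indicator (fun _ => ENNReal.ofReal (2 * s * h)) w := by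
        have h6 : (ball y r).indicator (fun _ => ENNReal.ofReal (2 * s * h)) w =
            ENNReal.ofReal (2 * s * h) := by
          rw [indicator_of_mem (mem_ball.2 hy)]
        exact h6.symm.le.trans (Finset.single_le_sum (f := fun y => (ball y r).indicator
          (fun _ => ENNReal.ofReal (2 * s * h)) w) (fun _ _ => zero_le) hyS)
      exact h3.trans (h4.trans (h5.trans le_add_self))
    · have h3 : cnt ψ w ≤ ENNReal.ofReal (κ * (1 - ‖w‖)) := by
        by_contra hcon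
        exact hwB ⟨hw, not_le.1 hcon⟩
      refine h3.trans (le_trans ?_ le_self_add)
      apply ENNReal.ofReal_le_ofReal
      have : 1 - ‖w‖ ≤ 2 * h := by nlinarith
      nlinarith
  have hvol : ∀ (y : ℂ) (ρ : ℝ), volume (ball y ρ) = ENNReal.ofReal ρ ^ 2 * NNReal.pi := by
    intro y ρ
    exact Complex.volume_ball y ρ
  have hint : ∫⁻ w in ball w₀ t, g w ≤
      ENNReal.ofReal (2 * κ * h) * volume (ball w₀ t) +
        (k : ℝ≥0∞) * (ENNReal.ofReal (2 * s * h) * (ENNReal.ofReal r ^ 2 * NNReal.pi)) := by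
    rw [hg]
    rw [lintegral_add_left measurable_const, setLIntegral_const]
    gcongr
    rw [lintegral_finsetSum]
    · calc ∑ y ∈ S, ∫⁻ w in ball w₀ t, (ball y r).indicator
            (fun _ => ENNReal.ofReal (2 * s * h)) w
          ≤ ∑ _y ∈ S, ENNReal.ofReal (2 * s * h) * (ENNReal.ofReal r ^ 2 * NNReal.pi) := by
            apply Finset.sum_le_sum
            intro y _
            calc ∫⁻ w in ball w₀ t, (ball y r).indicator (fun _ => ENNReal.ofReal (2 * s * h)) w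
                ≤ ∫⁻ w, (ball y r).indicator (fun _ => ENNReal.ofReal (2 * s * h)) w :=
                  setLIntegral_le_lintegral _ _
              _ = _ := by
                rw [lintegral_indicator measurableSet_ball, setLIntegral_const, hvol]
        _ = (S.card : ℝ≥0∞) * (ENNReal.ofReal (2 * s * h) *
              (ENNReal.ofReal r ^ 2 * NNReal.pi)) := by
            rw [Finset.sum_const, nsmul_eq_mul]
        _ ≤ _ := by
            gcongr
    · intro y _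
      exact measurable_const.indicator measurableSet_ball
  have htw : t < ‖w₀‖ := by
    have : ‖w₀‖ = 1 - h := by rw [hh]; ring
    rw [this, ht]
    nlinarith
  have h7 := (hsub w₀ t htpos htw).trans ((setLIntegral_mono' measurableSet_ball hdom).trans hint)
  -- divide by the volume
  have hv0 : volume (ball w₀ t) ≠ 0 := (measure_ball_pos volume w₀ htpos).ne'
  have hv1 : volume (ball w₀ t) ≠ ∞ := measure_ball_lt_top.ne
  have h8 : (k : ℝ≥0∞) * (ENNReal.ofReal (2 * s * h) * (ENNReal.ofReal r ^ 2 * NNReal.pi)) ≤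
      ENNReal.ofReal (s / 4 * h) * volume (ball w₀ t) := by
    rw [hvol w₀ t]
    have e1 : (k : ℝ≥0∞) * (ENNReal.ofReal (2 * s * h) * (ENNReal.ofReal r ^ 2 * NNReal.pi)) =
        ENNReal.ofReal (k * (2 * s * h * r ^ 2)) * NNReal.pi := by
      have hA : ENNReal.ofReal ((k : ℝ) * ((2 * s * h) * r ^ 2)) =
          (k : ℝ≥0∞) * (ENNReal.ofReal (2 * s * h) * ENNReal.ofReal r ^ 2) := by
        rw [ENNReal.ofReal_mul (Nat.cast_nonneg k),
          ENNReal.ofReal_mul (by positivity : 0 ≤ 2 * s * h),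
          ENNReal.ofReal_pow hrpos.le, ENNReal.ofReal_natCast]
      rw [hA]
      ring
    have e2 : ENNReal.ofReal (s / 4 * h) * (ENNReal.ofReal t ^ 2 * NNReal.pi) =
        ENNReal.ofReal (s / 4 * h * t ^ 2) * NNReal.pi := by
      have hA : ENNReal.ofReal (s / 4 * h * t ^ 2) =
          ENNReal.ofReal (s / 4 * h) * ENNReal.ofReal t ^ 2 := by
        rw [ENNReal.ofReal_mul (by positivity : 0 ≤ s / 4 * h), ENNReal.ofReal_pow htpos.le]
      rw [hA]
      ring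
    rw [e1, e2]
    refine mul_le_mul' (ENNReal.ofReal_le_ofReal ?_) le_rfl
    rw [hr, ht]
    have e3 : k * (2 * s * h * (c' * h) ^ 2) = (s / 4 * h * h ^ 2) * (k * c' ^ 2 * 8) := by ring
    have e4 : s / 4 * h * (ε * h) ^ 2 = (s / 4 * h * h ^ 2) * ε ^ 2 := by ring
    rw [e3, e4]
    gcongr
  have h9 : cnt ψ w₀ * volume (ball w₀ t) ≤
      ENNReal.ofReal ((2 * κ + s / 4) * h) * volume (ball w₀ t) := by
    refine h7.trans ?_
    have e5 : (2 * κ + s / 4) * h = 2 * κ * h + s / 4 * h := by ring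
    rw [e5, ENNReal.ofReal_add (by positivity) (by positivity), add_mul]
    gcongr
  exact (ENNReal.mul_le_mul_iff_left hv0 hv1).1 h9

end Pool.Agent.Helper156.Ess
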