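import Mathlib
import Pool.Agent.Helper156.Ess.Cover

set_option autoImplicit false

open Complex Metric Set Filter MeasureTheory
open scoped Real Topology ComplexConjugate NNReal ENNReal

namespace Pool.Agent.Helper156.Ess

theorem iter_zero {φ : ℂ → ℂ} (h0 : φ 0 = 0) (n : ℕ) : φ^[n] 0 = 0 := by
  induction n with
  | zero => rfl
  | succ n ih => rw [Function.iterate_succ_apply', ih, h0]

/-- The counting functions of the iterates are small near the circle. -/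
theorem cnt_bound {φ : ℂ → ℂ} (hφ : DifferentiableOn ℂ φ (ball 0 1))
    (hm : MapsTo φ (ball (0 : ℂ) 1) (ball 0 1)) (h0 : φ 0 = 0) (T : H2 →L[ℂ] H2)
    (hT : ∀ f : H2, ∀ z ∈ ball (0 : ℂ) 1, ev (T f) z = ev f (φ z))
    {q η : ℝ} (hq0 : 0 < q) (hq1 : q < 1) (hη : 1 < η)
    (hi1 : ∀ z : ℂ, ‖z‖ ≤ 1 / 2 → ‖φ z‖ ≤ q * ‖z‖)
    (hi2 : ∀ z : ℂ, 1 / 2 ≤ ‖z‖ → ‖z‖ < 1 → η * (1 - ‖z‖) ≤ 1 - ‖φ z‖)
    {l : ℂ} (hl0 : l ≠ 0) (hl1 : ‖l‖ < 1) (hlS : ∀ j : ℕ, l ≠ (deriv φ 0) ^ j)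
    {M : ℝ} {k : ℕ} (hM : 0 < M)
    (hsolve : ∀ f : Fin (k + 1) → H2, ∃ c : Fin (k + 1) → ℂ,
      (∃ i, ‖c i‖ = 1) ∧ (∀ i, ‖c i‖ ≤ 1) ∧
      ∃ u : H2, l • u - T u = ∑ i, c i • f i ∧ ‖u‖ ≤ M * ‖∑ i, c i • f i‖) :
    ∃ C > 0, ∀ n : ℕ, ∃ δ > 0, ∀ w : ℂ, ‖w‖ < 1 → 1 - ‖w‖ < δ →
      cnt (φ^[n]) w ≤ ENNReal.ofReal (C * ‖l‖ ^ (2 * n) * (1 - ‖w‖)) := by
  have hL0 : 0 < ‖l‖ := norm_pos_iff.2 hl0
  set θ : ℝ := Real.sqrt η with hθd
  have hθ2 : η = θ ^ 2 := (Real.sq_sqrt (by linarith)).symm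
  have hθ : 1 < θ := by
    rw [hθd, Real.lt_sqrt (by norm_num)]
    linarith
  set ε : ℝ := min ((θ - 1) / (θ + 1)) (1 / 2) with hε
  have hε0 : 0 < ε := lt_min (div_pos (by linarith) (by linarith)) (by norm_num)
  have hε1 : ε ≤ 1 / 2 := min_le_right _ _
  have hεθ : 1 + ε ≤ θ * (1 - ε) := by
    have h1 : ε ≤ (θ - 1) / (θ + 1) := min_le_left _ _
    rw [le_div_iff₀ (by linarith)] at h1
    nlinarith
  set c' : ℝ := ε / (4 * (k + 1)) with hc'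
  have hc0 : 0 < c' := by positivity
  have hc1 : k * c' ^ 2 * 8 ≤ ε ^ 2 := by
    rw [hc', div_pow]
    have hk : (0 : ℝ) < (4 * (k + 1)) ^ 2 := by positivity
    have e : (k : ℝ) * (ε ^ 2 / (4 * (k + 1)) ^ 2) * 8 = ε ^ 2 * (8 * k) / (4 * (k + 1)) ^ 2 := by
      field_simp
    rw [e, div_le_iff₀ hk]
    have : (8 * k : ℝ) ≤ (4 * (k + 1)) ^ 2 := by
      have hk0 : (0 : ℝ) ≤ k := Nat.cast_nonneg k
      nlinarith
    gcongr
  obtain ⟨C₀, hC₀, hconf⟩ := config hφ hm h0 T hT hq0 hq1 hη hi1 hi2 hl0 hl1 hlS hM hsolve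
    hθ hθ2 (c := c' / 2) (by positivity)
  refine ⟨4 * C₀, by positivity, fun n => ?_⟩
  obtain ⟨δc, hδc, hcn⟩ := hconf n
  set κ : ℝ := C₀ * ‖l‖ ^ (2 * n) with hκd
  have hκ : 0 < κ := by positivity
  set ψ : ℂ → ℂ := φ^[n] with hψ
  have hψd := iter_diff hφ hm n
  have hψm := iter_maps hm n
  have hψ0 : ψ 0 = 0 := iter_zero h0 n
  set δ₀ : ℝ := min δc (1 / 4) with hδ₀
  have hδ₀pos : 0 < δ₀ := lt_min hδc (by norm_num)
  have hind : ∀ j : ℕ, ∀ w : ℂ, ‖w‖ < 1 → 1 - ‖w‖ < δ₀ / 2 ^ j →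
      cnt ψ w ≤ ENNReal.ofReal ((3 * κ + 2 / 4 ^ j) * (1 - ‖w‖)) := by
    intro j
    induction j with
    | zero =>
      intro w hw hwδ
      rw [pow_zero, div_one] at hwδ
      have h3 : 3 / 4 ≤ ‖w‖ := by
        have := hwδ.trans_le (min_le_right _ _)
        linarith
      have hw0 : w ≠ 0 := by
        intro h; rw [h, norm_zero] at h3; norm_num at h3
      refine (cnt_le_log hψd hψm hψ0 hw hw0).trans ?_
      apply ENNReal.ofReal_le_ofReal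
      refine (neg_log_le (by linarith) hw.le).trans ?_
      have : 0 ≤ 1 - ‖w‖ := by linarith
      rw [pow_zero, div_one]
      nlinarith
    | succ j ih =>
      intro w hw hwδ
      have hδj : δ₀ / 2 ^ j ≤ δ₀ := by
        apply div_le_self hδ₀pos.le
        exact one_le_pow₀ (by norm_num)
      have hstep := cover_step (ψ := ψ) (κ := κ) (s := 3 * κ + 2 / 4 ^ j) (δ := δ₀ / 2 ^ j) hκ.le
        (by positivity) hθ hε0 hε1 hεθ hc0 hc1 (hδj.trans (min_le_right _ _))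
        (fun w₀ t ht htw => cnt_submean hψd hψm hψ0 ht htw)
        (by
          intro w hw1 hw2 hw3
          obtain ⟨i, hi⟩ := hcn w (fun i => ⟨(hw1 i).1, ((hw1 i).2.trans_le hδj).trans_le
            (min_le_left _ _)⟩) hw2 hw3
          refine ⟨i, cnt_le_of_finset fun F hF => ?_⟩
          have h3 : 3 / 4 ≤ ‖w i‖ := by
            have := ((hw1 i).2.trans_le hδj).trans_le (min_le_right _ _)
            linarith
          exact sum_le_of_prod hψd hψm hψ0 (hw1 i).1 h3 F hF (hi F hF))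
        ih w hw (by
          have e : δ₀ / 2 ^ j / 2 = δ₀ / 2 ^ (j + 1) := by
            rw [pow_succ, div_div]
          rw [e]
          exact hwδ)
      refine hstep.trans ?_
      apply ENNReal.ofReal_le_ofReal
      have h4 : 0 ≤ 1 - ‖w‖ := by linarith
      have h5 : 2 * κ + (3 * κ + 2 / 4 ^ j) / 4 ≤ 3 * κ + 2 / 4 ^ (j + 1) := by
        have e : (2 : ℝ) / 4 ^ (j + 1) = 2 / 4 ^ j / 4 := by
          rw [pow_succ, div_div]
        rw [e]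
        linarith
      gcongr
  obtain ⟨j, hj⟩ : ∃ j : ℕ, 2 / (4 : ℝ) ^ j ≤ κ := by
    obtain ⟨j, hj⟩ := exists_pow_lt_of_lt_one (by positivity : 0 < κ / 2)
      (by norm_num : (1 / 4 : ℝ) < 1)
    refine ⟨j, ?_⟩
    rw [one_div, inv_pow] at hj
    rw [div_eq_mul_inv]
    linarith
  refine ⟨δ₀ / 2 ^ j, by positivity, fun w hw hwδ => ?_⟩
  refine (hind j w hw hwδ).trans ?_
  apply ENNReal.ofReal_le_ofReal
  have h4 : 0 ≤ 1 - ‖w‖ := by linarith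
  have e : 4 * C₀ * ‖l‖ ^ (2 * n) = 4 * κ := by rw [hκd]; ring
  rw [e]
  gcongr
  linarith

end Pool.Agent.Helper156.Ess
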