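import Mathlib

set_option autoImplicit false

open Complex Metric Set Filter MeasureTheory
open scoped Real Topology ComplexConjugate NNReal ENNReal

namespace Pool.Agent.Helper156.Ess

theorem fredholm_bdd_below {H : Type*} [NormedAddCommGroup H] [InnerProductSpace ℂ H]
    [CompleteSpace H]
    (A S : H →L[ℂ] H) (h1 : IsCompactOperator (⇑(S * A - 1 : H →L[ℂ] H)))
    (hinj : ∀ u, A u = 0 → u = 0) : ∃ M : ℝ, 0 < M ∧ ∀ u, ‖u‖ ≤ M * ‖A u‖ := by
  by_contra hcon
  push Not at hcon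
  have hx : ∀ n : ℕ, ∃ v : H, ‖v‖ = 1 ∧ ‖A v‖ ≤ 1 / ((n : ℝ) + 1) := by
    intro n
    obtain ⟨u, hu⟩ := hcon (n + 1) (by positivity)
    have hu0 : 0 < ‖u‖ := lt_of_le_of_lt (by positivity) hu
    refine ⟨((‖u‖⁻¹ : ℝ) : ℂ) • u, ?_, ?_⟩
    · rw [norm_smul, Complex.norm_real, norm_inv, norm_norm, inv_mul_cancel₀ hu0.ne']
    · rw [map_smul, norm_smul, Complex.norm_real, norm_inv, norm_norm, inv_mul_le_iff₀ hu0,
        mul_one_div, le_div_iff₀ (by positivity)]
      linarith
  choose v hv1 hv2 using hx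
  obtain ⟨C, hC, hsub⟩ := IsCompactOperator.image_closedBall_subset_compact
    (f := (S * A - 1 : H →L[ℂ] H).toLinearMap) h1 1
  have hmem : ∀ n, (S * A - 1 : H →L[ℂ] H) (v n) ∈ C := by
    intro n
    apply hsub
    exact ⟨v n, by simp [hv1 n], rfl⟩
  obtain ⟨y, -, φ, hφ, hy⟩ := hC.tendsto_subseq hmem
  have hA0 : Tendsto (fun n => A (v (φ n))) atTop (𝓝 0) := by
    have h3 : Tendsto (fun n => A (v n)) atTop (𝓝 0) :=
      squeeze_zero_norm hv2 tendsto_one_div_add_atTop_nhds_zero_nat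
    exact h3.comp hφ.tendsto_atTop
  have hv : Tendsto (fun n => v (φ n)) atTop (𝓝 (-y)) := by
    have h4 : Tendsto (fun n => S (A (v (φ n))) - (S * A - 1 : H →L[ℂ] H) (v (φ n))) atTop
        (𝓝 (S 0 - y)) := ((S.continuous.tendsto 0).comp hA0).sub hy
    have h5 : (fun n => S (A (v (φ n))) - (S * A - 1 : H →L[ℂ] H) (v (φ n))) =
        fun n => v (φ n) := by
      funext n
      simp
    rw [h5, map_zero, zero_sub] at h4
    exact h4
  have hn : ‖-y‖ = 1 := by
    have h6 := hv.norm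
    simp only [hv1] at h6
    exact tendsto_nhds_unique h6 tendsto_const_nhds
  have hAy : A (-y) = 0 := tendsto_nhds_unique ((A.continuous.tendsto _).comp hv) hA0
  rw [hinj _ hAy, norm_zero] at hn
  exact zero_ne_one hn

/-- A one-to-one Fredholm operator (invertible modulo compact operators): bounded below, and its
range meets the span of any `k + 1` vectors in a controlled way. -/
theorem fredholm_solve {H : Type*} [NormedAddCommGroup H] [InnerProductSpace ℂ H] [CompleteSpace H]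
    (A S : H →L[ℂ] H) (h1 : IsCompactOperator (⇑(S * A - 1 : H →L[ℂ] H))) (h2 : IsCompactOperator (⇑(A * S - 1 : H →L[ℂ] H)))
    (hinj : ∀ u, A u = 0 → u = 0) :
    ∃ (M : ℝ) (k : ℕ), 0 < M ∧ ∀ f : Fin (k + 1) → H, ∃ c : Fin (k + 1) → ℂ,
      (∃ i, ‖c i‖ = 1) ∧ (∀ i, ‖c i‖ ≤ 1) ∧
      ∃ u : H, A u = ∑ i, c i • f i ∧ ‖u‖ ≤ M * ‖∑ i, c i • f i‖ := by
  obtain ⟨M, hM, hb⟩ := fredholm_bdd_below A S h1 hinj
  set R : Submodule ℂ H := LinearMap.range A.toLinearMap with hR
  have hRc : IsClosed (R : Set H) := by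
    have hanti : AntilipschitzWith ⟨M, hM.le⟩ A := A.antilipschitz_of_bound hb
    have h3 := hanti.isClosed_range A.uniformContinuous
    have h4 : (R : Set H) = range A := by
      ext x
      simp [hR]
    rw [h4]
    exact h3
  have : CompleteSpace R := hRc.completeSpace_coe
  set W : Submodule ℂ H := Rᗮ with hW
  set P : H →L[ℂ] W := W.orthogonalProjectionOnto with hP
  have hPR : ∀ x, P (A x) = 0 := by
    intro x
    rw [hP, Submodule.orthogonalProjectionOnto_eq_zero_iff]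
    have : A x ∈ R := ⟨x, rfl⟩
    exact Submodule.le_orthogonal_orthogonal R this
  have hid : IsCompactOperator (id : W → W) := by
    have hc : IsCompactOperator (fun e : W => P ((A * S - 1 : H →L[ℂ] H) (W.subtypeL e))) :=
      (h2.comp_clm W.subtypeL).clm_comp P
    have hn := hc.neg
    have he : (id : W → W) = -(fun e : W => P ((A * S - 1 : H →L[ℂ] H) (W.subtypeL e))) := by
      funext e
      have h3 : P (e : H) = e := Submodule.orthogonalProjectionOnto_mem_subspace_eq_self e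
      have h4 : (A * S - 1 : H →L[ℂ] H) (e : H) = A (S e) - e := rfl
      simp only [id, Pi.neg_apply, Submodule.subtypeL_apply]
      rw [h4, map_sub, hPR, h3, zero_sub, neg_neg]
    rw [he]
    exact hn
  have : FiniteDimensional ℂ W := FiniteDimensional.of_isCompactOperator_id hid
  obtain ⟨k, hk⟩ : ∃ k, k = Module.finrank ℂ W := ⟨_, rfl⟩
  refine ⟨M, k, hM, fun f => ?_⟩
  let L : (Fin (k + 1) → ℂ) →ₗ[ℂ] W := P.toLinearMap ∘ₗ Fintype.linearCombination ℂ f
  have hL : ∀ c, L c = P (∑ i, c i • f i) := by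
    intro c
    simp [L, Fintype.linearCombination_apply]
  have hker : LinearMap.ker L ≠ ⊥ := by
    apply LinearMap.ker_ne_bot_of_finrank_lt
    rw [Module.finrank_fin_fun, ← hk]
    omega
  obtain ⟨c, hc, hc0⟩ := (Submodule.ne_bot_iff _).mp hker
  obtain ⟨i0, -, hi0⟩ := Finset.exists_max_image Finset.univ (fun i => ‖c i‖) ⟨0, Finset.mem_univ _⟩
  have hpos : 0 < ‖c i0‖ := by
    by_contra h
    push Not at h
    apply hc0
    funext i
    have := hi0 i (Finset.mem_univ _)
    rw [Pi.zero_apply, ← norm_le_zero_iff]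
    linarith
  have hci0 : c i0 ≠ 0 := norm_pos_iff.mp hpos
  refine ⟨(c i0)⁻¹ • c, ⟨i0, ?_⟩, fun i => ?_, ?_⟩
  · rw [Pi.smul_apply, smul_eq_mul, inv_mul_cancel₀ hci0, norm_one]
  · rw [Pi.smul_apply, smul_eq_mul, norm_mul, norm_inv, inv_mul_le_iff₀ hpos, mul_one]
    exact hi0 i (Finset.mem_univ _)
  · have h4 : L ((c i0)⁻¹ • c) = 0 := by
      rw [map_smul, LinearMap.mem_ker.mp hc, smul_zero]
    rw [hL, hP, Submodule.orthogonalProjectionOnto_eq_zero_iff, hW,
      Submodule.orthogonal_orthogonal] at h4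
    obtain ⟨u, hu⟩ := h4
    refine ⟨u, hu, ?_⟩
    have := hb u
    have hu' : A u = ∑ i, ((c i0)⁻¹ • c) i • f i := hu
    rw [hu'] at this
    exact this

end Pool.Agent.Helper156.Ess
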