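import Mathlib
import Pool.Agent.Helper156.Ess.H2

set_option autoImplicit false

open Complex Metric Set Filter MeasureTheory
open scoped Real Topology ComplexConjugate NNReal ENNReal

namespace Pool.Agent.Helper156.Ess

/-- coordinate functional -/
noncomputable def cfun (j : ℕ) : H2 →L[ℂ] ℂ :=
  LinearMap.mkContinuous
    { toFun := fun f => f j
      map_add' := fun f g => by rw [lp.coeFn_add, Pi.add_apply]
      map_smul' := fun c f => by rw [lp.coeFn_smul, Pi.smul_apply, RingHom.id_apply] } 1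
    (fun f => by rw [one_mul]; exact coef_le f j)

theorem cfun_apply (j : ℕ) (f : H2) : cfun j f = f j := rfl

/-- the monomials -/
noncomputable def mono (j : ℕ) : H2 := lp.single 2 j (1 : ℂ)

theorem mono_apply (j k : ℕ) : mono j k = if k = j then 1 else 0 := by
  unfold mono
  rw [lp.single_apply]
  by_cases h : k = j
  · subst h; simp
  · simp [h]

theorem mono_norm (j : ℕ) : ‖mono j‖ = 1 := by
  unfold mono
  rw [lp.norm_single (by norm_num)]
  simp

/-- the finite rank part -/
noncomputable def Fpart (M : ℕ) : H2 →L[ℂ] H2 := ∑ j ∈ Finset.range M, (cfun j).smulRight (mono j)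

theorem Fpart_apply (M : ℕ) (f : H2) (k : ℕ) : Fpart M f k = if k < M then f k else 0 := by
  unfold Fpart
  rw [ContinuousLinearMap.sum_apply, ← cfun_apply k, map_sum]
  have h : ∀ j, cfun k (((cfun j).smulRight (mono j)) f) = if j = k then f k else 0 := by
    intro j
    rw [ContinuousLinearMap.smulRight_apply, map_smul, cfun_apply, cfun_apply, mono_apply,
      smul_eq_mul]
    by_cases h : j = k
    · subst h; simp
    · rw [if_neg (Ne.symm h), if_neg h, mul_zero]
  simp only [h]
  rw [Finset.sum_ite_eq']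
  simp

theorem Fpart_compact (M : ℕ) : IsCompactOperator (⇑(Fpart M) : H2 → H2) := by
  induction M with
  | zero =>
    have : (⇑(Fpart 0) : H2 → H2) = 0 := by
      funext f; simp [Fpart]
    rw [this]
    exact isCompactOperator_zero
  | succ M ih =>
    have h : (⇑(Fpart (M + 1)) : H2 → H2) = ⇑(Fpart M) + ⇑((cfun M).smulRight (mono M)) := by
      funext f
      simp [Fpart, Finset.sum_range_succ]
    rw [h]
    apply ih.add
    have h1 : IsCompactOperator (⇑(cfun M) : H2 → ℂ) :=
      isCompactOperator_of_locallyCompactSpace_dom (cfun M)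
    have h2 := h1.clm_comp (ContinuousLinearMap.toSpanSingleton ℂ (mono M))
    have h3 : (⇑((cfun M).smulRight (mono M)) : H2 → H2) =
        ⇑(ContinuousLinearMap.toSpanSingleton ℂ (mono M)) ∘ ⇑(cfun M) := by
      funext f
      simp
    rw [h3]
    exact h2

/-- projection onto `z ^ M H2` -/
noncomputable def Pj (M : ℕ) : H2 →L[ℂ] H2 := 1 - Fpart M

theorem Pj_apply (M : ℕ) (f : H2) (k : ℕ) : Pj M f k = if k < M then 0 else f k := by
  unfold Pj
  rw [ContinuousLinearMap.sub_apply, lp.coeFn_sub, Pi.sub_apply, Fpart_apply,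
    ContinuousLinearMap.one_apply]
  split_ifs <;> simp

theorem Pj_norm_le (M : ℕ) (f : H2) : ‖Pj M f‖ ≤ ‖f‖ := by
  have h : ‖Pj M f‖ ^ 2 ≤ ‖f‖ ^ 2 := by
    rw [norm_sq, norm_sq]
    apply Summable.tsum_le_tsum _ (sq_summable _) (sq_summable _)
    intro k
    rw [Pj_apply]
    split_ifs
    · simp
    · exact le_rfl
  exact (pow_le_pow_iff_left₀ (norm_nonneg _) (norm_nonneg _) two_ne_zero).1 h

theorem Pj_fix (M : ℕ) (f : H2) (hf : ∀ j < M, f j = 0) : Pj M f = f := by
  ext k
  rw [Pj_apply]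
  split_ifs with h
  · exact (hf k h).symm
  · rfl

/-- division by a power of `z` -/
theorem exists_shift (a : H2) (j : ℕ) (ha : ∀ i < j, a i = 0) :
    ∃ b : H2, (∀ k, b k = a (k + j)) ∧ ∀ z ∈ ball (0 : ℂ) 1, ev a z = z ^ j * ev b z := by
  have hs : Summable (fun k => ‖a (k + j)‖ ^ 2) := (summable_nat_add_iff j).2 (sq_summable a)
  have hmem : Memℓp (fun k => a (k + j)) 2 := by
    apply memℓp_gen
    simpa using hs
  refine ⟨⟨fun k => a (k + j), hmem⟩, fun k => rfl, ?_⟩
  intro z hz
  rw [mem_ball_zero_iff] at hz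
  have h1 := (ev_summable a hz).sum_add_tsum_nat_add j
  have h2 : ∑ i ∈ Finset.range j, a i * z ^ i = 0 := by
    apply Finset.sum_eq_zero
    intro i hi
    rw [ha i (Finset.mem_range.1 hi), zero_mul]
  rw [h2, zero_add] at h1
  change (∑' n, a n * z ^ n) = z ^ j * ∑' k, a (k + j) * z ^ k
  rw [← h1, ← tsum_mul_left]
  congr 1
  funext k
  rw [pow_add]
  ring

theorem ev_zero (b : H2) : ev b 0 = b 0 := by
  unfold ev
  rw [tsum_eq_single 0]
  · simp
  · intro n hn
    simp [hn]

theorem ev_continuousAt (b : H2) : ContinuousAt (ev b) 0 :=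
  ((ev_diff b).differentiableAt (isOpen_ball.mem_nhds (mem_ball_self one_pos))).continuousAt

/-- lower triangular structure -/
theorem triang {φ : ℂ → ℂ} (hφ : DifferentiableOn ℂ φ (ball 0 1))
    (hm : MapsTo φ (ball (0 : ℂ) 1) (ball 0 1)) (h0 : φ 0 = 0) (T : H2 →L[ℂ] H2)
    (hT : ∀ f : H2, ∀ z ∈ ball (0 : ℂ) 1, ev (T f) z = ev f (φ z)) (M : ℕ) (f : H2)
    (hf : ∀ i < M, f i = 0) :
    ∀ j ≤ M, T f j = (deriv φ 0) ^ M * 0 ^ (M - j) * f M := by
  intro j
  induction j using Nat.strong_induction_on with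
  | _ j ih =>
  intro hj
  have hlow : ∀ i < j, T f i = 0 := by
    intro i hi
    rw [ih i hi (by omega), zero_pow (by omega)]
    ring
  obtain ⟨b, hb, hbe⟩ := exists_shift f M hf
  obtain ⟨b', hb', hbe'⟩ := exists_shift (T f) j hlow
  have hd : HasDerivAt φ (deriv φ 0) 0 :=
    (hφ.differentiableAt (isOpen_ball.mem_nhds (mem_ball_self one_pos))).hasDerivAt
  have hslope : Tendsto (fun z => φ z / z) (𝓝[≠] 0) (𝓝 (deriv φ 0)) := by
    have h1 := hasDerivAt_iff_tendsto_slope_zero.1 hd
    refine h1.congr fun z => ?_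
    rw [zero_add, h0, sub_zero, smul_eq_mul]
    ring
  have hcont : Tendsto (fun z => ev b (φ z)) (𝓝[≠] 0) (𝓝 (f M)) := by
    have h1 : ContinuousAt (fun z => ev b (φ z)) 0 := by
      have h2 : ContinuousAt (ev b) (φ 0) := by rw [h0]; exact ev_continuousAt b
      exact ContinuousAt.comp (f := φ) (g := ev b) h2 hd.continuousAt
    have h3 := h1.tendsto
    rw [h0, ev_zero, hb, zero_add] at h3
    exact h3.mono_left nhdsWithin_le_nhds
  have hz : Tendsto (fun z : ℂ => z) (𝓝[≠] 0) (𝓝 0) := tendsto_id.mono_left nhdsWithin_le_nhds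
  have hlim : Tendsto (fun z => (φ z / z) ^ M * z ^ (M - j) * ev b (φ z)) (𝓝[≠] 0)
      (𝓝 ((deriv φ 0) ^ M * 0 ^ (M - j) * f M)) :=
    ((hslope.pow M).mul (hz.pow (M - j))).mul hcont
  have hlim2 : Tendsto (fun z => ev b' z) (𝓝[≠] 0) (𝓝 (T f j)) := by
    have h3 := (ev_continuousAt b').tendsto
    rw [ev_zero, hb', zero_add] at h3
    exact h3.mono_left nhdsWithin_le_nhds
  refine tendsto_nhds_unique hlim2 (hlim.congr' ?_)
  have hball : ball (0 : ℂ) 1 ∈ 𝓝[≠] (0 : ℂ) :=
    mem_nhdsWithin_of_mem_nhds (ball_mem_nhds 0 one_pos)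
  filter_upwards [hball, self_mem_nhdsWithin] with z hz1 hz2
  have hz0 : z ≠ 0 := hz2
  have h1 := hbe' z hz1
  rw [hT f z hz1, hbe (φ z) (hm hz1)] at h1
  have h2 : z ^ M = z ^ j * z ^ (M - j) := by rw [← pow_add]; congr 1; omega
  rw [div_pow]
  have h3 : z ^ j ≠ 0 := pow_ne_zero _ hz0
  have h4 : z ^ M ≠ 0 := pow_ne_zero _ hz0
  apply mul_left_cancel₀ h3
  rw [← h1]
  field_simp
  rw [h2]
  ring

/-- If a power of the composition operator is small on `z^M H²` then `T - μ` is invertible modulo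
compact operators, and invertible unless `μ` is a Schroeder value. -/
theorem inv_of_bound {φ : ℂ → ℂ} (hφ : DifferentiableOn ℂ φ (ball 0 1))
    (hm : MapsTo φ (ball (0 : ℂ) 1) (ball 0 1)) (h0 : φ 0 = 0) (T : H2 →L[ℂ] H2)
    (hT : ∀ f : H2, ∀ z ∈ ball (0 : ℂ) 1, ev (T f) z = ev f (φ z)) (M n : ℕ) (μ : ℂ) (hμ : μ ≠ 0)
    (hb : ∀ f : H2, (∀ j < M, f j = 0) → ‖(T ^ n) f‖ ≤ 1 / 2 * ‖μ‖ ^ n * ‖f‖) :
    (∃ S : H2 →L[ℂ] H2, IsCompactOperator (⇑(S * (T - μ • (1 : H2 →L[ℂ] H2)) - 1 : H2 →L[ℂ] H2)) ∧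
      IsCompactOperator (⇑((T - μ • (1 : H2 →L[ℂ] H2)) * S - 1 : H2 →L[ℂ] H2))) ∧
    ((∀ j : ℕ, μ ≠ (deriv φ 0) ^ j) → IsUnit (T - μ • (1 : H2 →L[ℂ] H2))) := by
  set P := Pj M with hP
  have htri := triang hφ hm h0 T hT
  have hTlow : ∀ (N : ℕ) (f : H2), (∀ i < N, f i = 0) → ∀ j < N, T f j = 0 := by
    intro N f hf j hj
    rw [htri N f hf j hj.le, zero_pow (by omega)]
    ring
  have hTdiag : ∀ (N : ℕ) (f : H2), (∀ i < N, f i = 0) → T f N = (deriv φ 0) ^ N * f N := by
    intro N f hf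
    rw [htri N f hf N le_rfl, Nat.sub_self, pow_zero, mul_one]
  have hPlow : ∀ f, ∀ j < M, P f j = 0 := by
    intro f j hj
    rw [hP, Pj_apply, if_pos hj]
  have hPTP : P * (T * P) = T * P := by
    ext1 f
    exact Pj_fix M _ (hTlow M _ (hPlow f))
  have hPP : P * P = P := by
    ext1 f
    exact Pj_fix M _ (hPlow f)
  -- n is positive
  have hn0 : n ≠ 0 := by
    rintro rfl
    have h1 := hb (mono M) (by
      intro j hj
      rw [mono_apply, if_neg hj.ne])
    rw [pow_zero, pow_zero, ContinuousLinearMap.one_apply, mono_norm] at h1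
    norm_num at h1
  have hpow : ∀ k : ℕ, (T * P) ^ (k + 1) = T ^ (k + 1) * P := by
    intro k
    induction k with
    | zero => rw [zero_add, pow_one, pow_one]
    | succ k ih => rw [pow_succ, ih, mul_assoc, hPTP, ← mul_assoc, ← pow_succ]
  set Y : H2 →L[ℂ] H2 := μ⁻¹ • (T * P) with hY
  have hYn : ‖Y ^ n‖ ≤ 1 / 2 := by
    apply ContinuousLinearMap.opNorm_le_bound _ (by norm_num)
    intro f
    obtain ⟨m, rfl⟩ : ∃ m, n = m + 1 := ⟨n - 1, by omega⟩
    have e : (T ^ (m + 1) * P) f = (T ^ (m + 1)) (P f) := rfl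
    rw [hY, smul_pow, hpow, ContinuousLinearMap.smul_apply, e,
      norm_smul, norm_pow, norm_inv]
    have h1 := hb (P f) (hPlow f)
    have hμ' : 0 < ‖μ‖ ^ (m + 1) := pow_pos (norm_pos_iff.2 hμ) _
    calc ‖μ‖⁻¹ ^ (m + 1) * ‖(T ^ (m + 1)) (P f)‖
        ≤ ‖μ‖⁻¹ ^ (m + 1) * (1 / 2 * ‖μ‖ ^ (m + 1) * ‖P f‖) := by gcongr
      _ = 1 / 2 * ‖P f‖ := by
        rw [inv_pow]; field_simp
      _ ≤ 1 / 2 * ‖f‖ := by
        gcongr; exact Pj_norm_le M f
  have hunit : IsUnit (1 - Y) := by
    have h1 : IsUnit (1 - Y ^ n) := isUnit_one_sub_of_norm_lt_one (hYn.trans_lt (by norm_num))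
    rw [← mul_neg_geom_sum Y n] at h1
    have hcomm : Commute (1 - Y) (∑ i ∈ Finset.range n, Y ^ i) := by
      apply Commute.sum_right
      intro i _
      exact ((Commute.one_left _).sub_left ((Commute.refl Y).pow_right i))
    exact (hcomm.isUnit_mul_iff.1 h1).1
  obtain ⟨u, hu⟩ := hunit
  set W : H2 →L[ℂ] H2 := ↑u⁻¹ with hW
  have hW1 : W * (1 - Y) = 1 := by rw [← hu, hW]; exact u.inv_mul
  have hW2 : (1 - Y) * W = 1 := by rw [← hu, hW]; exact u.mul_inv
  have hPY : P * Y = Y := by
    rw [hY, mul_smul_comm, hPTP]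
  have hYP : Y * P = Y := by
    rw [hY, smul_mul_assoc, mul_assoc, hPP]
  have hcommP : P * (1 - Y) = (1 - Y) * P := by
    rw [mul_sub, sub_mul, mul_one, one_mul, hPY, hYP]
  have hPW : P * W = W * P := by
    calc P * W = (W * (1 - Y)) * (P * W) := by rw [hW1, one_mul]
      _ = W * ((1 - Y) * P) * W := by simp only [mul_assoc]
      _ = W * (P * (1 - Y)) * W := by rw [hcommP]
      _ = W * P * ((1 - Y) * W) := by simp only [mul_assoc]
      _ = W * P := by rw [hW2, mul_one]
  set D : H2 →L[ℂ] H2 := T - μ • (1 : H2 →L[ℂ] H2) with hD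
  have hDP : D * P = (-μ) • ((1 - Y) * P) := by
    rw [hD, sub_mul, smul_mul_assoc, one_mul, sub_mul, one_mul, hYP, smul_sub, hY, smul_smul]
    have : -μ * μ⁻¹ = -1 := by field_simp
    rw [this, neg_smul, neg_smul, one_smul]
    abel
  set R : H2 →L[ℂ] H2 := (-μ⁻¹) • (W * P) with hR
  have hDR : D * R = P := by
    calc D * R = (-μ⁻¹) • (D * (W * P)) := by rw [hR, mul_smul_comm]
      _ = (-μ⁻¹) • ((D * P) * W) := by rw [← hPW, mul_assoc]
      _ = (-μ⁻¹) • ((-μ) • (((1 - Y) * P) * W)) := by rw [hDP, smul_mul_assoc]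
      _ = ((1 - Y) * P) * W := by
        rw [smul_smul]
        have : -μ⁻¹ * -μ = 1 := by field_simp
        rw [this, one_smul]
      _ = (P * (1 - Y)) * W := by rw [hcommP]
      _ = P := by rw [mul_assoc, hW2, mul_one]
  have hRDP : R * (D * P) = P := by
    calc R * (D * P) = (-μ⁻¹) • ((W * P) * ((-μ) • ((1 - Y) * P))) := by
          rw [hDP, hR, smul_mul_assoc]
      _ = (W * P) * ((1 - Y) * P) := by
        rw [mul_smul_comm, smul_smul]
        have : -μ⁻¹ * -μ = 1 := by field_simp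
        rw [this, one_smul]
      _ = W * (P * (1 - Y)) * P := by simp only [mul_assoc]
      _ = W * ((1 - Y) * P) * P := by rw [hcommP]
      _ = (W * (1 - Y)) * (P * P) := by simp only [mul_assoc]
      _ = P := by rw [hW1, one_mul, hPP]
  have hFP : (1 : H2 →L[ℂ] H2) - P = Fpart M := by
    rw [hP, Pj, sub_sub_cancel]
  refine ⟨⟨R, ?_, ?_⟩, ?_⟩
  · have h0 : ∀ A B : H2 →L[ℂ] H2, A * B = 0 → A * (1 - B) = A := fun A B h => by
      rw [mul_sub, mul_one, h, sub_zero]
    have h00 : ∀ A B C : H2 →L[ℂ] H2, A * (B * C) = C → (A * B - 1) * C = 0 := fun A B C h => by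
      rw [sub_mul, one_mul, mul_assoc, h, sub_self]
    have h2 : (R * D - 1) * P = 0 := h00 R D P hRDP
    have h1 : R * D - 1 = (R * D - 1) * Fpart M := by
      rw [← hFP]; exact (h0 _ _ h2).symm
    rw [h1]
    exact (Fpart_compact M).clm_comp (R * D - 1)
  · have h1 : D * R - 1 = -(Fpart M) := by
      rw [hDR, ← hFP]; abel
    rw [h1]
    exact (Fpart_compact M).neg
  · intro hne
    rw [ContinuousLinearMap.isUnit_iff_bijective]
    constructor
    · rw [injective_iff_map_eq_zero]
      intro f hf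
      have hTf : T f = μ • f := by
        rw [hD, ContinuousLinearMap.sub_apply, ContinuousLinearMap.smul_apply,
          ContinuousLinearMap.one_apply] at hf
        exact sub_eq_zero.1 hf
      have hall : ∀ j, f j = 0 := by
        intro j
        induction j using Nat.strong_induction_on with
        | _ j ih =>
        have h1 := hTdiag j f ih
        rw [hTf, lp.coeFn_smul, Pi.smul_apply, smul_eq_mul] at h1
        have h2 : (μ - deriv φ 0 ^ j) * f j = 0 := by rw [sub_mul, h1, sub_self]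
        exact (mul_eq_zero.1 h2).resolve_left (sub_ne_zero.2 (hne j))
      ext j
      rw [hall j]
      rfl
    · have hkey : ∀ k ≤ M, ∀ g : H2, (∀ i < M - k, g i = 0) → ∃ f, D f = g := by
        intro k
        induction k with
        | zero =>
          intro _ g hg
          refine ⟨R g, ?_⟩
          have h1 : D (R g) = P g := by rw [← hDR]; rfl
          rw [h1]
          exact Pj_fix M g hg
        | succ k ih =>
          intro hk g hg
          set j := M - (k + 1) with hj
          have hjk : M - k = j + 1 := by omega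
          set c := g j / (deriv φ 0 ^ j - μ) with hc
          have hden : deriv φ 0 ^ j - μ ≠ 0 := sub_ne_zero.2 (hne j).symm
          have hmlow : ∀ i < j, mono j i = 0 := by
            intro i hi
            rw [mono_apply, if_neg hi.ne]
          obtain ⟨f, hf⟩ := ih (by omega) (g - D (c • mono j)) (by
            intro i hi
            rw [hjk] at hi
            rw [lp.coeFn_sub, Pi.sub_apply, map_smul, lp.coeFn_smul, Pi.smul_apply, hD,
              ContinuousLinearMap.sub_apply, ContinuousLinearMap.smul_apply,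
              ContinuousLinearMap.one_apply, lp.coeFn_sub, Pi.sub_apply, lp.coeFn_smul,
              Pi.smul_apply]
            rcases Nat.lt_succ_iff_lt_or_eq.1 hi with h | h
            · rw [hTlow j _ hmlow i h, hmlow i h, hg i h]
              simp
            · subst h
              rw [hTdiag j _ hmlow, mono_apply, if_pos rfl, hc]
              simp only [smul_eq_mul, mul_one]
              field_simp
              ring)
          refine ⟨f + c • mono j, ?_⟩
          rw [map_add, hf]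
          abel
      intro g
      exact hkey M le_rfl g (by intro i hi; omega)


end Pool.Agent.Helper156.Ess
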