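import Mathlib
import Pool.Agent.Helper156.Ess.H2

set_option autoImplicit false

open Complex Metric Set Filter MeasureTheory
open scoped Real Topology ComplexConjugate NNReal ENNReal

namespace Pool.Agent.Helper156.Ess

theorem deriv_ev_hasSum (f : H2) {z : ℂ} (hz : ‖z‖ < 1) :
    HasSum (fun k : ℕ => (((k : ℂ) + 1) * f (k + 1)) * z ^ k) (deriv (ev f) z) := by
  obtain ⟨r, hr1, hr2⟩ := exists_between hz
  have h0 : 0 ≤ r := (norm_nonneg z).trans hr1.le
  have h1 : HasSum (fun n : ℕ => deriv (fun w : ℂ => f n * w ^ n) z)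
      (deriv (fun w : ℂ => ∑' n : ℕ, f n * w ^ n) z) := by
    apply hasSum_deriv_of_summable_norm (ev_summable_norm f h0 hr2) (U := ball (0 : ℂ) r)
    · intro i; fun_prop
    · exact isOpen_ball
    · intro n w hw
      rw [mem_ball_zero_iff] at hw
      rw [norm_mul, norm_pow]
      gcongr
    · exact mem_ball_zero_iff.2 hr1
  have e1 : ∀ n : ℕ, deriv (fun w : ℂ => f n * w ^ n) z = f n * ((n : ℂ) * z ^ (n - 1)) := by
    intro n
    rw [deriv_const_mul _ (by fun_prop)]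
    simp
  simp only [e1] at h1
  rw [← hasSum_nat_add_iff' 1] at h1
  simp only [Finset.range_one, Finset.sum_singleton, Nat.cast_zero, zero_mul, mul_zero,
    sub_zero, Nat.add_sub_cancel] at h1
  have e2 : (fun k : ℕ => (((k : ℂ) + 1) * f (k + 1)) * z ^ k) =
      fun n : ℕ => f (n + 1) * (((n + 1 : ℕ) : ℂ) * z ^ n) := by
    funext n
    push_cast
    ring
  rw [e2]
  exact h1

theorem deriv_coef_summable (f : H2) {r : ℝ} (h0 : 0 ≤ r) (h1 : r < 1) :
    Summable fun k : ℕ => ‖((k : ℂ) + 1) * f (k + 1)‖ * r ^ k := by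
  have h2 := (deriv_ev_hasSum f (z := (r : ℂ)) (by
      rw [Complex.norm_real, Real.norm_of_nonneg h0]; exact h1)).summable.norm
  refine h2.congr fun k => ?_
  rw [norm_mul _ ((r : ℂ) ^ k), norm_pow, Complex.norm_real, Real.norm_of_nonneg h0]

theorem coef_norm (f : H2) (k : ℕ) :
    ‖((k : ℂ) + 1) * f (k + 1)‖ ^ 2 = ((k : ℝ) + 1) ^ 2 * ‖f (k + 1)‖ ^ 2 := by
  rw [norm_mul, mul_pow]
  congr 2
  have : ((k : ℂ) + 1) = ((k + 1 : ℕ) : ℂ) := by push_cast; ring
  rw [this, Complex.norm_natCast]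
  push_cast
  ring

theorem circle_lint (f : H2) {r : ℝ} (h0 : 0 ≤ r) (h1 : r < 1) :
    ∫⁻ θ in Ioo (-π) π, ENNReal.ofReal (‖deriv (ev f) (circleMap 0 r θ)‖ ^ 2) =
      ENNReal.ofReal (2 * π * ∑' k : ℕ, ((k : ℝ) + 1) ^ 2 * ‖f (k + 1)‖ ^ 2 * r ^ (2 * k)) := by
  set G : ℝ → ℝ := fun θ => ‖∑' k : ℕ, (((k : ℂ) + 1) * f (k + 1)) * (circleMap 0 r θ) ^ k‖ ^ 2
    with hG
  have hz : ∀ θ, ‖circleMap 0 r θ‖ < 1 := by
    intro θ
    rw [norm_circleMap_zero, abs_of_nonneg h0]; exact h1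
  have e1 : ∀ θ, ‖deriv (ev f) (circleMap 0 r θ)‖ ^ 2 = G θ := by
    intro θ
    rw [hG, ← (deriv_ev_hasSum f (hz θ)).tsum_eq]
  have hs := deriv_coef_summable f h0 h1
  have hGc : Continuous G := by
    rw [hG]
    apply Continuous.pow
    apply Continuous.norm
    apply continuous_tsum _ hs
    · intro k θ
      rw [norm_mul _ ((circleMap 0 r θ) ^ k), norm_pow, norm_circleMap_zero, abs_of_nonneg h0]
    · intro k
      have := continuous_circleMap 0 r
      fun_prop
  have hGp : Function.Periodic G (2 * π) := by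
    intro θ
    simp only [hG]
    rw [periodic_circleMap 0 r θ]
  have h2 : ∫ θ : ℝ, G θ ∂mT = ∑' k : ℕ, ‖((k : ℂ) + 1) * f (k + 1)‖ ^ 2 * r ^ (2 * k) :=
    parseval_power (fun k => ((k : ℂ) + 1) * f (k + 1)) h0 hs
  simp only [coef_norm] at h2
  rw [← h2, integral_mT]
  simp only [e1]
  rw [← ofReal_integral_eq_lintegral_ofReal]
  · congr 1
    rw [smul_eq_mul, ← mul_assoc, mul_inv_cancel₀ (by positivity), one_mul]
    have h3 := hGp.intervalIntegral_add_eq (-π) 0
    have e3 : -π + 2 * π = π := by ring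
    rw [e3, zero_add] at h3
    rw [← h3, intervalIntegral.integral_of_le (by linarith [Real.pi_pos]),
      integral_Ioc_eq_integral_Ioo]
  · exact (hGc.integrableOn_Icc (a := -π) (b := π)).mono_set Ioo_subset_Icc_self
  · exact Eventually.of_forall fun θ => by simp only [hG]; positivity

theorem radial_int (k : ℕ) (c : ℝ) :
    ∫⁻ r in Ioo (0 : ℝ) 1, ENNReal.ofReal (c ^ 2 * (r ^ (2 * k + 1) * (1 - r ^ 2))) =
      ENNReal.ofReal (c ^ 2 * (1 / (2 * ((k : ℝ) + 1) * ((k : ℝ) + 2)))) := by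
  rw [← ofReal_integral_eq_lintegral_ofReal]
  · congr 1
    rw [integral_const_mul, ← integral_Ioc_eq_integral_Ioo,
      ← intervalIntegral.integral_of_le zero_le_one]
    congr 1
    have e : ∀ r : ℝ, r ^ (2 * k + 1) * (1 - r ^ 2) = r ^ (2 * k + 1) - r ^ (2 * k + 3) := by
      intro r; ring
    simp only [e]
    rw [intervalIntegral.integral_sub (by simp) (by simp), integral_pow, integral_pow]
    push_cast
    have : (k : ℝ) + 1 ≠ 0 := by positivity
    have : (k : ℝ) + 2 ≠ 0 := by positivity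
    have : 2 * (k : ℝ) + 1 + 1 ≠ 0 := by positivity
    have : 2 * (k : ℝ) + 3 + 1 ≠ 0 := by positivity
    simp
    field_simp
    ring
  · have hc : Continuous fun r : ℝ => c ^ 2 * (r ^ (2 * k + 1) * (1 - r ^ 2)) := by fun_prop
    exact (hc.integrableOn_Icc (a := 0) (b := 1)).mono_set Ioo_subset_Icc_self
  · filter_upwards [ae_restrict_mem measurableSet_Ioo] with r hr
    have h1 : 0 ≤ 1 - r ^ 2 := by nlinarith [hr.1, hr.2]
    have h2 : 0 ≤ r ^ (2 * k + 1) := pow_nonneg hr.1.le _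
    have : (0 : ℝ → ℝ) r = 0 := rfl
    rw [this]
    positivity


theorem sq_coef_summable (f : H2) {r : ℝ} (h0 : 0 ≤ r) (h1 : r < 1) :
    Summable fun k : ℕ => ((k : ℝ) + 1) ^ 2 * ‖f (k + 1)‖ ^ 2 * r ^ (2 * k) := by
  have h2 := deriv_coef_summable f h0 h1
  have h3 := (h2.mul_of_nonneg h2 (fun k => by positivity) (fun k => by positivity))
  have h4 := h3.comp_injective (i := fun k : ℕ => (k, k)) (fun x y hxy => by simpa using hxy)
  refine h4.congr fun k => ?_
  simp only [Function.comp]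
  rw [← coef_norm]
  ring

theorem lp_identity (f : H2) :
    ∫⁻ z in ball (0 : ℂ) 1, ENNReal.ofReal (‖deriv (ev f) z‖ ^ 2 * (1 - ‖z‖ ^ 2)) =
      ∑' k : ℕ, ENNReal.ofReal (π * ‖f (k + 1)‖ ^ 2 * (((k : ℝ) + 1) / ((k : ℝ) + 2))) := by
  have hm : Measurable fun z : ℂ => ENNReal.ofReal (‖deriv (ev f) z‖ ^ 2 * (1 - ‖z‖ ^ 2)) := by
    have := measurable_deriv (ev f)
    fun_prop
  rw [← lintegral_indicator measurableSet_ball, ← Complex.lintegral_comp_polarCoord_symm]
  have hpc : Measurable fun p : ℝ × ℝ => Complex.polarCoord.symm p := by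
    simp only [Complex.polarCoord_symm_apply]
    fun_prop
  rw [show polarCoord.target = Ioi (0 : ℝ) ×ˢ Ioo (-π) π from rfl, Measure.volume_eq_prod,
    setLIntegral_prod]
  swap
  · apply Measurable.aemeasurable
    apply Measurable.mul
    · fun_prop
    · exact (hm.indicator measurableSet_ball).comp hpc
  have hsplit : Ioi (0 : ℝ) = Ioo 0 1 ∪ Ici 1 := by
    rw [Ioo_union_Ici_eq_Ioi zero_lt_one]
  have hzero : ∫⁻ r in Ioi (0 : ℝ), ∫⁻ θ in Ioo (-π) π, ENNReal.ofReal r •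
        (ball (0 : ℂ) 1).indicator (fun z => ENNReal.ofReal (‖deriv (ev f) z‖ ^ 2 * (1 - ‖z‖ ^ 2)))
          (Complex.polarCoord.symm (r, θ)) =
      ∫⁻ r in Ioi (0 : ℝ), (Ioo (0 : ℝ) 1).indicator (fun r => ∑' k : ℕ,
        ENNReal.ofReal (2 * π * ((k : ℝ) + 1) ^ 2 * ‖f (k + 1)‖ ^ 2 *
          (r ^ (2 * k + 1) * (1 - r ^ 2)))) r := by
    apply setLIntegral_congr_fun measurableSet_Ioi
    intro r hr
    have hr0 : 0 < r := hr
    by_cases h1 : r < 1
    · rw [indicator_of_mem (show r ∈ Ioo (0 : ℝ) 1 from ⟨hr0, h1⟩)]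
      have hp : ∀ θ : ℝ, Complex.polarCoord.symm (r, θ) = circleMap 0 r θ := by
        intro θ
        rw [Complex.polarCoord_symm_apply, circleMap_zero, Complex.exp_mul_I]
        push_cast
        rfl
      have hn : ∀ θ, ‖circleMap 0 r θ‖ = r := by
        intro θ
        rw [norm_circleMap_zero, abs_of_pos hr0]
      have e1 : ∀ θ : ℝ, ENNReal.ofReal r •
          (ball (0 : ℂ) 1).indicator (fun z => ENNReal.ofReal
            (‖deriv (ev f) z‖ ^ 2 * (1 - ‖z‖ ^ 2))) (Complex.polarCoord.symm (r, θ)) =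
          ENNReal.ofReal (r * (1 - r ^ 2)) *
            ENNReal.ofReal (‖deriv (ev f) (circleMap 0 r θ)‖ ^ 2) := by
        intro θ
        rw [hp θ, indicator_of_mem (by rw [mem_ball_zero_iff, hn]; exact h1), hn, smul_eq_mul,
          ← ENNReal.ofReal_mul hr0.le, ← ENNReal.ofReal_mul
            (mul_nonneg hr0.le (by nlinarith))]
        congr 1
        ring
      simp only [e1]
      rw [lintegral_const_mul' _ _ ENNReal.ofReal_ne_top, circle_lint f hr0.le h1,
        ← ENNReal.ofReal_mul (mul_nonneg hr0.le (by nlinarith)), ← tsum_mul_left, ← tsum_mul_left,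
        ENNReal.ofReal_tsum_of_nonneg]
      · congr 1
        funext k
        congr 1
        ring
      · intro k
        have : 0 ≤ r * (1 - r ^ 2) := mul_nonneg hr0.le (by nlinarith)
        positivity
      · exact ((sq_coef_summable f hr0.le h1).mul_left _).mul_left _
    · rw [indicator_of_notMem (fun h : r ∈ Ioo (0 : ℝ) 1 => h1 h.2)]
      have e1 : ∀ θ : ℝ, ENNReal.ofReal r •
          (ball (0 : ℂ) 1).indicator (fun z => ENNReal.ofReal
            (‖deriv (ev f) z‖ ^ 2 * (1 - ‖z‖ ^ 2))) (Complex.polarCoord.symm (r, θ)) = 0 := by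
        intro θ
        rw [indicator_of_notMem, smul_zero]
        rw [mem_ball_zero_iff, Complex.norm_polarCoord_symm]
        simp only
        rw [abs_of_pos hr0]
        exact h1
      simp only [e1]
      simp
  rw [hzero, setLIntegral_indicator measurableSet_Ioo,
    inter_eq_left.2 (Ioo_subset_Ioi_self), lintegral_tsum]
  swap
  · intro k
    apply Measurable.aemeasurable
    fun_prop
  congr 1
  funext k
  have h3 := radial_int k (Real.sqrt (2 * π) * (((k : ℝ) + 1) * ‖f (k + 1)‖))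
  have e4 : (Real.sqrt (2 * π) * (((k : ℝ) + 1) * ‖f (k + 1)‖)) ^ 2 =
      2 * π * ((k : ℝ) + 1) ^ 2 * ‖f (k + 1)‖ ^ 2 := by
    rw [mul_pow, Real.sq_sqrt (by positivity)]
    ring
  rw [e4] at h3
  rw [h3]
  congr 1
  have : (k : ℝ) + 1 ≠ 0 := by positivity
  have : (k : ℝ) + 2 ≠ 0 := by positivity
  field_simp

theorem norm_sq' (f : H2) : ‖f‖ ^ 2 = ‖f 0‖ ^ 2 + ∑' n, ‖f (n + 1)‖ ^ 2 := by
  rw [norm_sq, (sq_summable f).tsum_eq_zero_add]

theorem shift_sum (f : H2) : Summable fun n => ‖f (n + 1)‖ ^ 2 :=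
  (summable_nat_add_iff 1).2 (sq_summable f)

/-- Littlewood-Paley, upper bound. -/
theorem lp_le (f : H2) :
    ∫⁻ z in ball (0 : ℂ) 1, ENNReal.ofReal (‖deriv (ev f) z‖ ^ 2 * (1 - ‖z‖ ^ 2)) ≤
      ENNReal.ofReal (π * ‖f‖ ^ 2) := by
  rw [lp_identity]
  calc ∑' k : ℕ, ENNReal.ofReal (π * ‖f (k + 1)‖ ^ 2 * (((k : ℝ) + 1) / ((k : ℝ) + 2)))
      ≤ ∑' k : ℕ, ENNReal.ofReal (π * ‖f (k + 1)‖ ^ 2) := by
        apply ENNReal.tsum_le_tsum
        intro k
        apply ENNReal.ofReal_le_ofReal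
        apply mul_le_of_le_one_right (by positivity)
        rw [div_le_one (by positivity)]
        linarith
    _ = ENNReal.ofReal (π * ∑' n, ‖f (n + 1)‖ ^ 2) := by
        rw [← tsum_mul_left, ENNReal.ofReal_tsum_of_nonneg (fun k => by positivity)
          ((shift_sum f).mul_left π)]
    _ ≤ ENNReal.ofReal (π * ‖f‖ ^ 2) := by
        apply ENNReal.ofReal_le_ofReal
        rw [norm_sq' f]
        have : 0 ≤ ‖f 0‖ ^ 2 := by positivity
        have := Real.pi_pos
        nlinarith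

/-- Littlewood-Paley, lower bound. -/
theorem lp_ge (f : H2) (h0 : f 0 = 0) :
    ENNReal.ofReal (π / 2 * ‖f‖ ^ 2) ≤
      ∫⁻ z in ball (0 : ℂ) 1, ENNReal.ofReal (‖deriv (ev f) z‖ ^ 2 * (1 - ‖z‖ ^ 2)) := by
  rw [lp_identity]
  calc ENNReal.ofReal (π / 2 * ‖f‖ ^ 2) = ENNReal.ofReal (π / 2 * ∑' n, ‖f (n + 1)‖ ^ 2) := by
        rw [norm_sq' f, h0, norm_zero]
        congr 1
        ring
    _ = ∑' k : ℕ, ENNReal.ofReal (π / 2 * ‖f (k + 1)‖ ^ 2) := by
        rw [← tsum_mul_left, ENNReal.ofReal_tsum_of_nonneg (fun k => by positivity)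
          ((shift_sum f).mul_left _)]
    _ ≤ _ := by
        apply ENNReal.tsum_le_tsum
        intro k
        apply ENNReal.ofReal_le_ofReal
        have h1 : (1 : ℝ) / 2 ≤ ((k : ℝ) + 1) / ((k : ℝ) + 2) := by
          rw [div_le_div_iff₀ (by norm_num) (by positivity)]
          have : (0 : ℝ) ≤ k := Nat.cast_nonneg k
          linarith
        have h2 : 0 ≤ π * ‖f (k + 1)‖ ^ 2 := by positivity
        nlinarith

end Pool.Agent.Helper156.Ess
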