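import Mathlib
import Pool.Agent.Helper156.Ess.Boot
import Pool.Agent.Helper156.Ess.LP
import Pool.Agent.Helper156.Ess.Area

set_option autoImplicit false

open Complex Metric Set Filter MeasureTheory
open scoped Real Topology ComplexConjugate NNReal ENNReal

namespace Pool.Agent.Helper156.Ess

theorem pow_ev {φ : ℂ → ℂ} (hm : MapsTo φ (ball (0 : ℂ) 1) (ball 0 1)) {T : H2 →L[ℂ] H2}
    (hT : ∀ f : H2, ∀ z ∈ ball (0 : ℂ) 1, ev (T f) z = ev f (φ z)) (n : ℕ) (f : H2) :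
    ∀ z ∈ ball (0 : ℂ) 1, ev ((T ^ n) f) z = ev f (φ^[n] z) := by
  induction n generalizing f with
  | zero => intro z _; simp
  | succ n ih =>
    intro z hz
    rw [pow_succ, mul_apply_eq_comp, ih (T f) z hz, hT f _ (iter_maps hm n hz),
      Function.iterate_succ_apply']

theorem log_ge {x : ℝ} (hx : 0 < x) : 1 - x ^ 2 ≤ 2 * (-Real.log x) := by
  have := Real.log_le_sub_one_of_pos hx
  nlinarith [sq_nonneg (x - 1)]

/-- The logarithm is integrable on the disc. -/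
theorem log_integral : ∫⁻ w in ball (0 : ℂ) 1, ENNReal.ofReal (-Real.log ‖w‖) ≤
    ENNReal.ofReal (2 * π) := by
  have hmeas : Measurable fun w : ℂ => ENNReal.ofReal (-Real.log ‖w‖) := by fun_prop
  rw [polar_sm _ hmeas 1]
  calc ∫⁻ s in Ioo (0 : ℝ) 1, ENNReal.ofReal s * ∫⁻ φ in Ioo (-π) π,
        ENNReal.ofReal (-Real.log ‖circleMap 0 s φ‖)
      ≤ ∫⁻ s in Ioo (0 : ℝ) 1, ENNReal.ofReal (2 * π) := by
        apply setLIntegral_mono' measurableSet_Ioo
        intro s hs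
        have h1 : ∀ φ : ℝ, ‖circleMap 0 s φ‖ = s := by
          intro φ
          rw [norm_circleMap_zero, abs_of_pos hs.1]
        simp only [h1]
        rw [setLIntegral_const, Real.volume_Ioo,
          ← ENNReal.ofReal_mul' (by linarith [Real.pi_pos] : (0 : ℝ) ≤ π - -π),
          ← ENNReal.ofReal_mul hs.1.le]
        apply ENNReal.ofReal_le_ofReal
        have h2 := Real.one_sub_inv_le_log_of_pos hs.1
        have h3 : s * (-Real.log s) ≤ 1 := by
          have h4 : s * (1 - s⁻¹) ≤ s * Real.log s := by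
            have := hs.1.le
            gcongr
          have h5 : s * (1 - s⁻¹) = s - 1 := by
            have := hs.1.ne'
            field_simp
          nlinarith [hs.1]
        have hpi := Real.pi_pos
        calc s * (-Real.log s * (π - -π)) = (s * (-Real.log s)) * (2 * π) := by ring
          _ ≤ 1 * (2 * π) := by gcongr
          _ = 2 * π := one_mul _
    _ = ENNReal.ofReal (2 * π) := by
        rw [setLIntegral_const, Real.volume_Ioo]
        simp

/-- Derivatives of functions vanishing to high order are small on compact subsets. -/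
theorem deriv_small {ρ : ℝ} (hρ0 : 0 ≤ ρ) (hρ1 : ρ < 1) {ε : ℝ} (hε : 0 < ε) :
    ∃ M : ℕ, ∀ f : H2, (∀ j < M + 1, f j = 0) → ∀ z : ℂ, ‖z‖ ≤ ρ →
      ‖deriv (ev f) z‖ ≤ ε * ‖f‖ := by
  have hsum : Summable fun k : ℕ => ((k : ℝ) + 1) * ρ ^ k := by
    have h1 : Summable fun k : ℕ => (k : ℝ) * ρ ^ k := by
      have := summable_pow_mul_geometric_of_norm_lt_one (R := ℝ) 1 (r := ρ)
        (by rw [Real.norm_of_nonneg hρ0]; exact hρ1)
      simpa using this
    have h2 := h1.add (summable_geometric_of_lt_one hρ0 hρ1)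
    refine h2.congr fun k => by ring
  have htail := tendsto_sum_nat_add fun k : ℕ => ((k : ℝ) + 1) * ρ ^ k
  obtain ⟨M, hM⟩ := (htail.eventually (gt_mem_nhds hε)).exists
  refine ⟨M, fun f hf z hz => ?_⟩
  have hz1 : ‖z‖ < 1 := hz.trans_lt hρ1
  have h3 := deriv_ev_hasSum f hz1
  have h4 : HasSum (fun k : ℕ => (((k + M : ℕ) : ℂ) + 1) * f (k + M + 1) * z ^ (k + M))
      (deriv (ev f) z) := by
    rw [← hasSum_nat_add_iff' M] at h3
    have e : ∑ i ∈ Finset.range M, ((i : ℂ) + 1) * f (i + 1) * z ^ i = 0 := by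
      apply Finset.sum_eq_zero
      intro i hi
      rw [hf (i + 1) (by have := Finset.mem_range.1 hi; omega)]
      ring
    rw [e, sub_zero] at h3
    exact h3
  have h5 : Summable fun k : ℕ => (((k + M : ℕ) : ℝ) + 1) * ρ ^ (k + M) :=
    (summable_nat_add_iff M).2 hsum
  have h6 : HasSum (fun k : ℕ => ‖f‖ * ((((k + M : ℕ) : ℝ) + 1) * ρ ^ (k + M)))
      (‖f‖ * ∑' k : ℕ, (((k + M : ℕ) : ℝ) + 1) * ρ ^ (k + M)) := h5.hasSum.mul_left _
  rw [← h4.tsum_eq]
  refine (tsum_of_norm_bounded h6 (fun k => ?_)).trans ?_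
  · rw [norm_mul, norm_mul, norm_pow]
    have e1 : ‖((k + M : ℕ) : ℂ) + 1‖ = ((k + M : ℕ) : ℝ) + 1 := by
      have : ((k + M : ℕ) : ℂ) + 1 = ((k + M + 1 : ℕ) : ℂ) := by push_cast; ring
      rw [this, Complex.norm_natCast]
      push_cast; ring
    rw [e1]
    have e2 := coef_le f (k + M + 1)
    calc ((k + M : ℕ) + 1 : ℝ) * ‖f (k + M + 1)‖ * ‖z‖ ^ (k + M)
        ≤ ((k + M : ℕ) + 1 : ℝ) * ‖f‖ * ρ ^ (k + M) := by gcongr
      _ = _ := by ring
  · rw [mul_comm]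
    gcongr

/-- From counting functions to operator norms. -/
theorem norm_bound {φ : ℂ → ℂ} (hφ : DifferentiableOn ℂ φ (ball 0 1))
    (hm : MapsTo φ (ball (0 : ℂ) 1) (ball 0 1)) (h0 : φ 0 = 0) (T : H2 →L[ℂ] H2)
    (hT : ∀ f : H2, ∀ z ∈ ball (0 : ℂ) 1, ev (T f) z = ev f (φ z)) (n : ℕ) {X δ : ℝ} (hX : 0 < X)
    (hδ : 0 < δ) (hcnt : ∀ w : ℂ, ‖w‖ < 1 → 1 - ‖w‖ < δ →
      cnt (φ^[n]) w ≤ ENNReal.ofReal (X * (1 - ‖w‖))) :
    ∃ M : ℕ, ∀ f : H2, (∀ j < M, f j = 0) → ‖(T ^ n) f‖ ^ 2 ≤ 5 * X * ‖f‖ ^ 2 := by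
  have hpi := Real.pi_pos
  set ψ : ℂ → ℂ := φ^[n] with hψ
  have hψd := iter_diff hφ hm n
  have hψm := iter_maps hm n
  have hψ0 : ψ 0 = 0 := iter_zero h0 n
  set ρ : ℝ := max 0 (1 - δ) with hρ
  have hρ0 : 0 ≤ ρ := le_max_left _ _
  have hρ1 : ρ < 1 := max_lt (by norm_num) (by linarith)
  set ε : ℝ := Real.sqrt (X / 8) with hε
  have hε2 : ε ^ 2 = X / 8 := Real.sq_sqrt (by positivity)
  obtain ⟨M, hM⟩ := deriv_small hρ0 hρ1 (ε := ε) (Real.sqrt_pos.2 (by positivity))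
  refine ⟨M + 1, fun f hf => ?_⟩
  set F : H2 := (T ^ n) f with hF
  have hFev := pow_ev hm hT n f
  have hF0 : F 0 = 0 := by
    have h1 : ev F 0 = F 0 := by
      rw [ev, tsum_eq_single 0]
      · simp
      · intro j hj
        simp [hj]
    have h2 : ev f 0 = f 0 := by
      rw [ev, tsum_eq_single 0]
      · simp
      · intro j hj
        simp [hj]
    rw [← h1, hFev 0 (by simp)]
    show ev f (ψ 0) = 0
    rw [hψ0, h2, hf 0 (by omega)]
  have h1 := lp_ge F hF0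
  set G : ℂ → ℝ≥0∞ := fun w => ENNReal.ofReal (‖deriv (ev f) w‖ ^ 2) with hG
  set ω : ℂ → ℝ≥0∞ := fun z => ENNReal.ofReal (1 - ‖z‖ ^ 2) with hω
  have hGm : Measurable G := by
    have := measurable_deriv (ev f)
    fun_prop
  have hωm : Measurable ω := by fun_prop
  have h2 : ∫⁻ z in ball (0 : ℂ) 1, ENNReal.ofReal (‖deriv (ev F) z‖ ^ 2 * (1 - ‖z‖ ^ 2)) =
      ∫⁻ z in ball (0 : ℂ) 1, G (ψ z) * ENNReal.ofReal (‖deriv ψ z‖ ^ 2) * ω z := by
    apply setLIntegral_congr_fun measurableSet_ball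
    intro z hz
    have hz1 := mem_ball_zero_iff.1 hz
    have hd : deriv (ev F) z = deriv (ev f) (ψ z) * deriv ψ z := by
      have e1 : ev F =ᶠ[𝓝 z] fun y => ev f (ψ y) := by
        filter_upwards [isOpen_ball.mem_nhds hz] with y hy
        exact hFev y hy
      rw [e1.deriv_eq]
      exact deriv_comp z ((ev_diff f).differentiableAt (isOpen_ball.mem_nhds (hψm hz)))
        (hψd.differentiableAt (isOpen_ball.mem_nhds hz))
    show ENNReal.ofReal (‖deriv (ev F) z‖ ^ 2 * (1 - ‖z‖ ^ 2)) =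
      ENNReal.ofReal (‖deriv (ev f) (ψ z)‖ ^ 2) * ENNReal.ofReal (‖deriv ψ z‖ ^ 2) *
        ENNReal.ofReal (1 - ‖z‖ ^ 2)
    rw [hd, norm_mul, mul_pow, ENNReal.ofReal_mul (by positivity),
      ENNReal.ofReal_mul (by positivity)]
  have h3 := area_le hψd hGm hωm
  -- compare the fibre sums
  have h4 : ∫⁻ w, G w * ∑' z : {z : ℂ // z ∈ ball (0 : ℂ) 1 ∧ ψ z = w}, ω z ≤
      ∫⁻ w, (ball (0 : ℂ) 1).indicator (fun w => ENNReal.ofReal 2 * (G w * cnt ψ w)) w := by
    apply lintegral_mono_ae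
    have hae : ∀ᵐ w : ℂ, w ≠ 0 := by
      rw [ae_iff]
      simp
    filter_upwards [hae] with w hw
    by_cases hwb : w ∈ ball (0 : ℂ) 1
    · rw [indicator_of_mem hwb]
      have h5 : ∑' z : {z : ℂ // z ∈ ball (0 : ℂ) 1 ∧ ψ z = w}, ω z ≤ ENNReal.ofReal 2 * cnt ψ w := by
        rw [cnt, ← ENNReal.tsum_mul_left]
        apply ENNReal.tsum_le_tsum
        intro z
        have hz0 : (z : ℂ) ≠ 0 := by
          intro h
          apply hw
          rw [← z.2.2, h, hψ0]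
        have h6 := log_ge (norm_pos_iff.2 hz0)
        show ENNReal.ofReal (1 - ‖(z : ℂ)‖ ^ 2) ≤
          ENNReal.ofReal 2 * ENNReal.ofReal (-Real.log ‖(z : ℂ)‖)
        rw [← ENNReal.ofReal_mul (by norm_num)]
        exact ENNReal.ofReal_le_ofReal h6
      calc G w * ∑' z : {z : ℂ // z ∈ ball (0 : ℂ) 1 ∧ ψ z = w}, ω z ≤
            G w * (ENNReal.ofReal 2 * cnt ψ w) := by
            gcongr
        _ = ENNReal.ofReal 2 * (G w * cnt ψ w) := by ring
    · rw [indicator_of_notMem hwb]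
      have : IsEmpty {z : ℂ // z ∈ ball (0 : ℂ) 1 ∧ ψ z = w} := by
        constructor
        rintro ⟨z, hz1, hz2⟩
        exact hwb (hz2 ▸ hψm hz1)
      simp
  rw [lintegral_indicator measurableSet_ball] at h4
  -- pointwise domination
  have h5 : ∫⁻ w in ball (0 : ℂ) 1, ENNReal.ofReal 2 * (G w * cnt ψ w) ≤
      ∫⁻ w in ball (0 : ℂ) 1, (ENNReal.ofReal (2 * X) *
        ENNReal.ofReal (‖deriv (ev f) w‖ ^ 2 * (1 - ‖w‖ ^ 2)) +
        ENNReal.ofReal (2 * (ε * ‖f‖) ^ 2) * ENNReal.ofReal (-Real.log ‖w‖)) := by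
    apply lintegral_mono_ae
    have hae : ∀ᵐ w : ℂ ∂(volume.restrict (ball (0 : ℂ) 1)), w ≠ 0 :=
      ae_restrict_of_ae (by rw [ae_iff]; simp)
    filter_upwards [hae, ae_restrict_mem measurableSet_ball] with w hw hwb
    have hw1 := mem_ball_zero_iff.1 hwb
    by_cases hwδ : 1 - ‖w‖ < δ
    · refine le_trans ?_ le_self_add
      calc ENNReal.ofReal 2 * (G w * cnt ψ w) ≤ ENNReal.ofReal 2 *
            (ENNReal.ofReal (‖deriv (ev f) w‖ ^ 2) * ENNReal.ofReal (X * (1 - ‖w‖))) :=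
            mul_le_mul' le_rfl (mul_le_mul' le_rfl (hcnt w hw1 hwδ))
        _ = ENNReal.ofReal (2 * (‖deriv (ev f) w‖ ^ 2 * (X * (1 - ‖w‖)))) := by
            rw [ENNReal.ofReal_mul (by norm_num : (0 : ℝ) ≤ 2),
              ENNReal.ofReal_mul (by positivity : 0 ≤ ‖deriv (ev f) w‖ ^ 2)]
        _ ≤ ENNReal.ofReal (2 * X * (‖deriv (ev f) w‖ ^ 2 * (1 - ‖w‖ ^ 2))) := by
            apply ENNReal.ofReal_le_ofReal
            have h8 : 1 - ‖w‖ ≤ 1 - ‖w‖ ^ 2 := by nlinarith [norm_nonneg w]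
            calc 2 * (‖deriv (ev f) w‖ ^ 2 * (X * (1 - ‖w‖))) =
                  2 * X * (‖deriv (ev f) w‖ ^ 2 * (1 - ‖w‖)) := by ring
              _ ≤ _ := by gcongr
        _ = _ := by rw [ENNReal.ofReal_mul (by positivity)]
    · refine le_trans ?_ le_add_self
      have hwρ : ‖w‖ ≤ ρ := by
        refine le_trans ?_ (le_max_right _ _)
        linarith
      have h8 := hM f hf w hwρ
      calc ENNReal.ofReal 2 * (G w * cnt ψ w) ≤ ENNReal.ofReal 2 *
            (ENNReal.ofReal ((ε * ‖f‖) ^ 2) * ENNReal.ofReal (-Real.log ‖w‖)) := by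
            have h9 := cnt_le_log hψd hψm hψ0 hw1 hw
            have h10 : G w ≤ ENNReal.ofReal ((ε * ‖f‖) ^ 2) := by
              apply ENNReal.ofReal_le_ofReal
              gcongr
            exact mul_le_mul' le_rfl (mul_le_mul' h10 h9)
        _ = _ := by
            rw [ENNReal.ofReal_mul (by norm_num : (0 : ℝ) ≤ 2), mul_assoc]
  have h6 : ∫⁻ w in ball (0 : ℂ) 1, (ENNReal.ofReal (2 * X) *
        ENNReal.ofReal (‖deriv (ev f) w‖ ^ 2 * (1 - ‖w‖ ^ 2)) +
        ENNReal.ofReal (2 * (ε * ‖f‖) ^ 2) * ENNReal.ofReal (-Real.log ‖w‖)) ≤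
      ENNReal.ofReal (2 * X * (π * ‖f‖ ^ 2) + 2 * (ε * ‖f‖) ^ 2 * (2 * π)) := by
    rw [lintegral_add_left]
    · rw [lintegral_const_mul, lintegral_const_mul]
      · rw [ENNReal.ofReal_add (by positivity) (by positivity),
          ENNReal.ofReal_mul (p := 2 * X) (by positivity),
          ENNReal.ofReal_mul (p := 2 * (ε * ‖f‖) ^ 2) (by positivity)]
        have := lp_le f
        have h9 := log_integral
        gcongr
      · fun_prop
      · have := measurable_deriv (ev f)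
        fun_prop
    · have := measurable_deriv (ev f)
      fun_prop
  have h7 : ENNReal.ofReal (π / 2 * ‖F‖ ^ 2) ≤
      ENNReal.ofReal (2 * X * (π * ‖f‖ ^ 2) + 2 * (ε * ‖f‖) ^ 2 * (2 * π)) := by
    calc _ ≤ _ := h1
      _ = _ := h2
      _ ≤ _ := h3
      _ ≤ _ := h4
      _ ≤ _ := h5
      _ ≤ _ := h6
  rw [ENNReal.ofReal_le_ofReal_iff (by positivity)] at h7
  have e : 2 * X * (π * ‖f‖ ^ 2) + 2 * (ε * ‖f‖) ^ 2 * (2 * π) = π / 2 * (5 * X * ‖f‖ ^ 2) := by
    rw [mul_pow, hε2]; ring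
  rw [e] at h7
  exact le_of_mul_le_mul_left h7 (by positivity)

end Pool.Agent.Helper156.Ess
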