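import Mathlib
import Pool.Agent.Helper156.Ess.Norm
import Pool.Agent.Helper156.Ess.Inv
import Pool.Agent.Helper156.Ess.Fred

set_option autoImplicit false

open Complex Metric Set Filter MeasureTheory
open scoped Real Topology ComplexConjugate NNReal ENNReal

namespace Pool.Agent.Helper156.Ess

/-- `A` is invertible modulo the compact operators. -/
def EssInv (A : H2 →L[ℂ] H2) : Prop :=
  ∃ S : H2 →L[ℂ] H2, IsCompactOperator (⇑(S * A - 1 : H2 →L[ℂ] H2)) ∧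
    IsCompactOperator (⇑(A * S - 1 : H2 →L[ℂ] H2))

theorem essInv_of_isUnit {A : H2 →L[ℂ] H2} (h : IsUnit A) : EssInv A := by
  obtain ⟨u, rfl⟩ := h
  refine ⟨(u⁻¹ : (H2 →L[ℂ] H2)ˣ), ?_, ?_⟩
  · rw [Units.inv_mul, sub_self]
    exact isCompactOperator_zero
  · rw [Units.mul_inv, sub_self]
    exact isCompactOperator_zero

theorem essInv_neg {A : H2 →L[ℂ] H2} (h : EssInv A) : EssInv (-A) := by
  obtain ⟨S, h1, h2⟩ := h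
  refine ⟨-S, ?_, ?_⟩
  · rwa [neg_mul_neg]
  · rwa [neg_mul_neg]

/-- If `T` is injective-free of Schroeder eigenvalues. -/
theorem inj_of_not_schroeder {φ : ℂ → ℂ} (hφ : DifferentiableOn ℂ φ (ball 0 1))
    (hm : MapsTo φ (ball (0 : ℂ) 1) (ball 0 1)) (h0 : φ 0 = 0) (T : H2 →L[ℂ] H2)
    (hT : ∀ f : H2, ∀ z ∈ ball (0 : ℂ) 1, ev (T f) z = ev f (φ z)) {l : ℂ}
    (hlS : ∀ j : ℕ, l ≠ (deriv φ 0) ^ j) (u : H2) (hu : l • u - T u = 0) : u = 0 := by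
  ext j
  exact order_lemma hφ hm h0 T hT l hlS u 0 hu (j + 1) (fun _ _ => rfl) j (by omega)

/-- Main proposition. -/
theorem main_prop {φ : ℂ → ℂ} (hφ : DifferentiableOn ℂ φ (ball 0 1))
    (hm : MapsTo φ (ball (0 : ℂ) 1) (ball 0 1)) (h0 : φ 0 = 0) (hd : ‖deriv φ 0‖ < 1)
    (T : H2 →L[ℂ] H2)
    (hT : ∀ f : H2, ∀ z ∈ ball (0 : ℂ) 1, ev (T f) z = ev f (φ z))
    {l : ℂ} (hl0 : l ≠ 0) (hl1 : ‖l‖ < 1) (hlS : ∀ j : ℕ, l ≠ (deriv φ 0) ^ j)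
    (hF : EssInv (T - l • (1 : H2 →L[ℂ] H2))) {t : ℝ} (ht : ‖l‖ < t) :
    ∃ M n : ℕ, 0 < n ∧ ∀ f : H2, (∀ j < M, f j = 0) → ‖(T ^ n) f‖ ≤ 1 / 2 * t ^ n * ‖f‖ := by
  have hL0 : 0 < ‖l‖ := norm_pos_iff.2 hl0
  have ht0 : 0 < t := hL0.trans ht
  obtain ⟨q, η, hq0, hq1, hη, hi1, hi2⟩ := schwarz_consts hφ hm h0 hd
  obtain ⟨S, hS1, hS2⟩ := essInv_neg hF
  have hA : -(T - l • (1 : H2 →L[ℂ] H2)) = l • (1 : H2 →L[ℂ] H2) - T := by abel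
  rw [hA] at hS1 hS2
  have hAu : ∀ u : H2, (l • (1 : H2 →L[ℂ] H2) - T) u = l • u - T u := fun u => rfl
  obtain ⟨M, k, hM, hsolve⟩ := fredholm_solve (l • (1 : H2 →L[ℂ] H2) - T) S hS1 hS2
    (fun u hu => inj_of_not_schroeder hφ hm h0 T hT hlS u hu)
  obtain ⟨C, hC, hcnt⟩ := cnt_bound hφ hm h0 T hT hq0 hq1 hη hi1 hi2 hl0 hl1 hlS hM
    (fun f => by
      obtain ⟨c, h1, h2, u, h3, h4⟩ := hsolve f
      exact ⟨c, h1, h2, u, h3, h4⟩)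
  -- choice of n
  obtain ⟨n, hn0, hn⟩ : ∃ n : ℕ, 0 < n ∧ 5 * (C * ‖l‖ ^ (2 * n)) ≤ (1 / 2 * t ^ n) ^ 2 := by
    have h1 : (‖l‖ / t) ^ 2 < 1 := by
      rw [div_pow, div_lt_one (by positivity)]
      gcongr
    obtain ⟨n, hn⟩ := exists_pow_lt_of_lt_one (by positivity : 0 < 1 / (20 * C)) h1
    refine ⟨n + 1, by omega, ?_⟩
    have h2 : ((‖l‖ / t) ^ 2) ^ (n + 1) ≤ 1 / (20 * C) := by
      refine le_trans ?_ hn.le
      exact pow_le_pow_of_le_one (by positivity) h1.le (by omega)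
    rw [← pow_mul, div_pow, div_le_div_iff₀ (by positivity) (by positivity)] at h2
    have e : (1 / 2 * t ^ (n + 1)) ^ 2 = 1 / 4 * t ^ (2 * (n + 1)) := by
      rw [mul_pow, ← pow_mul, mul_comm (n + 1) 2]
      norm_num
    rw [e]
    nlinarith
  obtain ⟨δ, hδ, hcn⟩ := hcnt n
  obtain ⟨M', hM'⟩ := norm_bound hφ hm h0 T hT n (X := C * ‖l‖ ^ (2 * n)) (by positivity) hδ hcn
  refine ⟨M', n, hn0, fun f hf => ?_⟩
  have h3 : ‖(T ^ n) f‖ ^ 2 ≤ (1 / 2 * t ^ n * ‖f‖) ^ 2 := by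
    refine (hM' f hf).trans ?_
    rw [mul_pow _ ‖f‖]
    gcongr
  exact (pow_le_pow_iff_left₀ (norm_nonneg _) (by positivity) two_ne_zero).1 h3

/-- Consequence for the operator at other points. -/
theorem main_prop2 {φ : ℂ → ℂ} (hφ : DifferentiableOn ℂ φ (ball 0 1))
    (hm : MapsTo φ (ball (0 : ℂ) 1) (ball 0 1)) (h0 : φ 0 = 0) (hd : ‖deriv φ 0‖ < 1)
    (T : H2 →L[ℂ] H2)
    (hT : ∀ f : H2, ∀ z ∈ ball (0 : ℂ) 1, ev (T f) z = ev f (φ z))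
    {l : ℂ} (hl0 : l ≠ 0) (hl1 : ‖l‖ < 1) (hlS : ∀ j : ℕ, l ≠ (deriv φ 0) ^ j)
    (hF : EssInv (T - l • (1 : H2 →L[ℂ] H2))) {μ : ℂ} (hμ : ‖l‖ < ‖μ‖) :
    EssInv (T - μ • (1 : H2 →L[ℂ] H2)) ∧
      ((∀ j : ℕ, μ ≠ (deriv φ 0) ^ j) → IsUnit (T - μ • (1 : H2 →L[ℂ] H2))) := by
  obtain ⟨M, n, -, hn⟩ := main_prop hφ hm h0 hd T hT hl0 hl1 hlS hF hμ
  have hμ0 : μ ≠ 0 := by
    rintro rfl
    rw [norm_zero] at hμ
    exact absurd hμ (not_lt.2 (norm_nonneg _))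
  exact inv_of_bound hφ hm h0 T hT M n μ hμ0 hn

end Pool.Agent.Helper156.Ess
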