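import Mathlib
import Pool.Agent.Helper156.Ess.Main0

set_option autoImplicit false

open Complex Metric Set Filter MeasureTheory
open scoped Real Topology ComplexConjugate NNReal ENNReal

namespace Pool.Agent.Helper156.Ess

theorem compact_mul_left {K : H2 →L[ℂ] H2} (hK : IsCompactOperator (⇑K)) (V : H2 →L[ℂ] H2) :
    IsCompactOperator (⇑(V * K : H2 →L[ℂ] H2)) := hK.clm_comp V

theorem compact_mul_right {K : H2 →L[ℂ] H2} (hK : IsCompactOperator (⇑K)) (V : H2 →L[ℂ] H2) :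
    IsCompactOperator (⇑(K * V : H2 →L[ℂ] H2)) := hK.comp_clm V

/-- Invertibility modulo compact operators is an open condition. -/
theorem essInv_open {A : H2 →L[ℂ] H2} (h : EssInv A) :
    ∃ ε > 0, ∀ B : H2 →L[ℂ] H2, ‖B‖ < ε → EssInv (A + B) := by
  obtain ⟨S, h1, h2⟩ := h
  refine ⟨1 / (‖S‖ + 1), by positivity, fun B hB => ?_⟩
  have hSB : ‖S‖ * ‖B‖ < 1 := by
    have h3 : ‖S‖ * ‖B‖ ≤ ‖S‖ * (1 / (‖S‖ + 1)) := by gcongr
    have h4 : ‖S‖ * (1 / (‖S‖ + 1)) < 1 := by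
      rw [mul_one_div, div_lt_one (by positivity)]
      linarith
    linarith
  have hV : IsUnit (1 + S * B) := by
    have : 1 + S * B = 1 - (-(S * B)) := by abel
    rw [this]
    apply isUnit_one_sub_of_norm_lt_one
    rw [norm_neg]
    exact (norm_mul_le _ _).trans_lt hSB
  have hW : IsUnit (1 + B * S) := by
    have : 1 + B * S = 1 - (-(B * S)) := by abel
    rw [this]
    apply isUnit_one_sub_of_norm_lt_one
    rw [norm_neg]
    exact (norm_mul_le _ _).trans_lt (by rw [mul_comm]; exact hSB)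
  obtain ⟨V, hV⟩ := hV
  obtain ⟨W, hW⟩ := hW
  have hcomm : ((V⁻¹ : (H2 →L[ℂ] H2)ˣ) : H2 →L[ℂ] H2) * S = S * ((W⁻¹ : (H2 →L[ℂ] H2)ˣ) : H2 →L[ℂ] H2) := by
    have h5 : (V : H2 →L[ℂ] H2) * S = S * W := by
      rw [hV, hW]
      noncomm_ring
    rw [Units.inv_mul_eq_iff_eq_mul, ← mul_assoc, h5, mul_assoc, Units.mul_inv, mul_one]
  refine ⟨((V⁻¹ : (H2 →L[ℂ] H2)ˣ) : H2 →L[ℂ] H2) * S, ?_, ?_⟩
  · have e : ((V⁻¹ : (H2 →L[ℂ] H2)ˣ) : H2 →L[ℂ] H2) * S * (A + B) - 1 =
        ((V⁻¹ : (H2 →L[ℂ] H2)ˣ) : H2 →L[ℂ] H2) * (S * A - 1) := by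
      have h6 : S * (A + B) = (V : H2 →L[ℂ] H2) + (S * A - 1) := by
        rw [hV]; noncomm_ring
      rw [mul_assoc, h6, mul_add, Units.inv_mul]
      abel
    rw [e]
    exact compact_mul_left h1 _
  · rw [hcomm]
    have e : (A + B) * (S * ((W⁻¹ : (H2 →L[ℂ] H2)ˣ) : H2 →L[ℂ] H2)) - 1 =
        (A * S - 1) * ((W⁻¹ : (H2 →L[ℂ] H2)ˣ) : H2 →L[ℂ] H2) := by
      have h6 : (A + B) * S = (W : H2 →L[ℂ] H2) + (A * S - 1) := by
        rw [hW]; noncomm_ring
      rw [← mul_assoc, h6, add_mul, Units.mul_inv]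
      abel
    rw [e]
    exact compact_mul_right h2 _

/-- The composition operator is a contraction when `φ(0) = 0`. -/
theorem comp_norm_le {φ : ℂ → ℂ} (hφ : DifferentiableOn ℂ φ (ball 0 1))
    (hm : MapsTo φ (ball (0 : ℂ) 1) (ball 0 1)) (h0 : φ 0 = 0) (T : H2 →L[ℂ] H2)
    (hT : ∀ f : H2, ∀ z ∈ ball (0 : ℂ) 1, ev (T f) z = ev f (φ z)) : ‖T‖ ≤ 1 := by
  apply ContinuousLinearMap.opNorm_le_bound _ zero_le_one
  intro f
  rw [one_mul]
  have h1 := ev_circle_tendsto (T f) rad_nonneg rad_lt rad_tendsto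
  have h2 : ‖T f‖ ^ 2 ≤ ‖f‖ ^ 2 := by
    refine le_of_tendsto h1 (Eventually.of_forall fun n => ?_)
    have h3 := littlewood hφ hm f (rad_nonneg n) (rad_lt n)
    rw [h0] at h3
    simp only [norm_zero, add_zero, sub_zero, div_one, one_mul] at h3
    refine le_trans (le_of_eq ?_) h3
    congr 1
    funext θ
    rw [hT f _ (by
      rw [mem_ball_zero_iff, norm_circleMap_zero, abs_of_nonneg (rad_nonneg n)]; exact rad_lt n)]
  exact (pow_le_pow_iff_left₀ (norm_nonneg _) (norm_nonneg _) two_ne_zero).1 h2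

/-- Compact operators send the standard basis to a null sequence, in weak form. -/
theorem compact_basis {K : H2 →L[ℂ] H2} (hK : IsCompactOperator (⇑K)) (M : ℕ)
    (h : ∀ m ≥ M, 1 / 2 ≤ ‖K (lp.single 2 m (1 : ℂ))‖) : False := by
  obtain ⟨y, φ, hφ, hy⟩ : ∃ y : H2, ∃ φ : ℕ → ℕ, StrictMono φ ∧
      Tendsto (fun n => K (lp.single 2 (φ n) (1 : ℂ))) atTop (𝓝 y) := by
    have hc := hK.isCompact_closure_image_closedBall 1
    have hmem : ∀ n : ℕ, K (lp.single 2 n (1 : ℂ)) ∈ closure (K '' closedBall (0 : H2) 1) := by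
      intro n
      apply subset_closure
      refine ⟨lp.single 2 n (1 : ℂ), ?_, rfl⟩
      rw [mem_closedBall_zero_iff, lp.norm_single (by norm_num)]
      simp
    obtain ⟨y, -, φ, hφ, hy⟩ := hc.tendsto_subseq hmem
    exact ⟨y, φ, hφ, hy⟩
  have hy0 : y = 0 := by
    rw [← inner_self_eq_zero (𝕜 := ℂ)]
    have h1 : Tendsto (fun n => inner ℂ (K (lp.single 2 (φ n) (1 : ℂ))) y) atTop
        (𝓝 (inner ℂ y y)) := hy.inner tendsto_const_nhds
    have h2 : ∀ n, inner ℂ (K (lp.single 2 (φ n) (1 : ℂ))) y =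
        (ContinuousLinearMap.adjoint K y) (φ n) := by
      intro n
      rw [← ContinuousLinearMap.adjoint_inner_right, lp.inner_single_left]
      simp
    simp only [h2] at h1
    have h3 : Tendsto (fun n => (ContinuousLinearMap.adjoint K y) n) atTop (𝓝 0) := by
      have h4 := (sq_summable (ContinuousLinearMap.adjoint K y)).tendsto_atTop_zero
      rw [tendsto_zero_iff_norm_tendsto_zero]
      have h5 := h4.sqrt
      simpa using h5
    exact tendsto_nhds_unique h1 (h3.comp hφ.tendsto_atTop)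
  have h6 : 1 / 2 ≤ ‖y‖ := by
    refine ge_of_tendsto hy.norm ?_
    filter_upwards [eventually_ge_atTop M] with n hn
    exact h _ (hn.trans hφ.le_apply)
  rw [hy0, norm_zero] at h6
  norm_num at h6

end Pool.Agent.Helper156.Ess
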