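import Mathlib
import Pool.Agent.Helper156.Ess.Main1

set_option autoImplicit false

open Complex Metric Set Filter MeasureTheory
open scoped Real Topology ComplexConjugate NNReal ENNReal

namespace Pool.Agent.Helper156.Ess

instance nontrivial_H2 : Nontrivial H2 := by
  refine ⟨⟨lp.single 2 0 (1 : ℂ), 0, fun h => ?_⟩⟩
  have h1 : (lp.single 2 0 (1 : ℂ) : H2) 0 = 0 := by
    rw [h]; rfl
  rw [lp.single_apply_self] at h1
  exact one_ne_zero h1

/-- A non-empty open set contains a point which is neither `0` nor a power of `d`. -/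
theorem exists_good (d : ℂ) {U : Set ℂ} (hU : IsOpen U) (hne : U.Nonempty) :
    ∃ l ∈ U, l ≠ 0 ∧ ∀ j : ℕ, l ≠ d ^ j := by
  have hc : ({0} ∪ range fun j : ℕ => d ^ j : Set ℂ).Countable :=
    (countable_singleton _).union (countable_range _)
  obtain ⟨l, hl1, hl2⟩ := (hc.dense_compl ℂ).inter_open_nonempty U hU hne
  refine ⟨l, hl1, ?_, ?_⟩
  · rintro rfl
    exact hl2 (Or.inl rfl)
  · rintro j rfl
    exact hl2 (Or.inr ⟨j, rfl⟩)

theorem essInv_shift {T : H2 →L[ℂ] H2} {l : ℂ} (h : EssInv (T - l • (1 : H2 →L[ℂ] H2))) :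
    ∃ ε > 0, ∀ μ : ℂ, ‖μ - l‖ < ε → EssInv (T - μ • (1 : H2 →L[ℂ] H2)) := by
  obtain ⟨ε, hε, h1⟩ := essInv_open h
  refine ⟨ε, hε, fun μ hμ => ?_⟩
  have e : T - μ • (1 : H2 →L[ℂ] H2) = (T - l • (1 : H2 →L[ℂ] H2)) +
      (-(μ - l)) • (1 : H2 →L[ℂ] H2) := by
    rw [neg_smul, sub_smul]
    abel
  rw [e]
  apply h1
  rw [norm_smul, norm_neg, norm_one, mul_one]
  exact hμ

section
variable {φ : ℂ → ℂ} (hφ : DifferentiableOn ℂ φ (ball 0 1))
    (hm : MapsTo φ (ball (0 : ℂ) 1) (ball 0 1)) (h0 : φ 0 = 0) (hd : ‖deriv φ 0‖ < 1)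
    (T : H2 →L[ℂ] H2)
    (hT : ∀ f : H2, ∀ z ∈ ball (0 : ℂ) 1, ev (T f) z = ev f (φ z))

include hφ hm h0 hd hT in
/-- The composition operator itself is not Fredholm. -/
theorem zero_mem : ¬ EssInv (T - (0 : ℂ) • (1 : H2 →L[ℂ] H2)) := by
  intro hF
  obtain ⟨ε, hε, hop⟩ := essInv_shift hF
  rw [zero_smul, sub_zero] at hF
  obtain ⟨S, hS, -⟩ := hF
  set t : ℝ := 1 / (‖S‖ + 1) with ht
  have ht0 : 0 < t := by positivity
  have ht1 : t ≤ 1 := by
    rw [ht, div_le_one (by positivity)]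
    linarith [norm_nonneg S]
  obtain ⟨l, hlU, hl0, hlS⟩ := exists_good (deriv φ 0) (U := ball 0 (min ε t)) isOpen_ball
    ⟨0, mem_ball_self (lt_min hε ht0)⟩
  rw [mem_ball_zero_iff] at hlU
  have hle : ‖l‖ < ε := hlU.trans_le (min_le_left _ _)
  have hlt : ‖l‖ < t := hlU.trans_le (min_le_right _ _)
  have hFl := hop l (by rwa [sub_zero])
  obtain ⟨M, n, -, hn⟩ := main_prop hφ hm h0 hd T hT hl0 (hlt.trans_le ht1) hlS hFl hlt
  have hpow : ∀ m : ℕ, IsCompactOperator (⇑(S ^ m * T ^ m - 1 : H2 →L[ℂ] H2)) := by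
    intro m
    induction m with
    | zero =>
      rw [pow_zero, pow_zero, mul_one, sub_self]
      exact isCompactOperator_zero
    | succ m ih =>
      have e : S ^ (m + 1) * T ^ (m + 1) - 1 = S * ((S ^ m * T ^ m - 1) * T) + (S * T - 1) := by
        rw [pow_succ' S, pow_succ T]
        noncomm_ring
      rw [e]
      exact (compact_mul_left (compact_mul_right ih T) S).add hS
  apply compact_basis (hpow n) M
  intro m hmM
  set e : H2 := lp.single 2 m (1 : ℂ) with he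
  have hen : ‖e‖ = 1 := by
    rw [he, lp.norm_single (by norm_num)]
    simp
  have hej : ∀ j < M, e j = 0 := by
    intro j hj
    rw [he, lp.single_apply_ne]
    omega
  have h1 := hn e hej
  rw [hen, mul_one] at h1
  have h2 : ‖(S ^ n * T ^ n) e‖ ≤ 1 / 2 := by
    have h3 : ‖(S ^ n * T ^ n) e‖ ≤ ‖S‖ ^ n * (1 / 2 * t ^ n) := by
      rw [mul_apply_eq_comp]
      calc ‖(S ^ n) ((T ^ n) e)‖ ≤ ‖S ^ n‖ * ‖(T ^ n) e‖ := (S ^ n).le_opNorm _
        _ ≤ ‖S‖ ^ n * (1 / 2 * t ^ n) := by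
            gcongr
            exact norm_pow_le S n
    refine h3.trans ?_
    have h4 : ‖S‖ ^ n * (1 / 2 * t ^ n) = 1 / 2 * (‖S‖ * t) ^ n := by
      rw [mul_pow]; ring
    rw [h4]
    have h5 : ‖S‖ * t ≤ 1 := by
      rw [ht, mul_one_div, div_le_one (by positivity)]
      linarith
    have h6 : (‖S‖ * t) ^ n ≤ 1 := pow_le_one₀ (by positivity) h5
    linarith
  have h7 : (S ^ n * T ^ n - 1 : H2 →L[ℂ] H2) e = (S ^ n * T ^ n) e - e := rfl
  rw [h7]
  have h8 := norm_sub_norm_le e ((S ^ n * T ^ n) e)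
  rw [norm_sub_rev, hen] at h8
  linarith

include hφ hm h0 hT in
theorem unit_of_large {μ : ℂ} (hμ : 1 < ‖μ‖) : IsUnit (T - μ • (1 : H2 →L[ℂ] H2)) := by
  have hT1 := comp_norm_le hφ hm h0 T hT
  have h1 : μ ∉ spectrum ℂ T := by
    intro h
    have := spectrum.norm_le_norm_of_mem h
    linarith
  rw [spectrum.notMem_iff] at h1
  have e : T - μ • (1 : H2 →L[ℂ] H2) = -(algebraMap ℂ (H2 →L[ℂ] H2) μ - T) := by
    rw [Algebra.algebraMap_eq_smul_one]
    abel
  rw [e]
  exact h1.neg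

include hφ hm h0 hd hT in
/-- The essential spectrum is a disc, and the spectrum is that disc with the Schroeder values. -/
theorem final0 : ∃ r : ℝ, 0 ≤ r ∧ {l : ℂ | ¬ EssInv (T - l • (1 : H2 →L[ℂ] H2))} = closedBall 0 r ∧
    spectrum ℂ T = closedBall 0 r ∪ {μ : ℂ | ∃ n : ℕ, 1 ≤ n ∧ μ = (deriv φ 0) ^ n} ∪ {1} := by
  set E : Set ℂ := {l : ℂ | ¬ EssInv (T - l • (1 : H2 →L[ℂ] H2))} with hE
  have hE0 : (0 : ℂ) ∈ E := zero_mem hφ hm h0 hd T hT
  have hEb : ∀ l ∈ E, ‖l‖ ≤ 1 := by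
    intro l hl
    by_contra hcon
    exact hl (essInv_of_isUnit (unit_of_large hφ hm h0 T hT (not_le.1 hcon)))
  have hEclosed : IsClosed E := by
    rw [← isOpen_compl_iff, Metric.isOpen_iff]
    intro l hl
    have hl' : EssInv (T - l • (1 : H2 →L[ℂ] H2)) := by
      by_contra h; exact hl h
    obtain ⟨ε, hε, h1⟩ := essInv_shift hl'
    refine ⟨ε, hε, fun μ hμ hcon => hcon (h1 μ ?_)⟩
    rwa [mem_ball, dist_eq_norm] at hμ
  have hEcomp : IsCompact E := by
    apply Metric.isCompact_of_isClosed_isBounded hEclosed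
    exact (isBounded_iff_forall_norm_le).2 ⟨1, hEb⟩
  obtain ⟨lm, hlm, hmax⟩ := hEcomp.exists_isMaxOn ⟨0, hE0⟩ continuous_norm.continuousOn
  have hmax' : ∀ l ∈ E, ‖l‖ ≤ ‖lm‖ := fun l hl => hmax hl
  set r : ℝ := ‖lm‖ with hr
  have hr1 : r ≤ 1 := hEb lm hlm
  have hr0 : 0 ≤ r := norm_nonneg _
  -- points of small modulus
  have hsmall : ∀ l : ℂ, ‖l‖ < r → l ∈ E := by
    intro l hl
    by_contra hcon
    have hl' : EssInv (T - l • (1 : H2 →L[ℂ] H2)) := by
      by_contra h; exact hcon h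
    obtain ⟨ε, hε, h1⟩ := essInv_shift hl'
    obtain ⟨l', hl'U, hl'0, hl'S⟩ := exists_good (deriv φ 0) (U := ball l ε ∩ ball 0 r)
      (isOpen_ball.inter isOpen_ball) ⟨l, mem_ball_self hε, mem_ball_zero_iff.2 hl⟩
    have h2 : ‖l'‖ < r := mem_ball_zero_iff.1 hl'U.2
    have h3 := h1 l' (by
      have := hl'U.1
      rwa [mem_ball, dist_eq_norm] at this)
    exact hlm (main_prop2 hφ hm h0 hd T hT hl'0 (h2.trans_le hr1) hl'S h3 h2).1
  have hEeq : E = closedBall 0 r := by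
    apply Subset.antisymm
    · intro l hl
      rw [mem_closedBall_zero_iff]
      exact hmax' l hl
    · rcases hr0.eq_or_lt with h | h
      · intro l hl
        rw [mem_closedBall_zero_iff, ← h] at hl
        have : l = 0 := norm_le_zero_iff.1 hl
        rw [this]; exact hE0
      · rw [← closure_ball (0 : ℂ) h.ne', hEclosed.closure_subset_iff]
        intro l hl
        exact hsmall l (mem_ball_zero_iff.1 hl)
  have hspec : ∀ μ : ℂ, μ ∈ spectrum ℂ T ↔ ¬ IsUnit (T - μ • (1 : H2 →L[ℂ] H2)) := by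
    intro μ
    rw [spectrum.mem_iff]
    have e : T - μ • (1 : H2 →L[ℂ] H2) = -(algebraMap ℂ (H2 →L[ℂ] H2) μ - T) := by
      rw [Algebra.algebraMap_eq_smul_one]
      abel
    rw [e, IsUnit.neg_iff]
  refine ⟨r, hr0, hEeq, ?_⟩
  apply Subset.antisymm
  · intro μ hμ
    rw [hspec] at hμ
    by_cases hμr : ‖μ‖ ≤ r
    · left; left
      exact mem_closedBall_zero_iff.2 hμr
    · push Not at hμr
      by_cases hμS : ∃ j : ℕ, μ = (deriv φ 0) ^ j
      · obtain ⟨j, hj⟩ := hμS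
        rcases Nat.eq_zero_or_pos j with h | h
        · right
          rw [h, pow_zero] at hj
          exact hj
        · left; right
          exact ⟨j, h, hj⟩
      · exfalso
        push Not at hμS
        by_cases hμ1 : 1 < ‖μ‖
        · exact hμ (unit_of_large hφ hm h0 T hT hμ1)
        · push Not at hμ1
          obtain ⟨l, hlU, hl0, hlS⟩ := exists_good (deriv φ 0)
            (U := {l : ℂ | r < ‖l‖} ∩ {l : ℂ | ‖l‖ < ‖μ‖})
            ((isOpen_lt continuous_const continuous_norm).inter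
              (isOpen_lt continuous_norm continuous_const)) (by
              refine ⟨(((r + ‖μ‖) / 2 : ℝ) : ℂ), ?_, ?_⟩
              · show r < ‖(((r + ‖μ‖) / 2 : ℝ) : ℂ)‖
                rw [Complex.norm_real, Real.norm_of_nonneg (by linarith)]
                linarith
              · show ‖(((r + ‖μ‖) / 2 : ℝ) : ℂ)‖ < ‖μ‖
                rw [Complex.norm_real, Real.norm_of_nonneg (by linarith)]
                linarith)
          have h3 : EssInv (T - l • (1 : H2 →L[ℂ] H2)) := by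
            by_contra h
            have := hmax' l h
            exact absurd hlU.1 (not_lt.2 this)
          exact hμ ((main_prop2 hφ hm h0 hd T hT hl0 (hlU.2.trans_le hμ1) hlS h3 hlU.2).2 hμS)
  · rintro μ ((hμ | ⟨n, -, hn⟩) | hμ)
    · rw [hspec]
      rw [← hEeq] at hμ
      exact fun h => hμ (essInv_of_isUnit h)
    · rw [hspec, hn]
      exact schroeder_mem hφ hm h0 T hT n
    · rw [hspec]
      have : μ = (deriv φ 0) ^ 0 := by rw [pow_zero]; exact hμ
      rw [this]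
      exact schroeder_mem hφ hm h0 T hT 0

end

end Pool.Agent.Helper156.Ess
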