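import Mathlib
import Pool.Agent.Helper156.Ess.Final0

set_option autoImplicit false

open Complex Metric Set Filter MeasureTheory
open scoped Real Topology ComplexConjugate NNReal ENNReal

namespace Pool.Agent.Helper156.Ess

/-- The involutive disc automorphism exchanging `0` and `a`. -/
noncomputable def inv (a z : ℂ) : ℂ := -bl a z

section
variable {a : ℂ} (ha : ‖a‖ < 1)

include ha in
theorem inv_maps : MapsTo (inv a) (ball (0 : ℂ) 1) (ball 0 1) := by
  intro z hz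
  rw [mem_ball_zero_iff, inv, norm_neg]
  exact bl_norm_lt ha (mem_ball_zero_iff.1 hz)

include ha in
theorem inv_diff : DifferentiableOn ℂ (inv a) (ball 0 1) := (bl_diff ha).neg

include ha in
theorem inv_inv' {z : ℂ} (hz : z ∈ ball (0 : ℂ) 1) : inv a (inv a z) = z := by
  have hz' := mem_ball_zero_iff.1 hz
  have h1 := one_sub_ne ha hz'
  have h2 : (1 : ℂ) - conj a * a ≠ 0 := one_sub_ne ha ha
  simp only [inv, bl]
  have h3 : (1 : ℂ) - conj a * (-((z - a) / (1 - conj a * z))) =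
      (1 - conj a * a) / (1 - conj a * z) := by
    rw [eq_div_iff h1, sub_mul, mul_neg, neg_mul, mul_assoc, div_mul_cancel₀ _ h1]
    ring
  have h4 : -((z - a) / (1 - conj a * z)) - a = -(z * (1 - conj a * a)) / (1 - conj a * z) := by
    rw [eq_div_iff h1, sub_mul, neg_mul, div_mul_cancel₀ _ h1]
    ring
  rw [h3, h4, div_div_div_cancel_right₀ h1, neg_div, neg_neg, mul_div_assoc, div_self h2, mul_one]

theorem inv_zero (a : ℂ) : inv a 0 = a := by simp [inv, bl]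

theorem inv_self (a : ℂ) : inv a a = 0 := by simp [inv, bl]

include ha in
theorem inv_deriv : deriv (inv a) a * deriv (inv a) 0 = 1 := by
  have h0 : (0 : ℂ) ∈ ball (0 : ℂ) 1 := by simp
  have haB : a ∈ ball (0 : ℂ) 1 := mem_ball_zero_iff.2 ha
  have h1 : HasDerivAt (inv a) (deriv (inv a) 0) 0 :=
    ((inv_diff ha).differentiableAt (isOpen_ball.mem_nhds h0)).hasDerivAt
  have h2 : HasDerivAt (inv a) (deriv (inv a) (inv a 0)) (inv a 0) := by
    rw [inv_zero]
    exact ((inv_diff ha).differentiableAt (isOpen_ball.mem_nhds haB)).hasDerivAt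
  have h3 := h2.comp (0 : ℂ) h1
  have h4 : (inv a ∘ inv a) =ᶠ[𝓝 0] id := by
    filter_upwards [isOpen_ball.mem_nhds h0] with z hz
    exact inv_inv' ha hz
  have h5 := h3.congr_of_eventuallyEq h4.symm
  have h6 := h5.unique (hasDerivAt_id (0 : ℂ))
  rw [inv_zero] at h6
  exact h6

end

/-- Schwarz: a self-map of the disc fixing `0` which is not an automorphism has `|φ'(0)| < 1`. -/
theorem deriv_lt_one {φ : ℂ → ℂ} (hφ : DifferentiableOn ℂ φ (ball 0 1))
    (hm : MapsTo φ (ball (0 : ℂ) 1) (ball 0 1)) (h0 : φ 0 = 0)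
    (hna : ¬ BijOn φ (ball 0 1) (ball 0 1)) : ‖deriv φ 0‖ < 1 := by
  have h1 : ‖deriv φ 0‖ ≤ 1 := by
    have := Complex.norm_deriv_le_one_of_mapsTo_ball (f := φ) (c := 0) (R := 1) hφ
      (by rw [h0]; exact hm.mono_right ball_subset_closedBall) one_pos
    exact this
  refine lt_of_le_of_ne h1 fun h2 => hna ?_
  obtain ⟨C, hC, hEq⟩ := Complex.affine_of_mapsTo_ball_of_exists_norm_dslope_eq_div' (f := φ)
    (c := 0) (R₁ := 1) (R₂ := 1) hφ (by rw [h0]; exact hm.mono_right ball_subset_closedBall)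
    ⟨0, by simp, by rw [dslope_same, h2]; simp⟩
  rw [div_one] at hC
  have hC0 : C ≠ 0 := by
    intro h; rw [h, norm_zero] at hC; exact zero_ne_one hC
  have hEq' : ∀ z ∈ ball (0 : ℂ) 1, φ z = z * C := by
    intro z hz
    rw [hEq hz, h0]
    simp
  refine ⟨hm, ?_, ?_⟩
  · intro x hx y hy hxy
    rw [hEq' x hx, hEq' y hy] at hxy
    exact mul_right_cancel₀ hC0 hxy
  · intro y hy
    have hy' : y / C ∈ ball (0 : ℂ) 1 := by
      rw [mem_ball_zero_iff, norm_div, hC, div_one]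
      exact mem_ball_zero_iff.1 hy
    refine ⟨y / C, hy', ?_⟩
    rw [hEq' _ hy', div_mul_cancel₀ _ hC0]

/-- Reduction to the fixed point `0`. -/
theorem reduce {φ : ℂ → ℂ} (hφ : DifferentiableOn ℂ φ (ball 0 1))
    (hm : MapsTo φ (ball (0 : ℂ) 1) (ball 0 1)) {a : ℂ} (ha : ‖a‖ < 1) (hfix : φ a = a)
    (hna : ¬ BijOn φ (ball 0 1) (ball 0 1)) (C : H2 →L[ℂ] H2)
    (hC : ∀ f : H2, ∀ z ∈ ball (0 : ℂ) 1, ev (C f) z = ev f (φ z)) :
    ∃ (ψ : ℂ → ℂ) (T J : H2 →L[ℂ] H2), DifferentiableOn ℂ ψ (ball 0 1) ∧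
      MapsTo ψ (ball (0 : ℂ) 1) (ball 0 1) ∧ ψ 0 = 0 ∧ ‖deriv ψ 0‖ < 1 ∧
      deriv ψ 0 = deriv φ a ∧ (∀ f : H2, ∀ z ∈ ball (0 : ℂ) 1, ev (T f) z = ev f (ψ z)) ∧
      J * J = 1 ∧ T = J * C * J := by
  obtain ⟨J, hJ⟩ := exists_comp (inv_diff ha) (inv_maps ha)
  set ψ : ℂ → ℂ := fun z => inv a (φ (inv a z)) with hψ
  have haB : a ∈ ball (0 : ℂ) 1 := mem_ball_zero_iff.2 ha
  have h0B : (0 : ℂ) ∈ ball (0 : ℂ) 1 := by simp
  have hψd : DifferentiableOn ℂ ψ (ball 0 1) :=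
    (inv_diff ha).comp (hφ.comp (inv_diff ha) (inv_maps ha)) (hm.comp (inv_maps ha))
  have hψm : MapsTo ψ (ball (0 : ℂ) 1) (ball 0 1) :=
    (inv_maps ha).comp (hm.comp (inv_maps ha))
  have hψ0 : ψ 0 = 0 := by
    simp only [hψ]
    rw [inv_zero, hfix, inv_self]
  have hψna : ¬ BijOn ψ (ball 0 1) (ball 0 1) := by
    intro hb
    apply hna
    have hinvB : BijOn (inv a) (ball (0 : ℂ) 1) (ball 0 1) := by
      refine ⟨inv_maps ha, ?_, ?_⟩
      · intro x hx y hy hxy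
        rw [← inv_inv' ha hx, ← inv_inv' ha hy, hxy]
      · intro y hy
        exact ⟨inv a y, inv_maps ha hy, inv_inv' ha hy⟩
    have h1 := hinvB.comp (hb.comp hinvB)
    refine h1.congr ?_
    intro z hz
    show inv a (inv a (φ (inv a (inv a z)))) = φ z
    rw [inv_inv' ha hz, inv_inv' ha (hm hz)]
  have hψ' : deriv ψ 0 = deriv φ a := by
    have h1 : HasDerivAt (inv a) (deriv (inv a) 0) 0 :=
      ((inv_diff ha).differentiableAt (isOpen_ball.mem_nhds h0B)).hasDerivAt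
    have h2 : HasDerivAt φ (deriv φ a) (inv a 0) := by
      rw [inv_zero]
      exact (hφ.differentiableAt (isOpen_ball.mem_nhds haB)).hasDerivAt
    have h3 : HasDerivAt (inv a) (deriv (inv a) a) (φ (inv a 0)) := by
      rw [inv_zero, hfix]
      exact ((inv_diff ha).differentiableAt (isOpen_ball.mem_nhds haB)).hasDerivAt
    have h4 : HasDerivAt (inv a ∘ (φ ∘ inv a)) (deriv (inv a) a * (deriv φ a * deriv (inv a) 0))
        0 := h3.comp (0 : ℂ) (h2.comp (0 : ℂ) h1)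
    have h5 : deriv ψ 0 = deriv (inv a) a * (deriv φ a * deriv (inv a) 0) := h4.deriv
    rw [h5]
    calc deriv (inv a) a * (deriv φ a * deriv (inv a) 0) =
          deriv φ a * (deriv (inv a) a * deriv (inv a) 0) := by ring
      _ = deriv φ a := by rw [inv_deriv ha, mul_one]
  refine ⟨ψ, J * C * J, J, hψd, hψm, hψ0, deriv_lt_one hψd hψm hψ0 hψna, hψ', ?_, ?_, rfl⟩
  · intro f z hz
    rw [mul_apply_eq_comp, mul_apply_eq_comp, hJ _ z hz, hC _ _ (inv_maps ha hz),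
      hJ _ _ (hm (inv_maps ha hz))]
  · ext1 f
    rw [mul_apply_eq_comp]
    apply ev_injective
    intro z hz
    rw [hJ _ z hz, hJ _ _ (inv_maps ha hz), inv_inv' ha hz]
    rfl

theorem essInv_conj {A J : H2 →L[ℂ] H2} (hJ : J * J = 1) (h : EssInv A) : EssInv (J * A * J) := by
  obtain ⟨S, h1, h2⟩ := h
  refine ⟨J * S * J, ?_, ?_⟩
  · have e : J * S * J * (J * A * J) - 1 = J * ((S * A - 1) * J) := by
      have : J * S * J * (J * A * J) = J * (S * ((J * J) * A)) * J := by noncomm_ring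
      rw [this, hJ, one_mul, sub_mul, one_mul, mul_sub, hJ]
      noncomm_ring
    rw [e]
    exact compact_mul_left (compact_mul_right h1 J) J
  · have e : J * A * J * (J * S * J) - 1 = J * ((A * S - 1) * J) := by
      have : J * A * J * (J * S * J) = J * (A * ((J * J) * S)) * J := by noncomm_ring
      rw [this, hJ, one_mul, sub_mul, one_mul, mul_sub, hJ]
      noncomm_ring
    rw [e]
    exact compact_mul_left (compact_mul_right h2 J) J

theorem conj_sub {C J : H2 →L[ℂ] H2} (hJ : J * J = 1) (l : ℂ) :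
    J * C * J - l • (1 : H2 →L[ℂ] H2) = J * (C - l • (1 : H2 →L[ℂ] H2)) * J := by
  rw [mul_sub, sub_mul, mul_smul_comm, mul_one, smul_mul_assoc, hJ]

theorem conj_conj {C J : H2 →L[ℂ] H2} (hJ : J * J = 1) : J * (J * C * J) * J = C := by
  have : J * (J * C * J) * J = (J * J) * C * (J * J) := by noncomm_ring
  rw [this, hJ, one_mul, mul_one]

theorem isUnit_conj {A J : H2 →L[ℂ] H2} (hJ : J * J = 1) (h : IsUnit A) : IsUnit (J * A * J) := by
  have hJu : IsUnit J := ⟨⟨J, J, hJ, hJ⟩, rfl⟩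
  exact (hJu.mul h).mul hJu

/-- General interior fixed point. -/
theorem final {φ : ℂ → ℂ} (hφ : DifferentiableOn ℂ φ (ball 0 1))
    (hm : MapsTo φ (ball (0 : ℂ) 1) (ball 0 1)) {a : ℂ} (ha : ‖a‖ < 1) (hfix : φ a = a)
    (hna : ¬ BijOn φ (ball 0 1) (ball 0 1)) (C : H2 →L[ℂ] H2)
    (hC : ∀ f : H2, ∀ z ∈ ball (0 : ℂ) 1, ev (C f) z = ev f (φ z)) :
    ∃ r : ℝ, 0 ≤ r ∧ {l : ℂ | ¬ EssInv (C - l • (1 : H2 →L[ℂ] H2))} = closedBall 0 r ∧
    spectrum ℂ C = closedBall 0 r ∪ {μ : ℂ | ∃ n : ℕ, 1 ≤ n ∧ μ = (deriv φ a) ^ n} ∪ {1} := by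
  obtain ⟨ψ, T, J, hψd, hψm, hψ0, hψ1, hψ', hT, hJ, hTJ⟩ := reduce hφ hm ha hfix hna C hC
  obtain ⟨r, hr0, h1, h2⟩ := final0 hψd hψm hψ0 hψ1 T hT
  refine ⟨r, hr0, ?_, ?_⟩
  · rw [← h1]
    ext l
    simp only [mem_ofPred_eq]
    rw [not_iff_not]
    rw [hTJ, conj_sub hJ]
    constructor
    · exact essInv_conj hJ
    · intro h
      have := essInv_conj hJ h
      rwa [conj_conj hJ] at this
  · rw [← hψ', ← h2]
    ext l
    rw [spectrum.mem_iff, spectrum.mem_iff, not_iff_not]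
    have e : ∀ X : H2 →L[ℂ] H2, algebraMap ℂ (H2 →L[ℂ] H2) l - X =
        -(X - l • (1 : H2 →L[ℂ] H2)) := by
      intro X
      rw [Algebra.algebraMap_eq_smul_one]
      abel
    rw [e, e, IsUnit.neg_iff, IsUnit.neg_iff, hTJ, conj_sub hJ]
    constructor
    · exact isUnit_conj hJ
    · intro h
      have := isUnit_conj hJ h
      rwa [conj_conj hJ] at this

end Pool.Agent.Helper156.Ess
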